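import Mathlib
import Pool.Agent.H525.QF.Stm

/-!
# Project EX (helper525): an exact formula for the number of primes represented by the binary
quartic form `x ^ 4 + t y ^ 4` over `F_q[t]`, `q` even.  Statements of the tasks.

Part I: the canonical solution of the functional equations (arrays of real numbers).
-/

namespace Pool.Agent.H525.EX

open Polynomial
open Pool.Agent.H985.Chow (mob)
open Pool.Agent.H525.QF
open scoped Classical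

/-- Arrays; `u n e` is the coefficient of `X ^ n Y ^ e` of a formal series. -/
abbrev Arr := ℤ → ℤ → ℝ

/-- The functional equations of level `s` (all but the normalization).  With `h0 = Σ u n e X ^ n Y ^ e`,
`h1 = Σ v n e X ^ n Y ^ e`, `Z = ε ^ s P X ^ (2 s + 1) Y ^ (2 s - 1)` they say:
`h0 (ε X Y ^ 2, 1 / Y) = h0 (X, Y)`, `h1 (ε X Y ^ 2, 1 / Y) = - h1 (X, Y) / Y`, and `h0 - Z h1` and
`(h0 - h1) / Y` are symmetric in `X` and `Y`. -/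
structure Pre (s : ℕ) (ε P : ℝ) (u v : Arr) : Prop where
  un : ∀ n e : ℤ, n < 0 → u n e = 0
  vn : ∀ n e : ℤ, n < 0 → v n e = 0
  us : ∀ n e : ℤ, e < -n → u n e = 0
  vs : ∀ n e : ℤ, e < -n → v n e = 0
  ua : ∀ n e : ℤ, u n (2 * n - e) = ε ^ n * u n e
  va : ∀ n e : ℤ, v n (2 * n + 1 - e) = -(ε ^ n * v n e)
  A : ∀ n e : ℤ, u n e - ε ^ s * P * v (n - (2 * s + 1)) (e - (2 * s - 1)) =
    u e n - ε ^ s * P * v (e - (2 * s + 1)) (n - (2 * s - 1))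
  B : ∀ n e : ℤ, u n (e + 1) - v n (e + 1) = u e (n + 1) - v e (n + 1)

/-- Row sums (the value at `Y = 1`). -/
noncomputable def sm (u : Arr) (n : ℤ) : ℝ := ∑ e ∈ Finset.Icc (-n) (3 * n + 1), u n e

/-- Minus the derivative with respect to `Y` at `Y = 1`. -/
noncomputable def dv (v : Arr) (n : ℤ) : ℝ :=
  -∑ e ∈ Finset.Icc (-n) (3 * n + 1), (e : ℝ) * v n e

/-- The canonical solution of level `s`: the functional equations and `h0 (X, 1) = 1`. -/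
structure Sol (s : ℕ) (ε P : ℝ) (u v : Arr) : Prop where
  pre : Pre s ε P u v
  N : ∀ n : ℤ, sm u n = if n = 0 then 1 else 0

/-- **HOM** (uniqueness).  Strong induction on `n`: if the rows `< n` of `u` and `v` vanish, then for
`e < n` the equation `A` gives `u n e = u e n - .. = 0` (for `e < 0` too: row `e` is zero), `ua` gives
`u n e = 0` for `e > n`, and `sm u n = 0` gives `u n n = 0`.  Then `B` with `e - 1 < n` gives
`v n e = 0` for `e ≤ n`, and `va` the rest. -/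
def S_hom : Prop :=
  ∀ (s : ℕ) (ε P : ℝ) (u v : Arr), Pre s ε P u v → (∀ n : ℤ, sm u n = 0) →
    ∀ n e : ℤ, u n e = 0 ∧ v n e = 0

/-- **EXI** (existence).  Define the rows by recursion on `n ≥ 0`: with
`A n e := u n e - ε ^ s P v (n - (2 s + 1)) (e - (2 s - 1))`, `B n e := u n (e + 1) - v n (e + 1)`,
for `e < n`: `u n e := A e n + ε ^ s P v (n - (2 s + 1)) (e - (2 s - 1))` (where `A e n := 0` if
`e < 0`); for `e > n`: `u n e := ε ^ n u n (2 n - e)`; `u n n := [n = 0] - Σ_{e ≠ n} u n e` (this is `0`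
if `ε ^ n = -1`, as then the terms `e` and `2 n - e` cancel); for `e ≤ n`:
`v n e := u n e - B (e - 1) n` (`B (e - 1) n := 0` if `e < 1`); for `e > n`:
`v n e := - ε ^ n v n (2 n + 1 - e)`.  All functional equations hold by construction. -/
def S_exi : Prop :=
  ∀ (s : ℕ) (ε P : ℝ), ε = 1 ∨ ε = -1 → ∃ u v : Arr, Sol s ε P u v

/-- The contiguity relation (`ε = 1`), with `Z = P X ^ (2 s + 1) Y ^ (2 s - 1)`, `δ = X Y`:
`P δ ^ (2 s + 2) (1 - Z Y ^ 2) h1' =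
  (1 - Y) (1 + Z Y ^ 2) h0 - (1 - Z Y + Z Y ^ 2 - Z Y ^ 3) h1`. -/
def R1 (s : ℕ) (P : ℝ) (u v v' : Arr) : Prop :=
  ∀ n e : ℤ, P * (v' (n - (2 * s + 2)) (e - (2 * s + 2)) -
      P * v' (n - (4 * s + 3)) (e - (4 * s + 3))) =
    u n e - u n (e - 1) + P * (u (n - (2 * s + 1)) (e - (2 * s + 1)) -
      u (n - (2 * s + 1)) (e - (2 * s + 2))) -
    (v n e - P * v (n - (2 * s + 1)) (e - 2 * s) + P * v (n - (2 * s + 1)) (e - (2 * s + 1)) -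
      P * v (n - (2 * s + 1)) (e - (2 * s + 2)))

/-- The contiguity relation (`ε = -1`), with `Z = (-1) ^ s P X ^ (2 s + 1) Y ^ (2 s - 1)`, `δ = X Y`:
`(-1) ^ s P δ ^ (2 s + 2) (1 - Z ^ 2 Y ^ 4) h1' = -(1 - Y) (1 + Z ^ 2 Y ^ 4) h0 +
  (1 - Z Y + Z Y ^ 3 - Z ^ 2 Y ^ 3 + Z ^ 2 Y ^ 4 - Z ^ 2 Y ^ 5) h1`. -/
def R2 (s : ℕ) (P : ℝ) (u v v' : Arr) : Prop :=
  ∀ n e : ℤ, (-1) ^ s * P * (v' (n - (2 * s + 2)) (e - (2 * s + 2)) -
      P ^ 2 * v' (n - (6 * s + 4)) (e - (6 * s + 4))) =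
    -(u n e - u n (e - 1) + P ^ 2 * (u (n - (4 * s + 2)) (e - (4 * s + 2)) -
      u (n - (4 * s + 2)) (e - (4 * s + 3)))) +
    (v n e - (-1) ^ s * P * v (n - (2 * s + 1)) (e - 2 * s) +
      (-1) ^ s * P * v (n - (2 * s + 1)) (e - (2 * s + 2)) -
      P ^ 2 * v (n - (4 * s + 2)) (e - (4 * s + 1)) +
      P ^ 2 * v (n - (4 * s + 2)) (e - (4 * s + 2)) -
      P ^ 2 * v (n - (4 * s + 2)) (e - (4 * s + 3)))

/-- **C1** (contiguity, `ε = 1`).  Write `Z = P X ^ (2 s + 1) Y ^ (2 s - 1)`, `δ = X Y`, `y = Z Y ^ 2 =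
P δ ^ (2 s + 1)`, `D = P δ ^ (2 s + 2)` (`= δ ^ 2 P_s`, `P_s = P δ ^ (2 s)`), `Z' = Z δ ^ 2`.  Put
`E1 := (1 - Y) (1 + y) h0 - (1 - Z Y + y - Z Y ^ 3) h1 - D (1 - y) h1'` and
`E0 := D Y⁻¹ ((1 - Y + Y ^ 2 - Z Y ^ 3) h0 - (1 - Y) (1 + y) h1 - Y (1 - y) h0')`.
Then `(E0, E1)` satisfies `Pre (s + 1) 1 P` and has `sm E0 = 0`, so `E1 = 0` by HOM, which is the claim.
`Pre`: the equations `ua`, `va` are immediate (`y`, `D`, `Z Y + Z Y ^ 3 = y (Y + 1 / Y)`,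
`Y + 1 / Y - 1 - y` are invariant).  With `A = h0 - Z h1`, `B = (h0 - h1) / Y`, `A' = h0' - Z' h1'`,
`B' = (h0' - h1') / Y` one has the identities (checked by expanding)
`E0 - Z' E1 = D ((X + Y) A + (1 + P δ ^ (2 s + 2) - (X + Y) (1 + P δ ^ (2 s + 1))) B - (1 - y) A')`,
`(E0 - E1) / Y = (1 + D) A - ((1 + D) (1 + P δ ^ (2 s + 1)) - P δ ^ (2 s + 1) (X + Y)) B -
D (1 - y) B'`, and the right sides are symmetric.  (`δ P_s = P δ ^ (2 s + 1) = y`.)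
`sm E0 = 0`: at `Y = 1` it is `D ((1 - Z) h0 - (1 - y) h0') = D ((1 - y) - (1 - y)) = 0`.
Pointwise version: `X ^ i Y ^ j f` is the array `(n, e) ↦ f (n - i) (e - j)`. -/
def S_c1 : Prop :=
  S_hom → ∀ (s : ℕ) (P : ℝ) (u v u' v' : Arr), Sol s 1 P u v → Sol (s + 1) 1 P u' v' →
    R1 s P u v v'

/-- **C2** (contiguity, `ε = -1`).  Write `c = (-1) ^ s P`, `Z = c X ^ (2 s + 1) Y ^ (2 s - 1)`,
`δ = X Y`, `y = Z Y ^ 2 = c δ ^ (2 s + 1)` (so `y ↦ -y` under `X ↦ - X Y ^ 2`, `Y ↦ 1 / Y`),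
`D = c δ ^ (2 s + 2)`, `Z' = - Z δ ^ 2`.  Put
`E1 := -(1 - Y) (1 + y ^ 2) h0 + (1 - Z Y + Z Y ^ 3 - Z ^ 2 Y ^ 3 + y ^ 2 - Z ^ 2 Y ^ 5) h1 -
D (1 - y ^ 2) h1'` and
`E0 := D Y⁻¹ ((1 - Y + Y ^ 2 - Z Y ^ 2 + Z Y ^ 4 - Z ^ 2 Y ^ 5) h0 - (1 - Y) (1 + y ^ 2) h1 -
Y (1 - y ^ 2) h0')`.
Then `(E0, E1)` satisfies `Pre (s + 1) (-1) P` and has `sm E0 = 0`, so `E1 = 0` by HOM, which is the
claim.  As in C1: `(1 - Y + Y ^ 2 - Z Y ^ 2 + Z Y ^ 4 - Z ^ 2 Y ^ 5) / Y =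
Y + 1 / Y - 1 + y (Y - 1 / Y) - y ^ 2` is invariant under `(X, Y) ↦ (- X Y ^ 2, 1 / Y)` etc., and
`E0 - Z' E1`, `(E0 - E1) / Y` are combinations of `A = h0 - Z h1`, `B = (h0 - h1) / Y`,
`A' = h0' - Z' h1'`, `B' = (h0' - h1') / Y` with coefficients symmetric in `X`, `Y` (substitute
`h0 = (A - Z Y B) / (1 - Z)`, `h1 = (A - Y B) / (1 - Z)` to find them; the coefficients are Laurent
polynomials in `δ`, `X + Y` and `c`). -/
def S_c2 : Prop :=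
  S_hom → ∀ (s : ℕ) (P : ℝ) (u v u' v' : Arr), Sol s (-1) P u v → Sol (s + 1) (-1) P u' v' →
    R2 s P u v v'

/-- **D1**.  Derivative of the relation `R1` with respect to `Y` at `Y = 1`.  Note `h0 (X, 1) = 1` and
`h1 (X, 1) = 0` (as `v n (2 n + 1 - e) = - v n e`), `h1' (X, 1) = 0`.  Proof: multiply `R1` by `e` and
sum over all `e` (finite sums; `u n e = 0` unless `-n ≤ e ≤ 3 n`, `v n e = 0` unless
`-n ≤ e ≤ 3 n + 1`, by `us`, `ua`, `vs`, `va`); use `Σ e f (e - j) = Σ e f e + j Σ f e`. -/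
def S_d1 : Prop :=
  ∀ (s : ℕ) (P : ℝ) (u v u' v' : Arr), Sol s 1 P u v → Sol (s + 1) 1 P u' v' → R1 s P u v v' →
    ∀ n : ℤ, dv v n - P * dv v (n - (2 * s + 1)) =
      (if n = 0 then 1 else 0) + (if n = 2 * s + 1 then P else 0) -
      P * (dv v' (n - (2 * s + 2)) - P * dv v' (n - (4 * s + 3)))

/-- **D2**.  The value and the derivative of the relation `R2` at `Y = 1`. -/
def S_d2 : Prop :=
  ∀ (s : ℕ) (P : ℝ) (u v u' v' : Arr), Sol s (-1) P u v → Sol (s + 1) (-1) P u' v' →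
    R2 s P u v v' →
    (∀ n : ℤ, sm v n - P ^ 2 * sm v (n - (4 * s + 2)) =
      (-1) ^ s * P * (sm v' (n - (2 * s + 2)) - P ^ 2 * sm v' (n - (6 * s + 4)))) ∧
    ((∀ n : ℤ, sm v n = 0) → (∀ n : ℤ, sm v' n = 0) →
      ∀ n : ℤ, dv v n - P ^ 2 * dv v (n - (4 * s + 2)) =
        (if n = 0 then 1 else 0) + (if n = 4 * s + 2 then P ^ 2 else 0) +
        (-1) ^ s * P * (dv v' (n - (2 * s + 2)) - P ^ 2 * dv v' (n - (6 * s + 4))))

/-- The closed form: the sum over the factorizations `4 n + 1 = d e` with `d = 2 s + 1 ≤ e =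
2 s + 1 + 4 m` of `(-1) ^ s ε ^ (s (s + 1) / 2) (1 + ε ^ m) P ^ (s + m)` (without the factor
`1 + ε ^ m` if `m = 0`). -/
noncomputable def Cc (ε P : ℝ) (n : ℕ) : ℝ :=
  ∑ s ∈ Finset.range (n + 1), if s * (s + 1) ≤ n ∧ (2 * s + 1) ∣ (n - s * (s + 1)) then
    (-1) ^ s * ε ^ (s * (s + 1) / 2) *
      (if n = s * (s + 1) then 1 else 1 + ε ^ ((n - s * (s + 1)) / (2 * s + 1))) *
      P ^ (s + (n - s * (s + 1)) / (2 * s + 1))
    else 0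

/-- **RC1** (solution of the recurrence, `ε = 1`).  `g s n := D s n + P D (s + 1) (n - (2 s + 2))`
satisfies `g s n - P g s (n - (2 s + 1)) = [n = 0] + [n = 2 s + 1] P`, so `g s n` is `1` for `n = 0`,
`2 P ^ m` for `n = (2 s + 1) m`, `m ≥ 1`, and `0` otherwise.  Then `D s n = g s n -
P D (s + 1) (n - (2 s + 2))` is iterated: `D 0 n = Σ_j (-P) ^ j g j (n - j (j + 1))`. -/
def S_r1 : Prop :=
  ∀ (P : ℝ) (D : ℕ → ℤ → ℝ), (∀ s n, n < 0 → D s n = 0) →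
    (∀ (s : ℕ) (n : ℤ), D s n - P * D s (n - (2 * s + 1)) =
      (if n = 0 then 1 else 0) + (if n = 2 * s + 1 then P else 0) -
      P * (D (s + 1) (n - (2 * s + 2)) - P * D (s + 1) (n - (4 * s + 3)))) →
    ∀ n : ℕ, D 0 n = Cc 1 P n

/-- **RC2** (solution of the recurrences, `ε = -1`), as RC1. -/
def S_r2 : Prop :=
  (∀ (P : ℝ) (D : ℕ → ℤ → ℝ), (∀ s n, n < 0 → D s n = 0) →
    (∀ (s : ℕ) (n : ℤ), D s n - P ^ 2 * D s (n - (4 * s + 2)) =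
      (if n = 0 then 1 else 0) + (if n = 4 * s + 2 then P ^ 2 else 0) +
      (-1) ^ s * P * (D (s + 1) (n - (2 * s + 2)) - P ^ 2 * D (s + 1) (n - (6 * s + 4)))) →
    ∀ n : ℕ, D 0 n = Cc (-1) P n) ∧
  (∀ (P : ℝ) (f : ℕ → ℤ → ℝ), (∀ s n, n < 0 → f s n = 0) →
    (∀ (s : ℕ) (n : ℤ), f s n - P ^ 2 * f s (n - (4 * s + 2)) =
      (-1) ^ s * P * (f (s + 1) (n - (2 * s + 2)) - P ^ 2 * f (s + 1) (n - (6 * s + 4)))) →
    ∀ s n, f s n = 0)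

end Pool.Agent.H525.EX
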