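import Mathlib
import Pool.Agent.H525.EX.Stm

/-!
# Project EX (helper525), part II: Euler products and lattices.  Statements of the tasks.
-/

namespace Pool.Agent.H525.EX

open Polynomial UniqueFactorizationMonoid
open Pool.Agent.H985.Chow (mob)
open Pool.Agent.H525.QF
open scoped Classical

/-- The canonical solution of level `0`. -/
noncomputable def ca (ε P : ℝ) : Arr × Arr :=
  if h : ∃ w : Arr × Arr, Sol 0 ε P w.1 w.2 then h.choose else 0

/-- The local polynomials; `m = 2 a + ι` stands for `a = v_P (gcd v)`, `ι = [P ∣ F (v / gcd v)]`. -/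
noncomputable def H (ε Q : ℝ) (m : ℕ) : ℝ[X] :=
  ∑ j ∈ Finset.range (4 * (m / 2) + 2),
    C (Q ^ (m / 2) * (if m % 2 = 0 then (ca ε Q⁻¹).1 else (ca ε Q⁻¹).2) ((m / 2 : ℕ) : ℤ)
      ((j : ℤ) - ((m / 2 : ℕ) : ℤ))) * X ^ j

/-- The symmetric coefficients. -/
noncomputable def SS (ε Q : ℝ) (ι i k : ℕ) : ℝ :=
  if ι = 0 then (ca ε Q⁻¹).1 (i : ℤ) (k : ℤ) - Q⁻¹ * (ca ε Q⁻¹).2 ((i : ℤ) - 1) ((k : ℤ) + 1)
  else (ca ε Q⁻¹).1 (i : ℤ) ((k : ℤ) + 1) - (ca ε Q⁻¹).2 (i : ℤ) ((k : ℤ) + 1)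

/-- **LOC** (local properties). -/
def S_loc : Prop :=
  ∀ (ε Q : ℝ), ε = 1 ∨ ε = -1 → 0 < Q → Sol 0 ε Q⁻¹ (ca ε Q⁻¹).1 (ca ε Q⁻¹).2 →
    (∀ n : ℤ, sm (ca ε Q⁻¹).2 n = 0) → (∀ n : ℕ, dv (ca ε Q⁻¹).2 n = Cc ε Q⁻¹ n) →
    H ε Q 0 = 1 ∧
    (∀ m, (H ε Q m).natDegree ≤ 4 * (m / 2) + m % 2 ∧
      (H ε Q m).reflect (4 * (m / 2) + m % 2) = C ((-1) ^ (m % 2) * ε ^ (m / 2)) * H ε Q m) ∧
    (∀ m, 1 ≤ m → (H ε Q m).eval 1 = 0) ∧
    (∀ a, (derivative (H ε Q (2 * a + 1))).eval 1 = -(Q ^ a * Cc ε Q⁻¹ a))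

/-- **LEX** (local expansion).  `H (2 i) - H (2 i - 1) = Σ_k Q ^ i SS 0 i k X ^ (i + k)` and
`H (2 i + 1) - H (2 i) = -Σ_k Q ^ i SS 1 i k X ^ (i + k + 1)`; `SS ι i k = SS ι k i` by the equations `A`,
`B`; `SS ι i k = 0` for `k > 3 i` since `u i e = 0` for `e > 3 i`, `v i e = 0` for `e > 3 i + 1`. -/
def S_lex : Prop :=
  ∀ (ε Q : ℝ), ε = 1 ∨ ε = -1 → 0 < Q → Sol 0 ε Q⁻¹ (ca ε Q⁻¹).1 (ca ε Q⁻¹).2 →
    (∀ m, H ε Q m = ∑ ι ∈ Finset.range 2, ∑ i ∈ Finset.range (m + 1), ∑ k ∈ Finset.range (3 * i + 1),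
      if 2 * i + ι ≤ m then C ((-1) ^ ι * Q ^ i * SS ε Q ι i k) * X ^ (i + k + ι) else 0) ∧
    (∀ ι i k, SS ε Q ι i k = SS ε Q ι k i) ∧
    (∀ ι i k, 3 * i < k → SS ε Q ι i k = 0) ∧ SS ε Q 0 0 0 = 1

section glob

variable {K : Type} [Field K] [Fintype K]

/-- The multiplicative weight. -/
noncomputable def W (h : K[X] → ℕ → ℝ[X]) (M : K[X]) : ℝ[X] :=
  ∏ P ∈ (normalizedFactors M).toFinset,
    expand ℝ P.natDegree (h P ((normalizedFactors M).count P))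

/-- Products of symmetric coefficients. -/
noncomputable def SG (s : K[X] → ℕ → ℕ → ℕ → ℝ) (b g g' : K[X]) : ℝ :=
  ∏ P ∈ (normalizedFactors (b * g * g')).toFinset,
    s P ((normalizedFactors b).count P) ((normalizedFactors g).count P)
      ((normalizedFactors g').count P)

/-- `A m b` and `A' m b` extended by zero to negative `m`. -/
noncomputable def AI (b : K[X]) (m : ℤ) : ℝ := if m < 0 then 0 else (A m.toNat b : ℝ)
noncomputable def AII (b : K[X]) (m : ℤ) : ℝ := if m < 0 then 0 else (A' m.toNat b : ℝ)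

/-- Pairs of the first and second kind, coprime. -/
noncomputable def cI (K : Type) [Field K] [Fintype K] (m : ℕ) : Finset (K[X] × K[X]) :=
  ((lt K (m + 1)) ×ˢ (mon K m)).filter (fun v => IsCoprime v.1 v.2)
noncomputable def cII (K : Type) [Field K] [Fintype K] (m : ℕ) : Finset (K[X] × K[X]) :=
  ((mon K m) ×ˢ (lt K m)).filter (fun v => IsCoprime v.1 v.2)

/-- The coefficients of the sum of the weights over all pairs of size `n` (written as `G v`, `v`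
coprime). -/
noncomputable def GI (h : K[X] → ℕ → ℝ[X]) (n k : ℕ) : ℝ :=
  ∑ j ∈ Finset.range (n + 1), ∑ G ∈ mon K j, ∑ v ∈ cI K (n - j), (W h (G ^ 2 * F v)).coeff k
noncomputable def GII (h : K[X] → ℕ → ℝ[X]) (n k : ℕ) : ℝ :=
  ∑ j ∈ Finset.range (n + 1), ∑ G ∈ mon K j, ∑ v ∈ cII K (n - j), (W h (G ^ 2 * F v)).coeff k

/-- The normalized arrays. -/
noncomputable def gI (h : K[X] → ℕ → ℝ[X]) : Arr := fun n e =>
  if 0 ≤ n ∧ 0 ≤ n + e then ((Fintype.card K : ℝ) ^ (n.toNat + 1))⁻¹ * GI h n.toNat (n + e).toNat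
  else 0
noncomputable def gII (h : K[X] → ℕ → ℝ[X]) : Arr := fun n e =>
  if 0 ≤ n ∧ 0 ≤ n + e then ((Fintype.card K : ℝ) ^ n.toNat)⁻¹ * GII h n.toNat (n + e).toNat
  else 0

/-- Hypotheses on the local data. -/
def HypE (h : K[X] → ℕ → ℝ[X]) (s : K[X] → ℕ → ℕ → ℕ → ℝ) : Prop :=
  (∀ P m, h P m = ∑ ι ∈ Finset.range 2, ∑ i ∈ Finset.range (m + 1), ∑ k ∈ Finset.range (3 * i + 1),
    if 2 * i + ι ≤ m then C ((-1) ^ ι * ((Fintype.card K : ℝ) ^ P.natDegree) ^ i * s P ι i k) *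
      X ^ (i + k + ι) else 0) ∧
  (∀ P ι i k, s P ι i k = s P ι k i) ∧ (∀ P ι i k, 3 * i < k → s P ι i k = 0) ∧
  (∀ P, s P 0 0 0 = 1)

def HypR (η : ℝ) (h : K[X] → ℕ → ℝ[X]) : Prop :=
  ∀ P m, (h P m).natDegree ≤ 4 * (m / 2) + m % 2 ∧
    (h P m).reflect (4 * (m / 2) + m % 2) =
      C ((-1) ^ (m % 2) * (η ^ P.natDegree) ^ (m / 2)) * h P m

def HypV (h : K[X] → ℕ → ℝ[X]) : Prop :=
  (∀ P, h P 0 = 1) ∧ ∀ P m, 1 ≤ m → (h P m).eval 1 = 0

end glob

/-- **EXP** (expansion of the Euler product).  `normalizedFactors M` consists of monic irreducible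
polynomials.  Put `T(M) := Σ_{b squarefree, g, g' : g ^ 2 b ∣ M, g' ∣ g ^ 3} mob b q ^ (deg g) SG s b g g'
X ^ (deg b + deg g + deg g')` (all monic; finite).  For coprime `M₁`, `M₂` one has `T (M₁ M₂) =
T M₁ * T M₂` (the triples for `M₁ M₂` are the products of triples, and `SG`, `mob` are multiplicative),
for a prime power `M = P ^ m` the triples are `(P ^ ι, P ^ i, P ^ k)` with `2 i + ι ≤ m`, `ι ≤ 1`,
`k ≤ 3 i`, so `T (P ^ m) = expand ℝ (deg P) (h P m)`; hence `T M = W h M` (induction on the number of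
prime factors, or `Finset.prod_sum`).  The coefficient of `X ^ k` is the sum below: the terms with
`g' ∤ g ^ 3` vanish since then `3 v_P g < v_P g'` for some `P` and the factor of `SG` at `P` is `0`. -/
def S_exp : Prop :=
  ∀ (K : Type) [Field K] [Fintype K] (h : K[X] → ℕ → ℝ[X]) (s : K[X] → ℕ → ℕ → ℕ → ℝ),
    HypE h s → ∀ M : K[X], M.Monic → ∀ k : ℕ, (W h M).coeff k =
      ∑ l ∈ Finset.range (k + 1), ∑ i ∈ Finset.range (k + 1 - l),
        ∑ b ∈ (mon K l).filter (fun b => Squarefree b), ∑ g ∈ mon K i, ∑ g' ∈ mon K (k - l - i),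
          if g ^ 2 * b ∣ M then (mob b : ℝ) * (Fintype.card K : ℝ) ^ i * SG s b g g' else 0

/-- **LAT**.  Every pair `w` of the first kind of size `n` is uniquely `G v` with `G` monic and `v`
coprime of the first kind; `F v` is squarefree (`S_par`, or: its derivative is `v.2 ^ 4`); and for
squarefree `b`: `g ^ 2 b ∣ G ^ 2 F v` iff `g ∣ G` and `b ∣ F ((G / g) v)` (compare the exponents of each
prime).  So both sides count the pairs `w = g w'` with `b ∣ F w'`. -/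
def S_lat : Prop :=
  ∀ (K : Type) [Field K] [Fintype K] [CharP K 2] (n i : ℕ) (b g : K[X]), b.Monic → Squarefree b →
    g ∈ mon K i →
    ∑ j ∈ Finset.range (n + 1), ∑ G ∈ mon K j,
      ((cI K (n - j)).filter (fun v => g ^ 2 * b ∣ G ^ 2 * F v)).card =
      (if i ≤ n then A (n - i) b else 0)

/-- **LAT'** (second kind). -/
def S_lat' : Prop :=
  ∀ (K : Type) [Field K] [Fintype K] [CharP K 2] (n i : ℕ) (b g : K[X]), b.Monic → Squarefree b →
    g ∈ mon K i →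
    ∑ j ∈ Finset.range (n + 1), ∑ G ∈ mon K j,
      ((cII K (n - j)).filter (fun v => g ^ 2 * b ∣ G ^ 2 * F v)).card =
      (if i ≤ n then A' (n - i) b else 0)

/-- **REF** (reflection of the weights).  `count P (G ^ 2 F₀) = 2 a + ι`, `a = count P G`,
`ι = count P F₀ ∈ {0, 1}`; `reflect` is multiplicative (`Polynomial.reflect_mul`),
`reflect (d N) (expand d f) = expand d (reflect N f)`, `Σ_P deg P (4 a + ι) = 4 deg G + deg F₀`,
`∏_P (-1) ^ ι = mob F₀`, `∏_P (η ^ deg P) ^ a = η ^ deg G`. -/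
def S_ref : Prop :=
  ∀ (K : Type) [Field K] [Fintype K] (η : ℝ) (h : K[X] → ℕ → ℝ[X]), HypR η h →
    ∀ G F₀ : K[X], G.Monic → F₀.Monic → Squarefree F₀ →
      (W h (G ^ 2 * F₀)).natDegree ≤ 4 * G.natDegree + F₀.natDegree ∧
      (W h (G ^ 2 * F₀)).reflect (4 * G.natDegree + F₀.natDegree) =
        C ((mob F₀ : ℝ) * η ^ G.natDegree) * W h (G ^ 2 * F₀)

/-- **EV** (values and derivatives of the weights at `1`): `W h M` is a product over the primes
dividing `M` of polynomials vanishing at `1`. -/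
def S_ev : Prop :=
  ∀ (K : Type) [Field K] [Fintype K] (h : K[X] → ℕ → ℝ[X]), HypV h →
    (∀ M : K[X], M.Monic → (W h M).eval 1 = if M = 1 then 1 else 0) ∧
    (∀ G F₀ : K[X], G.Monic → F₀.Monic → Squarefree F₀ → F₀ ≠ 1 →
      (∀ a : ℕ, Irreducible F₀ → G = F₀ ^ a →
        (derivative (W h (G ^ 2 * F₀))).eval 1 =
          (F₀.natDegree : ℝ) * (derivative (h F₀ (2 * a + 1))).eval 1) ∧
      ((¬ Irreducible F₀ ∨ ∀ a : ℕ, G ≠ F₀ ^ a) → (derivative (W h (G ^ 2 * F₀))).eval 1 = 0))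

/-- **SYM** (Riemann–Roch).  Put `β N = B m m b` for `N = 2 m ≥ 0`, `β N = B (m + 1) m b` for
`N = 2 m + 1 ≥ 0`, `β N = 1` for `N < 0`.  Then `β N * q ^ l = q ^ N * β (2 l - N)` for all integers `N`
(`H181.QF.t_root`, `H236.QF.t_rr` for `0 ≤ N ≤ 2 l`, `H277.QF.t_ex` for `N > 2 l`: then
`β N = q ^ (N - l)`), and `(q - 1) AII m = β (2 m + 1) - β (2 m)`, `(q - 1) AI m = β (2 m + 2) -
β (2 m + 1)` for all integers `m` (`H277.QF.t_sc`).  So `(q - 1) (AII m - q AI (m - 1)) =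
β (N + 1) - (1 + q) β N + q β (N - 1)` for `N = 2 m`, and `(q - 1) (AI m - q AII m)` is the same
expression for `N = 2 m + 1`; it satisfies `D N = q ^ (N - l) D (2 l - N)`. -/
def S_sym : Prop :=
  ∀ (K : Type) [Field K] [Fintype K] [CharP K 2] (b : K[X]) (l : ℕ), b.Monic → Squarefree b →
    b.natDegree = l → ∀ m : ℤ,
      AII b m - (Fintype.card K : ℝ) * AI b (m - 1) = (Fintype.card K : ℝ) ^ (2 * m - l) *
        (AII b (l - m) - (Fintype.card K : ℝ) * AI b (l - m - 1)) ∧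
      (Fintype.card K : ℝ) * AII b m - AI b m = (Fintype.card K : ℝ) ^ (2 * m + 1 - l) *
        ((Fintype.card K : ℝ) * AII b (l - m - 1) - AI b (l - m - 1))

/-- **GB** (assembly: the equations `A`, `B` and the supports for the global arrays).  By EXP and LAT:
`GII h n k = Σ_{l + i + i' = k} Σ_{b, g, g'} mob b q ^ i SG b g g' AII b (n - i)` (`deg b = l`,
`deg g = i`, `deg g' = i'`), the same for `GI` and `AI`.  So with `k = n + e`
`gII n e - q gI (n - 1) (e + 1) = Σ mob b SG b g g' q ^ (i - n) (AII b (n - i) - q AI b (n - 1 - i))`;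
by SYM with `m = n - i`, `l - m = e - i'` this is symmetric under `(n, i, g) ↔ (e, i', g')`
(`SG b g g' = SG b g' g`).  Similarly, with `k = n + e + 1`, for `gII n (e + 1) - gI n (e + 1) =
Σ mob b SG b g g' q ^ (i - n - 1) (q AII b (n - i) - AI b (n - i))`, `l - (n - i) - 1 = e - i'`. -/
def S_gb : Prop :=
  S_exp → S_lat → S_lat' → S_sym →
  ∀ (K : Type) [Field K] [Fintype K] [CharP K 2] (h : K[X] → ℕ → ℝ[X])
    (s : K[X] → ℕ → ℕ → ℕ → ℝ), HypE h s →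
    (∀ n e : ℤ, gII h n e - (Fintype.card K : ℝ) * gI h (n - 1) (e + 1) =
      gII h e n - (Fintype.card K : ℝ) * gI h (e - 1) (n + 1)) ∧
    (∀ n e : ℤ, gII h n (e + 1) - gI h n (e + 1) = gII h e (n + 1) - gI h e (n + 1))

/-- **GA** (assembly: the equations `ua`, `va` for the global arrays; `F v` is monic of degree
`4 m + 1` for `v ∈ cI K m` and `4 m` for `v ∈ cII K m`, and `mob (F v)` is given by `S_par`). -/
def S_ga : Prop :=
  S_ref → S_par →
  ∀ (K : Type) [Field K] [Fintype K] [CharP K 2] (κ : ℕ), Fintype.card K = 2 ^ κ →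
    ∀ (h : K[X] → ℕ → ℝ[X]), HypR ((-1) ^ κ) h →
    (∀ n e : ℤ, gII h n (2 * n - e) = ((-1 : ℝ) ^ κ) ^ n * gII h n e) ∧
    (∀ n e : ℤ, gI h n (2 * n + 1 - e) = -(((-1 : ℝ) ^ κ) ^ n * gI h n e))

/-- **GN** (assembly: the normalization; `G ^ 2 F v = 1` only for `G = 1`, `v = (1, 0)`; `GII h n k = 0`
for `k > 4 n`, as in REF). -/
def S_gn : Prop :=
  S_ref → S_ev → S_par →
  ∀ (K : Type) [Field K] [Fintype K] [CharP K 2] (κ : ℕ), Fintype.card K = 2 ^ κ →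
    ∀ (h : K[X] → ℕ → ℝ[X]), HypR ((-1) ^ κ) h → HypV h →
    ∀ n : ℤ, sm (gII h) n = if n = 0 then 1 else 0

/-- The number of pairs of the first kind of size `m` with irreducible `F v`. -/
noncomputable def pri (K : Type) [Field K] [Fintype K] (m : ℕ) : ℕ :=
  (((lt K (m + 1)) ×ˢ (mon K m)).filter (fun v => Irreducible (F v))).card

/-- **GD** (the derivative at `1` of the sum of all weights of the first kind).  By EV only
`v` with `F v` irreducible and `G = (F v) ^ a` contribute; if `v ∈ cI K m`, then `deg F v = 4 m + 1`,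
`deg G = (4 m + 1) a`, and `(4 m + 1) a + m = n` means `(4 a + 1) (4 m + 1) = 4 n + 1`.
(An irreducible `F v` implies that `v` is coprime.) -/
def S_gd : Prop :=
  S_ref → S_ev → S_par →
  ∀ (K : Type) [Field K] [Fintype K] [CharP K 2] (κ : ℕ), Fintype.card K = 2 ^ κ →
    ∀ (h : K[X] → ℕ → ℝ[X]) (ρ : ℕ → ℕ → ℝ), HypR ((-1) ^ κ) h → HypV h →
    (∀ (P : K[X]) (a : ℕ), (derivative (h P (2 * a + 1))).eval 1 = ρ P.natDegree a) →
    ∀ n : ℕ, ∑ k ∈ Finset.range (4 * n + 2), (k : ℝ) * GI h n k =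
      ∑ m ∈ Finset.range (n + 1), if (4 * m + 1) ∣ (4 * n + 1) then
        (pri K m : ℝ) * (4 * m + 1) * ρ (4 * m + 1) (((4 * n + 1) / (4 * m + 1) - 1) / 4) else 0

end Pool.Agent.H525.EX
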