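import Mathlib
import Pool.Agent.H525.EX.Stm2

/-!
# Project EX (helper525), part III: the formula in terms of divisors, and its consequences
-/

namespace Pool.Agent.H525.EX

open Polynomial
open Pool.Agent.H525.QF
open scoped Classical

/-- **CDIV**.  `jacobiSym (-2 ^ κ) d = χ₄ d * χ₈ d ^ κ` for odd `d`.  In a factorization
`4 n + 1 = d e` one has `d ≡ e` modulo `4`; let `d ≤ e`, `d = 2 s + 1`, `e = 2 s + 1 + 4 m`.  Then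
`n = s (s + 1) + (2 s + 1) m`, `jacobiSym (-2 ^ κ) d = (-1) ^ s ε ^ (s (s + 1) / 2)`,
`jacobiSym (-2 ^ κ) e = ε ^ m jacobiSym (-2 ^ κ) d` with `ε = (-1) ^ κ`,
`(d + 1) (e + 1) / 4 = n + 1 + s + m` and `(d - 1) (e - 1) / 4 = n - s - m`.  So the sum over the pairs
`(d, e)` and `(e, d)` (one pair if `m = 0`) is the `s`-th term of `Cc`. -/
def S_cdiv : Prop :=
  ∀ (κ n : ℕ) (Q : ℝ), Q ≠ 0 →
    ∑ d ∈ (4 * n + 1).divisors, (jacobiSym (-(2 : ℤ) ^ κ) d : ℝ) *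
      Q ^ ((d + 1) * ((4 * n + 1) / d + 1) / 4) = Q ^ (n + 1) * Cc ((-1) ^ κ) Q n ∧
    ∑ d ∈ (4 * n + 1).divisors, (jacobiSym (-(2 : ℤ) ^ κ) d : ℝ) *
      Q ^ ((d - 1) * ((4 * n + 1) / d - 1) / 4) = Q ^ n * Cc ((-1) ^ κ) Q⁻¹ n

/-- The exact formula for a sequence `p`, `q = 2 ^ κ`: for `N = 4 n + 1`
`Σ_{f ∣ N, f ≡ 1 (4)} f p ((f - 1) / 4) Σ_{d ∣ N / f} (-q / d) q ^ (f (d - 1) (N / (f d) - 1) / 4) =
Σ_{d ∣ N} (-q / d) q ^ ((d + 1) (N / d + 1) / 4)`. -/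
def Ident (κ : ℕ) (p : ℕ → ℕ) (n : ℕ) : Prop :=
  ∑ f ∈ (4 * n + 1).divisors with f % 4 = 1, (f : ℤ) * (p ((f - 1) / 4) : ℤ) *
      ∑ d ∈ ((4 * n + 1) / f).divisors, jacobiSym (-(2 : ℤ) ^ κ) d *
        ((2 : ℤ) ^ κ) ^ (f * ((d - 1) * ((4 * n + 1) / f / d - 1) / 4)) =
    ∑ d ∈ (4 * n + 1).divisors, jacobiSym (-(2 : ℤ) ^ κ) d *
      ((2 : ℤ) ^ κ) ^ ((d + 1) * ((4 * n + 1) / d + 1) / 4)

/-- **BD** (consequences).  With `N = 4 n + 1`, `q = 2 ^ κ`: `jacobiSym (-q) N = (-1) ^ (κ n) = 1`.  If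
`N` is prime, the divisors are `1` and `N` and the formula reads `q (1 + 1) + N p n =
2 q ^ (2 n + 1)`.  In general the terms `d = 1`, `d = N` on the right are `2 q ^ (2 n + 1)`, the others
have `3 ≤ d ≤ N / 3`, so the exponent is at most `(3 + 1) (N / 3 + 1) / 4 = (4 n + 4) / 3`; there are
at most `N` of them.  On the left the term `f = N` is `N p n` and for `f < N`, i.e. `f ≤ N / 5`, use
`p m ≤ q ^ (2 m + 1)`: exponent `(f + 1) / 2 + f (d - 1) (e - 1) / 4`, `d e = N / f`,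
`f (d - 1) (e - 1) ≤ N - f`, so at most `(N + f + 2) / 4 ≤ (4 n + 4) / 3`. -/
def S_bd : Prop :=
  ∀ (κ : ℕ) (p : ℕ → ℕ), 1 ≤ κ → (∀ m, p m ≤ (2 ^ κ) ^ (2 * m + 1)) → p 0 = 2 ^ κ →
    (∀ n, Ident κ p n) → ∀ n : ℕ, Even (κ * n) →
      ((4 * n + 1).Prime → (4 * n + 1) * p n + 2 * 2 ^ κ = 2 * (2 ^ κ) ^ (2 * n + 1)) ∧
      |((4 * n + 1) * p n : ℝ) - 2 * (2 ^ κ) ^ (2 * n + 1)| ≤
        2 * (4 * n + 1) ^ 3 * (2 ^ κ) ^ ((4 * n + 4) / 3)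

end Pool.Agent.H525.EX
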