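import Mathlib
import Pool.Agent.H525.EX.Stm3

/-!
# Project EX (helper525), part IV: the values of degree `4 n` (pairs of the second kind)

All relations below have been checked numerically.
-/

namespace Pool.Agent.H525.EX

open Polynomial UniqueFactorizationMonoid
open Pool.Agent.H985.Chow (mob)
open Pool.Agent.H525.QF
open scoped Classical

/-- The derivative with respect to `Y` at `Y = 1` (for `h0`). -/
noncomputable def du (u : Arr) (n : ℤ) : ℝ :=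
  ∑ e ∈ Finset.Icc (-n) (3 * n + 1), (e : ℝ) * u n e

/-- The contiguity relation for `h0` (`ε = -1`), with `Z = (-1) ^ s P X ^ (2 s + 1) Y ^ (2 s - 1)`,
`y = Z Y ^ 2`: `(1 - Y + Y ^ 2 - Z Y ^ 2 + Z Y ^ 4 - Z ^ 2 Y ^ 5) h0 - (1 - Y) (1 + y ^ 2) h1 -
Y (1 - y ^ 2) h0' = 0`. -/
def R3 (s : ℕ) (P : ℝ) (u v u' : Arr) : Prop :=
  ∀ n e : ℤ, u n e - u n (e - 1) + u n (e - 2) -
      (-1) ^ s * P * u (n - (2 * s + 1)) (e - (2 * s + 1)) +
      (-1) ^ s * P * u (n - (2 * s + 1)) (e - (2 * s + 3)) -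
      P ^ 2 * u (n - (4 * s + 2)) (e - (4 * s + 3)) -
    (v n e - v n (e - 1) + P ^ 2 * (v (n - (4 * s + 2)) (e - (4 * s + 2)) -
      v (n - (4 * s + 2)) (e - (4 * s + 3)))) -
    (u' n (e - 1) - P ^ 2 * u' (n - (4 * s + 2)) (e - (4 * s + 3))) = 0

/-- **C3** (contiguity for `h0`, `ε = -1`).  This is the relation `E0 = 0` of the proof of `S_c2`
(helper297, `Pool/Agent/H297/EX/C2.lean`: the pair `(E0, E1)` satisfies `Pre (s + 1) (-1) P` and
`sm E0 = 0`, so `S_hom` gives `E0 = 0` as well as `E1 = 0`); `E0 = D Y⁻¹ (..)` with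
`D = (-1) ^ s P (X Y) ^ (2 s + 2)`, divide by `(-1) ^ s P ≠ 0` and shift the indices. -/
def S_c3 : Prop :=
  S_hom → ∀ (s : ℕ) (P : ℝ) (u v u' v' : Arr), P ≠ 0 → Sol s (-1) P u v →
    Sol (s + 1) (-1) P u' v' → R3 s P u v u'

/-- **D3**.  Derivative of the relation `R3` with respect to `Y` at `Y = 1` (as for `S_d1`, `S_d2`,
`Pool/Agent/H345/EX/D1.lean`, `Pool/Agent/H685/EX/D2.lean`): multiply by `e` and sum over all `e`;
`Σ_e u n e = Σ_e u' n e = [n = 0]`, `Σ_e v n e = 0`.  The coefficient of `h0` has the value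
`1 - P ^ 2 X ^ (4 s + 2)` and the derivative `1 + 2 Z - (4 s + 3) Z ^ 2` at `Y = 1`. -/
def S_d3 : Prop :=
  ∀ (s : ℕ) (P : ℝ) (u v u' v' : Arr), Sol s (-1) P u v → Sol (s + 1) (-1) P u' v' →
    (∀ n : ℤ, sm v n = 0) → R3 s P u v u' →
    ∀ n : ℤ, du u n - P ^ 2 * du u (n - (4 * s + 2)) -
      (du u' n - P ^ 2 * du u' (n - (4 * s + 2))) +
      (if n = 2 * s + 1 then 2 * (-1) ^ s * P else 0) = 0

/-- **LOW**.  The rows `0 < n ≤ 2 s` of `u` vanish and the row `0` is `u 0 0 = 1`, `u 0 e = 0` for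
`e ≠ 0`: strong induction on `n`: for `e < n` equation `A` has no `v`-terms (row `n - (2 s + 1) < 0`),
so `u n e = u e n`, which is zero (`e < 0`; `e = 0`: row zero; `0 < e < n`: induction); then `ua` and
`sm u n = 0`. -/
def S_low : Prop :=
  ∀ (s : ℕ) (ε P : ℝ) (u v : Arr), Sol s ε P u v → ∀ n : ℤ, n ≤ 2 * s → du u n = 0

/-- The closed form: `-2 Σ_{d ∣ n} χ₄ (n / d) P ^ d` for odd `n`, zero for even `n`. -/
noncomputable def Dc (P : ℝ) (n : ℕ) : ℝ :=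
  if n % 2 = 1 then -2 * ∑ d ∈ n.divisors, (jacobiSym (-1) (n / d) : ℝ) * P ^ d else 0

/-- **R3** (solution of the recurrence).  `g s n := D s n - D (s + 1) n` satisfies
`g s n - P ^ 2 g s (n - (4 s + 2)) = - [n = 2 s + 1] 2 (-1) ^ s P`, so `g s n` is
`-2 (-1) ^ s P ^ (2 k + 1)` for `n = (2 s + 1) (2 k + 1)` and zero otherwise; `D 0 n = Σ_{s < S} g s n +
D S n` and `D S n = 0` for `n ≤ 2 S`.  (`jacobiSym (-1) (2 s + 1) = (-1) ^ s`.) -/
def S_r3 : Prop :=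
  ∀ (P : ℝ) (D : ℕ → ℤ → ℝ), (∀ (s : ℕ) (n : ℤ), n ≤ 2 * s → D s n = 0) →
    (∀ (s : ℕ) (n : ℤ), D s n - P ^ 2 * D s (n - (4 * s + 2)) -
      (D (s + 1) n - P ^ 2 * D (s + 1) (n - (4 * s + 2))) +
      (if n = 2 * s + 1 then 2 * (-1) ^ s * P else 0) = 0) →
    ∀ n : ℕ, D 0 n = Dc P n

/-- **LOC2** (local derivative; compare `Pool/Agent/H139/EX/LOC.lean`).  `H ε Q (2 a) =
Σ_{j < 4 a + 2} C (Q ^ a u a (j - a)) X ^ j`, so the derivative at `1` is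
`Q ^ a Σ_j j u a (j - a) = Q ^ a (du u a + a sm u a)` and `a sm u a = 0`. -/
def S_loc2 : Prop :=
  ∀ (ε Q : ℝ), 0 < Q → Sol 0 ε Q⁻¹ (ca ε Q⁻¹).1 (ca ε Q⁻¹).2 →
    ∀ a : ℕ, (derivative (H ε Q (2 * a))).eval 1 = Q ^ a * du (ca ε Q⁻¹).1 a

/-- **EV2** (the derivatives of the weights of squares at `1`; compare `S_ev`, store file
`helper44_EX_EV.lean`). -/
def S_ev2 : Prop :=
  ∀ (K : Type) [Field K] [Fintype K] (h : K[X] → ℕ → ℝ[X]), HypV h →
    (∀ (P : K[X]) (a : ℕ), P.Monic → Irreducible P → 1 ≤ a →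
      (derivative (W h ((P ^ a) ^ 2))).eval 1 =
        (P.natDegree : ℝ) * (derivative (h P (2 * a))).eval 1) ∧
    (∀ G : K[X], G.Monic → (∀ (P : K[X]) (a : ℕ), P.Monic → Irreducible P → 1 ≤ a → G ≠ P ^ a) →
      (derivative (W h (G ^ 2))).eval 1 = 0)

/-- The number of pairs of the second kind of size `m` with irreducible `F v`. -/
noncomputable def pri' (K : Type) [Field K] [Fintype K] (m : ℕ) : ℕ :=
  (((mon K m) ×ˢ (lt K m)).filter (fun v => Irreducible (F v))).card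

/-- The number of monic irreducible polynomials of degree `r`. -/
noncomputable def irr (K : Type) [Field K] [Fintype K] (r : ℕ) : ℕ :=
  ((mon K r).filter (fun P => Irreducible P)).card

/-- **GD2** (the derivative at `1` of the sum of all weights of the second kind; compare `S_gd`,
`Pool/Agent/H627/EX/GD.lean`).  The sum over `k` is the derivative at `1` of
`Σ_{j ≤ n} Σ_{G ∈ mon K j} Σ_{v ∈ cII K (n - j)} W h (G ^ 2 F v)`, which has degree `≤ 4 n` (REF).  For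
`v ∈ cII K m`, `m ≥ 1` (`F v` is monic of degree `4 m ≥ 4`), only `F v` irreducible and `G = (F v) ^ a`
contribute, `4 m a + m = n`, i.e. `n / m = 4 a + 1`; for `m = 0` the only `v` is `(1, 0)`, `F v = 1`,
and `G` is of degree `n`: only the powers `G = P ^ a`, `deg P = r`, `r a = n`, contribute. -/
def S_gd2 : Prop :=
  S_ref → S_ev → S_ev2 → S_par →
  ∀ (K : Type) [Field K] [Fintype K] [CharP K 2] (κ : ℕ), Fintype.card K = 2 ^ κ →
    ∀ (h : K[X] → ℕ → ℝ[X]) (ρ σ : ℕ → ℕ → ℝ), HypR ((-1) ^ κ) h → HypV h →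
    (∀ (P : K[X]) (a : ℕ), (derivative (h P (2 * a + 1))).eval 1 = ρ P.natDegree a) →
    (∀ (P : K[X]) (a : ℕ), (derivative (h P (2 * a))).eval 1 = σ P.natDegree a) →
    ∀ n : ℕ, 1 ≤ n → ∑ k ∈ Finset.range (4 * n + 2), (k : ℝ) * GII h n k =
      (∑ m ∈ n.divisors, if n / m % 4 = 1 then
        (pri' K m : ℝ) * (4 * m) * ρ (4 * m) ((n / m - 1) / 4) else 0) +
      ∑ r ∈ n.divisors, (irr K r : ℝ) * r * σ r (n / r)

/-- **NEC** (Gauss's formula for the number of irreducible polynomials; several proofs exist in the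
team's files and perhaps in Mathlib: e.g. the factors of `X ^ (q ^ c) - X`, or
`Σ_{f monic, deg f = c} Σ_{P ^ k ∣ f} deg P = c q ^ c`). -/
def S_nec : Prop :=
  ∀ (K : Type) [Field K] [Fintype K] (c : ℕ), 1 ≤ c →
    ∑ r ∈ c.divisors, r * irr K r = Fintype.card K ^ c

/-- The exact formula for the second kind (`κ` and `n` odd), `q = 2 ^ κ`:
`Σ_{m ∣ n, n / m ≡ 1 (4)} 4 m p m Σ_{d ∣ n / m} χ₄ d q ^ (m (d - 1) (n / (m d) - 1)) =
2 q ^ n Σ_{c ∣ n} χ₄ (n / c) (q ^ c - 1)`. -/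
def Ident2 (κ : ℕ) (p : ℕ → ℕ) (n : ℕ) : Prop :=
  ∑ m ∈ n.divisors with n / m % 4 = 1, (4 * m : ℤ) * (p m : ℤ) *
      ∑ d ∈ (n / m).divisors, jacobiSym (-1) d *
        ((2 : ℤ) ^ κ) ^ (m * ((d - 1) * (n / m / d - 1))) =
    2 * ((2 : ℤ) ^ κ) ^ n * ∑ c ∈ n.divisors, jacobiSym (-1) (n / c) * (((2 : ℤ) ^ κ) ^ c - 1)

/-- **BD2** (consequences; compare `Pool/Agent/H441/EX/BDC.lean`).  On the right the term `c = n` is
`2 q ^ n (q ^ n - 1)`, the other terms have `c ≤ n / 3`.  On the left the term `m = n` is `4 n p n`,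
for `m < n` (`n / m ≥ 5`, `m ≤ n / 5`) use `p m ≤ q ^ (2 m)`: for `d = 1` or `d = n / m` the exponent is
`2 m`, otherwise `d, e = n / (m d) ≥ 3` and `2 m + m (d - 1) (e - 1) = n - m (d + e - 3) ≤ n`.  For a
prime `n` the divisors are `1` and `n` (`n / 1 ≡ 1` modulo `4` or not), and for `n = 1` one gets
`4 p 1 = 2 q (q - 1)`. -/
def S_bd2 : Prop :=
  ∀ (κ : ℕ) (p : ℕ → ℕ), Odd κ → (∀ m, p m ≤ (2 ^ κ) ^ (2 * m)) →
    (∀ n, Odd n → Ident2 κ p n) → ∀ n : ℕ, Odd n →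
      (n.Prime → n % 4 = 3 → (4 * n : ℤ) * p n =
        2 * (2 ^ κ) ^ n * ((2 ^ κ) ^ n - (2 ^ κ))) ∧
      (n.Prime → n % 4 = 1 → (4 * n : ℤ) * p n =
        2 * (2 ^ κ) ^ n * ((2 ^ κ) ^ n + 2 ^ κ - 2) - 4 * 2 ^ κ * (2 ^ κ - 1)) ∧
      |(4 * n * p n : ℝ) - 2 * (2 ^ κ) ^ (2 * n)| ≤
        2 * (4 * n) ^ 3 * (2 ^ κ) ^ ((4 * n + 3) / 3)

end Pool.Agent.H525.EX
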