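import Mathlib
import Pool.Agent.H525.EX.Stm4

/-!
# Project EX (helper525), part V: the polynomials `u ^ 2 + t (u') ^ 2`, `u` monic of degree `M`

`F2 v = v.1 ^ 4 + (t ^ 2 + t) v.2 ^ 4 = u ^ 2 + t (u') ^ 2` for `u = v.1 ^ 2 + t v.2 ^ 2`.  Statements of
the tasks.  All formulas have been checked numerically.
-/

namespace Pool.Agent.H525.EX

open Polynomial UniqueFactorizationMonoid
open Pool.Agent.H985.Chow (mob)
open Pool.Agent.H525.QF
open scoped Classical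

section defs

variable {K : Type} [Field K] [Fintype K]

/-- The form `x ^ 4 + (t ^ 2 + t) y ^ 4`. -/
noncomputable def F2 {K : Type} [Field K] (v : K[X] × K[X]) : K[X] :=
  v.1 ^ 4 + (X ^ 2 + X) * v.2 ^ 4

/-- The additive character `(-1) ^ Tr c` (`q` even). -/
noncomputable def psi {K : Type} [Field K] (c : K) : ℤ := if ∃ w : K, w ^ 2 + w = c then 1 else -1

/-- Weighted numbers of pairs of the first and second kind with `b ∣ F2 v`. -/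
noncomputable def A1 (ω : K → ℝ) (m : ℕ) (b : K[X]) : ℝ :=
  ∑ v ∈ ((lt K (m + 1)) ×ˢ (mon K m)).filter (fun v => b ∣ F2 v), ω (v.1.coeff m)
noncomputable def A0 (ω : K → ℝ) (m : ℕ) (b : K[X]) : ℝ :=
  ∑ v ∈ ((mon K m) ×ˢ (lt K m)).filter (fun v => b ∣ F2 v), ω (v.2.coeff (m - 1))

/-- The same for the lattice `b ∣ x + τ y`; extended by zero to negative `m`. -/
noncomputable def T1 (ω : K → ℝ) (b τ : K[X]) (m : ℤ) : ℝ := if m < 0 then 0 else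
  ∑ v ∈ ((lt K (m.toNat + 1)) ×ˢ (mon K m.toNat)).filter (fun v => b ∣ v.1 + τ * v.2),
    ω (v.1.coeff m.toNat)
noncomputable def T0 (ω : K → ℝ) (b τ : K[X]) (m : ℤ) : ℝ := if m < 0 then 0 else
  ∑ v ∈ ((mon K m.toNat) ×ˢ (lt K m.toNat)).filter (fun v => b ∣ v.1 + τ * v.2),
    ω (v.2.coeff (m.toNat - 1))

/-- Sums of the weights (compare `GI`, `GII`), weighted by `ω` of the top coefficient. -/
noncomputable def G1 (ω : K → ℝ) (h : K[X] → ℕ → ℝ[X]) (n k : ℕ) : ℝ :=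
  ∑ j ∈ Finset.range (n + 1), ∑ G ∈ mon K j, ∑ v ∈ cI K (n - j),
    ω (v.1.coeff (n - j)) * (W h (G ^ 2 * F2 v)).coeff k
noncomputable def G0 (ω : K → ℝ) (h : K[X] → ℕ → ℝ[X]) (n k : ℕ) : ℝ :=
  ∑ j ∈ Finset.range (n + 1), ∑ G ∈ mon K j, ∑ v ∈ cII K (n - j),
    ω (v.2.coeff (n - j - 1)) * (W h (G ^ 2 * F2 v)).coeff k

/-- The normalized arrays. -/
noncomputable def g1 (ω : K → ℝ) (h : K[X] → ℕ → ℝ[X]) : Arr := fun n e =>
  if 0 ≤ n ∧ 0 ≤ n + e then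
    ((Fintype.card K : ℝ) ^ (n.toNat + 1))⁻¹ * G1 ω h n.toNat (n + e).toNat else 0
noncomputable def g0 (ω : K → ℝ) (h : K[X] → ℕ → ℝ[X]) : Arr := fun n e =>
  if 0 ≤ n ∧ 0 ≤ n + e then
    ((Fintype.card K : ℝ) ^ n.toNat)⁻¹ * G0 ω h n.toNat (n + e).toNat else 0

end defs

/-! ### Lattices -/

/-- **PSI**.  `w ↦ w ^ 2 + w` is additive with kernel `{0, 1}`, so its image has `q / 2` elements. -/
def S_psi : Prop :=
  ∀ (K : Type) [Field K] [Fintype K] [CharP K 2], psi (0 : K) = 1 ∧ ∑ c : K, psi c = 0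

/-- **ROOT2** (as `H181.QF.t_root`, for `c = t ^ 2 + t = τ ^ 4` modulo `b`). -/
def S_root2 : Prop :=
  ∀ (K : Type) [Field K] [Fintype K] [CharP K 2] (b : K[X]), b.Monic → Squarefree b →
    ∃ τ : K[X], ∀ v : K[X] × K[X], b ∣ F2 v ↔ b ∣ v.1 + τ * v.2

/-- **SYMU** (Riemann–Roch, unweighted; this is `H120/EX/SYM.lean`, which proves it for the lattice of
`F`; the proof uses only the root `τ`). -/
def S_symU : Prop :=
  ∀ (K : Type) [Field K] [Fintype K] (b τ : K[X]) (l : ℕ), b.Monic → b.natDegree = l → ∀ m : ℤ,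
    T0 (fun _ => 1) b τ m - (Fintype.card K : ℝ) * T1 (fun _ => 1) b τ (m - 1) =
      (Fintype.card K : ℝ) ^ (2 * m - l) * (T0 (fun _ => 1) b τ (l - m) -
        (Fintype.card K : ℝ) * T1 (fun _ => 1) b τ (l - m - 1)) ∧
    (Fintype.card K : ℝ) * T0 (fun _ => 1) b τ m - T1 (fun _ => 1) b τ m =
      (Fintype.card K : ℝ) ^ (2 * m + 1 - l) *
        ((Fintype.card K : ℝ) * T0 (fun _ => 1) b τ (l - m - 1) - T1 (fun _ => 1) b τ (l - m - 1))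

/-- **TW1** (weighted Riemann–Roch, first kind).  For `m, l - m - 1 ≥ 0`: as `y` is monic of degree
`m`, the pair `(x, y)` can be written `x = c y + x'`, `c` the coefficient of `X ^ m` in `x`, `deg x' < m`,
and `x + τ y = x' + (τ + c) y`; so `(q - 1) T1 m = Σ_c ω c (L m (m + 1) b (τ + C c) -
L m m b (τ + C c))` (scaling `y`, see `H277.QF.t_sc`).  `L m m b (τ + C c) = L m m b τ` (`x ↦ x + c y`
preserves the box), so its contribution is zero as `Σ ω c = 0`; and by `S_rr` (`H236.QF.t_rr`)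
`L m (m + 1) b (τ + C c) q ^ l = q ^ (2 m + 1) L (l - m - 1) (l - m) b (τ + C c)`.  For `m ≥ l` the
value `L m (m + 1) b (τ + C c)` does not depend on `c` (`S_ex`), so `T1 m = 0`. -/
def S_tw1 : Prop :=
  ∀ (K : Type) [Field K] [Fintype K] (ω : K → ℝ), ∑ c : K, ω c = 0 →
    ∀ (b τ : K[X]) (l : ℕ), b.Monic → b.natDegree = l → ∀ m : ℤ,
      T1 ω b τ m = (Fintype.card K : ℝ) ^ (2 * m + 1 - l) * T1 ω b τ (l - m - 1)

/-- **TW0** (weighted Riemann–Roch, second kind).  Let `1 ≤ m ≤ l - 1`, `m' = l - m`, and let `V m` be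
the set of the `(a, e) ∈ K × K` such that `(a, e) = (coefficient of X ^ m in x, coefficient of
X ^ (m - 1) in y)` for some `(x, y) ∈ lt (m + 1) × lt m` with `b ∣ x + τ y`, a subspace; each `(a, e) ∈ V m`
is attained `L m (m - 1) b τ` times, so `L (m + 1) m = |V m| L m (m - 1)`, and
`T0 m = L m (m - 1) Σ_{e : (1, e) ∈ V m} ω e`.
(1) If `(a, e) ∈ V m` and `(a', e') ∈ V m'` come from `(x, y)`, `(x', y')` then `b ∣ x y' - x' y`, whose
degree is `≤ l - 1`, so it is `0`, and its coefficient of `X ^ (l - 1)` is `a e' - a' e = 0`.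
(2) By `S_rr` `L (m + 1) m q ^ l = q ^ (2 m + 1) L m' (m' - 1)`, `L m (m - 1) q ^ l =
q ^ (2 m - 1) L (m' + 1) m'`, hence `|V m| |V m'| = q ^ 2`.
If `|V m| = 1` (or `q ^ 2`) both sums are `0` (`Σ ω = 0`).  If `|V m| = |V m'| = q` both are lines and by
(1) they are equal; both sums are equal, and `L m (m - 1) = q⁻¹ L (m + 1) m =
q ^ (2 m - l) L m' (m' - 1)`.  For `m = 0 < l`, and for `m ≥ l`, `m ≥ 1`: `T0 0 = 0` as `b ∤ 1`, and for
`m ≥ l` each `y` has `q ^ (m - l)` partners `x` (`S_ex`), so `T0 m = q ^ (m - l) Σ_y ω (y_(m-1)) = 0`;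
`l = m = 0` is trivial. -/
def S_tw0 : Prop :=
  ∀ (K : Type) [Field K] [Fintype K] (ω : K → ℝ), ∑ c : K, ω c = 0 →
    ∀ (b τ : K[X]) (l : ℕ), b.Monic → b.natDegree = l → ∀ m : ℤ,
      T0 ω b τ m = (Fintype.card K : ℝ) ^ (2 * m - l) * T0 ω b τ (l - m)

/-- **LAT2** (weighted version of `S_lat`, see `H166/EX/LAT.lean` or `H353/EX/LATP.lean`; the
coefficient of `X ^ n` in `G x`, `G` monic of degree `j`, `deg x ≤ n - j`, is that of `X ^ (n - j)` in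
`x`; `F2 v` is squarefree for coprime `v`: its derivative is `v.2 ^ 4`). -/
def S_lat2 : Prop :=
  ∀ (K : Type) [Field K] [Fintype K] [CharP K 2] (ω : K → ℝ) (n i : ℕ) (b g : K[X]), b.Monic →
    Squarefree b → g ∈ mon K i →
    ∑ j ∈ Finset.range (n + 1), ∑ G ∈ mon K j,
      ∑ v ∈ (cI K (n - j)).filter (fun v => g ^ 2 * b ∣ G ^ 2 * F2 v), ω (v.1.coeff (n - j)) =
      (if i ≤ n then A1 ω (n - i) b else 0)

/-- **LAT2'** (second kind). -/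
def S_lat2' : Prop :=
  ∀ (K : Type) [Field K] [Fintype K] [CharP K 2] (ω : K → ℝ) (n i : ℕ) (b g : K[X]), b.Monic →
    Squarefree b → g ∈ mon K i →
    ∑ j ∈ Finset.range (n + 1), ∑ G ∈ mon K j,
      ∑ v ∈ (cII K (n - j)).filter (fun v => g ^ 2 * b ∣ G ^ 2 * F2 v), ω (v.2.coeff (n - j - 1)) =
      (if i ≤ n then A0 ω (n - i) b else 0)

/-- **GB2** (assembly; compare `S_gb` and `H539/EX/GB.lean`).  By EXP, LAT2 and ROOT2:
`G0 ω h n k = Σ_{l + i + i' = k} Σ_{b, g, g'} mob b q ^ i SG b g g' T0 ω b τ_b (n - i)`, the same for `G1`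
and `T1`.  Then as for `S_gb` (unweighted); and for the weights with `Σ ω = 0`, with `k = n + e`,
`g0 ω n e = Σ mob b SG b g g' q ^ (i - n) T0 (n - i)`, `l - (n - i) = e - i'`, symmetric under
`(n, i, g) ↔ (e, i', g')` by TW0; with `k = n + e + 1`, `g1 ω n (e + 1) = Σ mob b SG b g g'
q ^ (i - n - 1) T1 (n - i)`, `l - (n - i) - 1 = e - i'`. -/
def S_gb2 : Prop :=
  S_exp → S_lat2 → S_lat2' → S_root2 → S_symU → S_tw1 → S_tw0 →
  ∀ (K : Type) [Field K] [Fintype K] [CharP K 2] (h : K[X] → ℕ → ℝ[X])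
    (s : K[X] → ℕ → ℕ → ℕ → ℝ), HypE h s →
    (∀ n e : ℤ, g0 (fun _ => 1) h n e - (Fintype.card K : ℝ) * g1 (fun _ => 1) h (n - 1) (e + 1) =
      g0 (fun _ => 1) h e n - (Fintype.card K : ℝ) * g1 (fun _ => 1) h (e - 1) (n + 1)) ∧
    (∀ n e : ℤ, g0 (fun _ => 1) h n (e + 1) - g1 (fun _ => 1) h n (e + 1) =
      g0 (fun _ => 1) h e (n + 1) - g1 (fun _ => 1) h e (n + 1)) ∧
    ∀ ω : K → ℝ, ∑ c : K, ω c = 0 →
      (∀ n e : ℤ, g0 ω h n e = g0 ω h e n) ∧ (∀ n e : ℤ, g1 ω h n (e + 1) = g1 ω h e (n + 1))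

/-! ### Parity -/

/-- **PAR2** (parity, compare `S_par` and `Pool/Agent/H591/QF/PAR.lean`).  Apply
`Pool.Agent.H985.Chow.sgn : S_sgn` to `G = Xh ^ 4 + (X ^ 2 + X) Yh ^ 4`, `Xh`, `Yh` the Teichmüller lifts
(`tl`), with roots `v i`, `vdm v ^ 2 = (-1) ^ (N (N - 1) / 2) ∏ G' (v i)`, sign `-` for `N = 4 n + 2`, `+`
for `N = 4 n`, and `G' = (1 + 2 X) Yh ^ 4 + 4 H`, `H = Xh ^ 3 Xh' + (X ^ 2 + X) Yh ^ 3 Yh'`.  So modulo
`8` (times a unit) `∏ G' (v i) = ∏ (1 + 2 v i) · Π ^ 4 (1 + 4 s)`, `Π = ∏ Yh (v i)` fixed by `frobLift`,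
where `s` reduces to `Σ h(r) / f'(r)` over the roots `r` of `f` (`f' = y ^ 4`), which is by Euler's
formula the coefficient of `X ^ (N - 1)` in `h` (`deg h ≤ N - 1`), i.e. `n` modulo `2`.
`∏ (1 + 2 v i) = Σ_j G.coeff j (-2) ^ (N - j) ≡ 1 - 2 G.coeff (N - 1) + 4 G.coeff (N - 2)` modulo `8`:
first kind (`Yh` monic of degree `n`, `deg Xh ≤ n`, `N = 4 n + 2`): `G.coeff (N - 1) ≡ 1` modulo `4`,
`G.coeff (N - 2) ≡ a ^ 4` modulo `2` with `a` the coefficient of `X ^ n` in `Xh`, so the product is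
`-(1 + 4 a ^ 4)`; second kind (`Xh` monic of degree `n`, `deg Yh < n`, `N = 4 n`):
`G.coeff (N - 1) ≡ 0` modulo `4`, `G.coeff (N - 2) ≡ a ^ 4` modulo `2`, `a` the coefficient of
`X ^ (n - 1)` in `Yh`, product `1 + 4 a ^ 4`.  So in both cases `vdm v ^ 2 ≡ (Π ^ 2) ^ 2 (1 + 4 z)` modulo
`8`, `z = a ^ 4 + n`, and `Chow.sign_step` (with `r = Π ^ 2`, `N₂ = 1`), `Chow.last_step` give
`mob f = ± 1` according to whether `a ^ 4 + n = w ^ 2 + w` is solvable in `K`; `a ^ 4 = a + (w ^ 2 + w)`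
for `w = a ^ 2 + a`, and `n = w ^ 2 + w` is solvable iff `κ n` is even (`exists_iff` in PAR.lean); the
solvable elements are an additive subgroup of index `2`.  The case `n = 0` of the second kind is
trivial (`F2 v = 1`), in the first kind `n = 0` is included. -/
def S_par2 : Prop :=
  ∀ (K : Type) [Field K] [Fintype K] [CharP K 2] (κ : ℕ), Fintype.card K = 2 ^ κ →
    ∀ (n : ℕ) (v : K[X] × K[X]), IsCoprime v.1 v.2 →
      (v.1 ∈ lt K (n + 1) → v.2 ∈ mon K n →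
        Squarefree (F2 v) ∧ mob (F2 v) = (-1) ^ (κ * n) * psi (v.1.coeff n)) ∧
      (v.1 ∈ mon K n → v.2 ∈ lt K n →
        Squarefree (F2 v) ∧ mob (F2 v) = (-1) ^ (κ * n) * psi (v.2.coeff (n - 1)))

/-- **GA2** (compare `S_ga` and `H350/EX/GA.lean`; `F2 v` is monic of degree `4 m + 2` for `v ∈ cI K m`
and `4 m` for `v ∈ cII K m`).  `(W h (G ^ 2 F2 v)).coeff (4 n + 2 - k) = ε ^ n ψ (W ..).coeff k`. -/
def S_ga2 : Prop :=
  S_ref → S_par2 →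
  ∀ (K : Type) [Field K] [Fintype K] [CharP K 2] (κ : ℕ), Fintype.card K = 2 ^ κ →
    ∀ (h : K[X] → ℕ → ℝ[X]), HypR ((-1) ^ κ) h →
    (∀ n e : ℤ, g0 (fun _ => 1) h n (2 * n - e) =
      ((-1 : ℝ) ^ κ) ^ n * g0 (fun c => (psi c : ℝ)) h n e) ∧
    (∀ n e : ℤ, g1 (fun _ => 1) h n (2 * n + 2 - e) =
      ((-1 : ℝ) ^ κ) ^ n * g1 (fun c => (psi c : ℝ)) h n e)

/-- **GN2** (compare `S_gn` and `H694/EX/GN.lean`): `W h (G ^ 2 F2 v)` vanishes at `1` unless `G = 1` and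
`F2 v = 1`, which happens only for `v = (1, 0)`, of the second kind; `natDegree ≤ 4 n + 2` resp. `4 n`. -/
def S_gn2 : Prop :=
  S_ref → S_ev → S_par2 →
  ∀ (K : Type) [Field K] [Fintype K] [CharP K 2] (κ : ℕ), Fintype.card K = 2 ^ κ →
    ∀ (h : K[X] → ℕ → ℝ[X]), HypR ((-1) ^ κ) h → HypV h →
    (∀ n : ℤ, ∑ e ∈ Finset.Icc (-n) (3 * n + 2), g0 (fun _ => 1) h n e = if n = 0 then 1 else 0) ∧
    (∀ n : ℤ, ∑ e ∈ Finset.Icc (-n) (3 * n + 2), g1 (fun _ => 1) h n e = 0)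

/-- The numbers of pairs of the first and second kind with irreducible `F2 v`. -/
noncomputable def pi1 (K : Type) [Field K] [Fintype K] (m : ℕ) : ℕ :=
  (((lt K (m + 1)) ×ˢ (mon K m)).filter (fun v => Irreducible (F2 v))).card
noncomputable def pi0 (K : Type) [Field K] [Fintype K] (m : ℕ) : ℕ :=
  (((mon K m) ×ˢ (lt K m)).filter (fun v => Irreducible (F2 v))).card

/-- **GD21** (compare `S_gd` and `H627/EX/GD.lean`): only `v` with `F2 v` irreducible and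
`G = (F2 v) ^ a` contribute; `deg F2 v = 4 m + 2`, `(4 m + 2) a + m = n`, i.e.
`(4 a + 1) (2 m + 1) = 2 n + 1`. -/
def S_gd21 : Prop :=
  S_ref → S_ev → S_par2 →
  ∀ (K : Type) [Field K] [Fintype K] [CharP K 2] (κ : ℕ), Fintype.card K = 2 ^ κ →
    ∀ (h : K[X] → ℕ → ℝ[X]) (ρ : ℕ → ℕ → ℝ), HypR ((-1) ^ κ) h → HypV h →
    (∀ (P : K[X]) (a : ℕ), (derivative (h P (2 * a + 1))).eval 1 = ρ P.natDegree a) →
    ∀ n : ℕ, ∑ k ∈ Finset.range (4 * n + 3), (k : ℝ) * G1 (fun _ => 1) h n k =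
      ∑ m ∈ Finset.range (n + 1), if (2 * m + 1) ∣ (2 * n + 1) ∧ (2 * n + 1) / (2 * m + 1) % 4 = 1 then
        (pi1 K m : ℝ) * (4 * m + 2) * ρ (4 * m + 2) (((2 * n + 1) / (2 * m + 1) - 1) / 4) else 0

/-- **GD20** (compare `S_gd2` and `H253/EX/GD2.lean`). -/
def S_gd20 : Prop :=
  S_ref → S_ev → S_ev2 → S_par2 →
  ∀ (K : Type) [Field K] [Fintype K] [CharP K 2] (κ : ℕ), Fintype.card K = 2 ^ κ →
    ∀ (h : K[X] → ℕ → ℝ[X]) (ρ σ : ℕ → ℕ → ℝ), HypR ((-1) ^ κ) h → HypV h →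
    (∀ (P : K[X]) (a : ℕ), (derivative (h P (2 * a + 1))).eval 1 = ρ P.natDegree a) →
    (∀ (P : K[X]) (a : ℕ), (derivative (h P (2 * a))).eval 1 = σ P.natDegree a) →
    ∀ n : ℕ, 1 ≤ n → ∑ k ∈ Finset.range (4 * n + 3), (k : ℝ) * G0 (fun _ => 1) h n k =
      (∑ m ∈ n.divisors, if n / m % 4 = 1 then
        (pi0 K m : ℝ) * (4 * m) * ρ (4 * m) ((n / m - 1) / 4) else 0) +
      ∑ r ∈ n.divisors, (irr K r : ℝ) * r * σ r (n / r)

/-! ### The array equations -/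

/-- The equations of level `m` for an array `f`: with `r = g X ^ m Y ^ m` (formally
`r = g δ ^ m`, `δ = X Y`), `f` is multiplied by the sign under `(N, E) ↦ (2 N - E, 3 N - 2 E)` and
`(1 - r Y⁻²) f` is symmetric. -/
structure Lev (ε g : ℝ) (m : ℤ) (f : Arr) : Prop where
  fn : ∀ N E : ℤ, N < 0 → f N E = 0
  fs : ∀ N E : ℤ, E < -N → f N E = 0
  fp : ∀ N E : ℤ, (N + E) % 2 = 1 → f N E = 0
  tau : ∀ N E : ℤ, f (2 * N - E) (3 * N - 2 * E) = ε ^ ((E - N) / 2) * f N E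
  sym : ∀ N E : ℤ, f N E - g * f (N - m) (E - m + 2) = f E N - g * f (E - m) (N - m + 2)
  nor : ∀ N : ℤ, ∑ E ∈ Finset.Icc (-N) (2 * N), f N E = if N = 0 then 1 else 0

/-- Minus the derivative. -/
noncomputable def dl (f : Arr) (N : ℤ) : ℝ := -∑ E ∈ Finset.Icc (-N) (2 * N), (E : ℝ) * f N E

/-- `(1 - r) (1 - ε r δ) f' = (1 - r Y⁻²) (1 - ε r δ Y²) f`, `r = g X ^ m Y ^ m`, `δ = X² Y²` (in the
doubled exponents). -/
def Rl (ε g : ℝ) (m : ℤ) (f f' : Arr) : Prop :=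
  ∀ N E : ℤ, f' N E - g * f' (N - m) (E - m) - ε * g * f' (N - m - 2) (E - m - 2) +
      ε * g ^ 2 * f' (N - 2 * m - 2) (E - 2 * m - 2) =
    f N E - g * f (N - m) (E - m + 2) - ε * g * f (N - m - 2) (E - m - 4) +
      ε * g ^ 2 * f (N - 2 * m - 2) (E - 2 * m - 2)

/-- **LV1** (the next level).  Let `w N E` be the right side of `Rl` (`w = (1 - r Y⁻²) (1 - ε r δ Y²) f`)
and `f' = Σ_{a, c ≥ 0} r ^ a (ε r δ) ^ c w`, i.e. `f' N E = Σ_{a, c ∈ range (N + 1)} g ^ a (ε g) ^ c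
w (N - m a - (m + 2) c) (E - m a - (m + 2) c)` (a finite sum as `w N E = 0` for `N < 0`, `m ≥ 1`).  The
substitution `τ : (N, E) ↦ (2 N - E, 3 N - 2 E)` (with its sign) exchanges multiplication by `r Y⁻²` and
by `ε r δ Y²` (monomials `(m, m - 2)` and `(m + 2, m + 4)`), and commutes with diagonal shifts, so `w`
and `f'` satisfy `tau`; and `(1 - ε g .. (m + 4, m + 2)) w = (1 - ε r δ² Y⁻²) (1 - ε r δ Y²) ((1 - r Y⁻²) f)`
is symmetric since `(1 - r Y⁻²) f` is and `ε r δ² Y⁻² = ε g (m + 4, m + 2)`, `ε r δ Y² =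
ε g (m + 2, m + 4)` are exchanged by the symmetry.  `nor`: row sums are the values at `Y = 1`, where
`(1 - r) (1 - ε r δ)` and `(1 - r Y⁻²) (1 - ε r δ Y²)` agree.  (`f N E = 0` for `E > 2 N` by `tau`, `fn`.)
-/
def S_lv1 : Prop :=
  ∀ (ε g : ℝ) (m : ℤ) (f : Arr), ε = 1 ∨ ε = -1 → 1 ≤ m → m % 2 = 1 → Lev ε g m f →
    ∃ f' : Arr, Lev ε (ε * g) (m + 4) f' ∧ Rl ε g m f f'

/-- **LV2** (derivative of `Rl` with respect to `Y` at `Y = 1`: multiply by `E` and sum over `E`). -/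
def S_lv2 : Prop :=
  ∀ (ε g : ℝ) (m : ℤ) (f f' : Arr), ε = 1 ∨ ε = -1 → 1 ≤ m → Lev ε g m f →
    Lev ε (ε * g) (m + 4) f' → Rl ε g m f f' → ∀ N : ℤ,
      (dl f N - dl f' N) - g * (dl f (N - m) - dl f' (N - m)) -
        ε * g * (dl f (N - m - 2) - dl f' (N - m - 2)) +
        ε * g ^ 2 * (dl f (N - 2 * m - 2) - dl f' (N - 2 * m - 2)) =
      (if N = m then 2 * g else 0) - (if N = m + 2 then 2 * ε * g else 0)

/-- **LV3** (low rows).  For `0 ≤ N < m` only `f N N` can be nonzero (induction: for `E < N` `sym` gives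
`f N E = f E N = 0`, for `E > N` use `tau`, `2 N - E < N`), so `f 0 0 = 1` and `f N N = 0` for
`0 < N < m` by `nor`. -/
def S_lv3 : Prop :=
  ∀ (ε g : ℝ) (m : ℤ) (f : Arr), ε = 1 ∨ ε = -1 → Lev ε g m f → ∀ N : ℤ, N < m → dl f N = 0

/-- The closed form. -/
noncomputable def El (ε g : ℝ) (N : ℕ) : ℝ :=
  2 * (∑ d ∈ N.divisors with d % 4 = 1, (ε ^ ((d - 1) / 4) * g) ^ (N / d) -
    ∑ d ∈ N.divisors with d % 4 = 3, (ε ^ ((d + 1) / 4) * g) ^ (N / d))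

/-- **LV4** (solution of the recurrence).  `D k - D (k + 1)` has the generating function
`2 g_k x ^ m / (1 - g_k x ^ m) - 2 ε g_k x ^ (m + 2) / (1 - ε g_k x ^ (m + 2))`, `m = 4 k + 1`,
`g_k = ε ^ k g`, i.e. `D k N - D (k + 1) N = 2 [m ∣ N, N > 0] g_k ^ (N / m) -
2 [(m + 2) ∣ N, N > 0] (ε g_k) ^ (N / (m + 2))`. -/
def S_lv4 : Prop :=
  ∀ (ε g : ℝ) (D : ℕ → ℤ → ℝ), ε = 1 ∨ ε = -1 → (∀ (k : ℕ) (N : ℤ), N < 4 * k + 1 → D k N = 0) →
    (∀ (k : ℕ) (N : ℤ), (D k N - D (k + 1) N) -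
        ε ^ k * g * (D k (N - (4 * k + 1)) - D (k + 1) (N - (4 * k + 1))) -
        ε ^ (k + 1) * g * (D k (N - (4 * k + 1) - 2) - D (k + 1) (N - (4 * k + 1) - 2)) +
        ε * g ^ 2 * (D k (N - 2 * (4 * k + 1) - 2) - D (k + 1) (N - 2 * (4 * k + 1) - 2)) =
      (if N = 4 * k + 1 then 2 * ε ^ k * g else 0) -
        (if N = 4 * k + 3 then 2 * ε ^ (k + 1) * g else 0)) →
    ∀ N : ℕ, D 0 N = El ε g N

/-- The combined array: `f (2 n) (2 e) = u n e`, `f (2 n + 1) (2 e - 1) = g v n e`. -/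
noncomputable def cmb (g : ℝ) (u v : Arr) : Arr := fun N E =>
  if N % 2 = 0 ∧ E % 2 = 0 then u (N / 2) (E / 2)
  else if N % 2 = 1 ∧ E % 2 = 1 then g * v (N / 2) ((E + 1) / 2) else 0

/-- The functional equations for `(u, v)`, `Q = g ^ 2`. -/
structure Pr2 (ε Q : ℝ) (u v : Arr) : Prop where
  un : ∀ n e : ℤ, n < 0 → u n e = 0
  vn : ∀ n e : ℤ, n < 0 → v n e = 0
  us : ∀ n e : ℤ, e < -n → u n e = 0
  vs : ∀ n e : ℤ, e < -n → v n e = 0
  ua : ∀ n e : ℤ, ε ^ n * u n (2 * n - e) = ε ^ e * u e (2 * e - n)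
  va : ∀ n e : ℤ, ε ^ n * v n (2 * n + 1 - e) = ε ^ e * v e (2 * e + 1 - n)
  A : ∀ n e : ℤ, u n e - Q * v (n - 1) (e + 1) = u e n - Q * v (e - 1) (n + 1)
  B : ∀ n e : ℤ, u n (e + 1) - v n (e + 1) = u e (n + 1) - v e (n + 1)
  nu : ∀ n : ℤ, ∑ e ∈ Finset.Icc (-n) (3 * n + 2), u n e = if n = 0 then 1 else 0
  nv : ∀ n : ℤ, ∑ e ∈ Finset.Icc (-n) (3 * n + 2), v n e = 0

/-- **CMB**.  `cmb g u v` satisfies the equations of level `1` with `g ^ 2 = Q`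
(`N = 2 n`: `A`; `N = 2 n + 1`: `B`; `tau`: `ua` with `e ↦ 2 n - e`, `va` with `e ↦ 2 n + 1 - e`), and
the sums `Σ e u n e`, `Σ e v n e` are obtained from its derivative. -/
def S_cmb : Prop :=
  ∀ (ε g : ℝ) (u v : Arr), ε = 1 ∨ ε = -1 → 0 < g → Pr2 ε (g ^ 2) u v →
    Lev ε g 1 (cmb g u v) ∧
    ∀ n : ℤ, 2 * (-∑ e ∈ Finset.Icc (-n) (3 * n + 2), (e : ℝ) * u n e) =
        dl (cmb g u v) (2 * n) ∧
      2 * g * (-∑ e ∈ Finset.Icc (-n) (3 * n + 2), (e : ℝ) * v n e) =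
        dl (cmb g u v) (2 * n + 1)

end Pool.Agent.H525.EX
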