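import Mathlib
import Pool.Agent.H525.EX.Stm2

/-!
# Project EX (helper525), task EV: values and derivatives of the weights at `1` (by helper44)
-/

set_option autoImplicit false

namespace Pool.Agent.H525.EX.EV44

open Polynomial UniqueFactorizationMonoid
open Pool.Agent.H525.EX
open scoped Classical

theorem ev_nf_monic {K : Type} [Field K] {M P : K[X]} (h : P ∈ normalizedFactors M) : P.Monic :=
  (Polynomial.monic_normalize (irreducible_of_normalized_factor P h).ne_zero) |> fun h1 => by
    rwa [normalize_normalized_factor P h] at h1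

theorem ev_prod {K : Type} [Field K] {M : K[X]} (h : M.Monic) : (normalizedFactors M).prod = M := by
  rw [prod_normalizedFactors_eq h.ne_zero, h.normalize_eq_self]

/-- the value of a factor at `1` -/
theorem ev_val {K : Type} [Field K] [Fintype K] (h : K[X] → ℕ → ℝ[X]) (hv : HypV h) (M P : K[X])
    (hP : P ∈ (normalizedFactors M).toFinset) :
    (expand ℝ P.natDegree (h P ((normalizedFactors M).count P))).eval 1 = 0 := by
  rw [expand_eval, one_pow]
  refine hv.2 P _ ?_
  exact Multiset.one_le_count_iff_mem.2 (Multiset.mem_toFinset.1 hP)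

theorem ev_eval {K : Type} [Field K] [Fintype K] (h : K[X] → ℕ → ℝ[X]) (hv : HypV h) (M : K[X])
    (hM : M.Monic) : (W h M).eval 1 = if M = 1 then 1 else 0 := by
  unfold W
  split_ifs with h1
  · subst h1
    simp
  · obtain ⟨P, hP⟩ : ∃ P, P ∈ normalizedFactors M := by
      by_contra hne
      rw [not_exists] at hne
      have h0 : normalizedFactors M = 0 := Multiset.eq_zero_of_forall_notMem hne
      have h2 := ev_prod hM
      rw [h0, Multiset.prod_zero] at h2
      exact h1 h2.symm
    rw [eval_prod]
    exact Finset.prod_eq_zero (Multiset.mem_toFinset.2 hP) (ev_val h hv M P (Multiset.mem_toFinset.2 hP))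

theorem ev_der {K : Type} [Field K] [Fintype K] (h : K[X] → ℕ → ℝ[X]) (M : K[X]) :
    (derivative (W h M)).eval 1 = ∑ P ∈ (normalizedFactors M).toFinset,
      (∏ Q ∈ (normalizedFactors M).toFinset.erase P,
        (expand ℝ Q.natDegree (h Q ((normalizedFactors M).count Q))).eval 1) *
        ((P.natDegree : ℝ) * (derivative (h P ((normalizedFactors M).count P))).eval 1) := by
  unfold W
  rw [derivative_prod_finset, eval_finsetSum]
  refine Finset.sum_congr rfl fun P _ => ?_
  rw [eval_mul, eval_prod, derivative_expand, eval_mul, expand_eval, one_pow, eval_mul, eval_pow, eval_X,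
    one_pow, mul_one, eval_natCast]
  ring

theorem t_ev : S_ev := by
  intro K _ _ h hv
  refine ⟨fun M hM => ev_eval h hv M hM, ?_⟩
  intro G F₀ hG hF hsq hne
  have hFi : ∃ P, P ∈ normalizedFactors F₀ := by
    by_contra hne'
    rw [not_exists] at hne'
    have h0 : normalizedFactors F₀ = 0 := Multiset.eq_zero_of_forall_notMem hne'
    have h2 := ev_prod hF
    rw [h0, Multiset.prod_zero] at h2
    exact hne h2.symm
  have hnf : normalizedFactors (G ^ 2 * F₀) = 2 • normalizedFactors G + normalizedFactors F₀ := by
    rw [normalizedFactors_mul (pow_ne_zero _ hG.ne_zero) hF.ne_zero, normalizedFactors_pow]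
  constructor
  · intro a hirr hGa
    have h1 : normalizedFactors (G ^ 2 * F₀) = Multiset.replicate (2 * a + 1) F₀ := by
      have h2 : normalizedFactors F₀ = {F₀} := by
        rw [normalizedFactors_irreducible hirr, hF.normalize_eq_self]
      rw [hnf, hGa, normalizedFactors_pow, h2, Multiset.nsmul_singleton, Multiset.nsmul_replicate,
        ← Multiset.replicate_one, ← Multiset.replicate_add]
    rw [ev_der, h1]
    have h3 : (Multiset.replicate (2 * a + 1) F₀).toFinset = {F₀} := by
      rw [Multiset.toFinset_replicate, if_neg (by omega)]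
    rw [h3, Finset.sum_singleton, Multiset.count_replicate_self]
    simp
  · intro hor
    rw [ev_der]
    refine Finset.sum_eq_zero fun P hP => ?_
    have hex : ∃ Q ∈ (normalizedFactors (G ^ 2 * F₀)).toFinset, Q ≠ P := by
      by_contra hno
      push Not at hno
      have hall : ∀ Q ∈ normalizedFactors (G ^ 2 * F₀), Q = P := fun Q hQ =>
        hno Q (Multiset.mem_toFinset.2 hQ)
      have hallF : ∀ Q ∈ normalizedFactors F₀, Q = P := fun Q hQ =>
        hall Q (by rw [hnf]; exact Multiset.mem_add.2 (Or.inr hQ))
      have hallG : ∀ Q ∈ normalizedFactors G, Q = P := fun Q hQ =>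
        hall Q (by rw [hnf]; exact Multiset.mem_add.2 (Or.inl (by
          rw [two_nsmul]; exact Multiset.mem_add.2 (Or.inl hQ))))
      have hrF := Multiset.eq_replicate_card.2 hallF
      have hrG := Multiset.eq_replicate_card.2 hallG
      have hnod : (normalizedFactors F₀).Nodup := (squarefree_iff_nodup_normalizedFactors hF.ne_zero).1 hsq
      have hcard : Multiset.card (normalizedFactors F₀) = 1 := by
        have hc1 : 0 < Multiset.card (normalizedFactors F₀) := Multiset.card_pos_iff_exists_mem.2 hFi
        have hc2 : Multiset.card (normalizedFactors F₀) ≤ 1 := by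
          have h6 := Multiset.nodup_iff_count_le_one.1 hnod P
          rw [hrF, Multiset.count_replicate_self] at h6
          exact h6
        omega
      have hFP : F₀ = P := by
        have h2 := ev_prod hF
        rw [hrF, hcard, Multiset.replicate_one, Multiset.prod_singleton] at h2
        exact h2.symm
      have hGP : G = F₀ ^ (Multiset.card (normalizedFactors G)) := by
        have h2 := ev_prod hG
        rw [hrG, Multiset.prod_replicate, ← hFP] at h2
        exact h2.symm
      have hirr : Irreducible F₀ := by
        obtain ⟨Q, hQ⟩ := hFi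
        have h3 := irreducible_of_normalized_factor Q hQ
        rw [hallF Q hQ, ← hFP] at h3
        exact h3
      rcases hor with h4 | h4
      · exact h4 hirr
      · exact h4 _ hGP
    obtain ⟨Q, hQ, hQP⟩ := hex
    have h5 : ∏ Q ∈ (normalizedFactors (G ^ 2 * F₀)).toFinset.erase P,
        (expand ℝ Q.natDegree (h Q ((normalizedFactors (G ^ 2 * F₀)).count Q))).eval 1 = 0 :=
      Finset.prod_eq_zero (Finset.mem_erase.2 ⟨hQP, hQ⟩) (ev_val h hv _ Q hQ)
    rw [h5, zero_mul]

end Pool.Agent.H525.EX.EV44
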