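import Mathlib
import Pool.Agent.H525.EX.Stm3

/-!
# Project EX (helper525): the derivative of the canonical solution in closed form
-/

namespace Pool.Agent.H525.EX

open Polynomial
open scoped Classical

theorem sm_anti {v : Arr} (h : ∀ n e : ℤ, v n (2 * n + 1 - e) = -v n e) (n : ℤ) : sm v n = 0 := by
  have h1 : sm v n = -sm v n := by
    conv_lhs => unfold sm
    rw [← Finset.sum_nbij' (s := Finset.Icc (-n) (3 * n + 1)) (t := Finset.Icc (-n) (3 * n + 1))
      (i := fun e => 2 * n + 1 - e) (j := fun e => 2 * n + 1 - e) (f := fun e => -v n e)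
      (g := fun e => v n e)]
    · rw [Finset.sum_neg_distrib]; rfl
    · intro a ha; simp only [Finset.mem_Icc] at ha ⊢; constructor <;> linarith [ha.1, ha.2]
    · intro a ha; simp only [Finset.mem_Icc] at ha ⊢; constructor <;> linarith [ha.1, ha.2]
    · intro a _; ring
    · intro a _; ring
    · intro a _
      rw [h n a]
  linarith

theorem sm_neg (v : Arr) (n : ℤ) (h : n < 0) : sm v n = 0 := by
  unfold sm
  rw [Finset.Icc_eq_empty (by omega), Finset.sum_empty]

theorem dv_neg (v : Arr) (n : ℤ) (h : n < 0) : dv v n = 0 := by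
  unfold dv
  rw [Finset.Icc_eq_empty (by omega), Finset.sum_empty, neg_zero]

/-- The closed form for the canonical solution of level `0`. -/
theorem closed (hhom : S_hom) (hexi : S_exi) (hc1 : S_c1) (hc2 : S_c2) (hd1 : S_d1) (hd2 : S_d2)
    (hr1 : S_r1) (hr2 : S_r2) (ε P : ℝ) (hε : ε = 1 ∨ ε = -1) (u v : Arr) (h : Sol 0 ε P u v) :
    (∀ n : ℤ, sm v n = 0) ∧ (∀ n : ℕ, dv v n = Cc ε P n) := by
  have hfam : ∀ s : ℕ, ∃ w : Arr × Arr, Sol s ε P w.1 w.2 ∧ (s = 0 → w = (u, v)) := by
    intro s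
    rcases Nat.eq_zero_or_pos s with rfl | hs
    · exact ⟨(u, v), h, fun _ => rfl⟩
    · obtain ⟨u', v', h'⟩ := hexi s ε P hε
      exact ⟨(u', v'), h', fun h0 => absurd h0 (by omega)⟩
  choose w hw hw0 using hfam
  have hv0 : (w 0).2 = v := by rw [hw0 0 rfl]
  rcases hε with rfl | rfl
  · constructor
    · refine sm_anti (fun n e => ?_)
      have := h.pre.va n e
      rw [one_zpow, one_mul] at this
      exact this
    · have := hr1 P (fun s n => dv (w s).2 n) (fun s n hn => dv_neg _ n hn) (fun s n => ?_)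
      · intro n
        have h1 := this n
        simp only [hv0] at h1
        exact h1
      · exact hd1 s P _ _ _ _ (hw s) (hw (s + 1)) (hc1 hhom s P _ _ _ _ (hw s) (hw (s + 1))) n
  · have key := fun s => hd2 s P _ _ _ _ (hw s) (hw (s + 1))
      (hc2 hhom s P _ _ _ _ (hw s) (hw (s + 1)))
    have hs0 : ∀ s n, sm (w s).2 n = 0 :=
      hr2.2 P (fun s n => sm (w s).2 n) (fun s n hn => sm_neg _ n hn) (fun s n => (key s).1 n)
    constructor
    · intro n
      rw [← hv0]
      exact hs0 0 n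
    · have := hr2.1 P (fun s n => dv (w s).2 n) (fun s n hn => dv_neg _ n hn)
        (fun s n => (key s).2 (hs0 s) (hs0 (s + 1)) n)
      intro n
      have h1 := this n
      simp only [hv0] at h1
      exact h1

theorem ca_sol (hexi : S_exi) (ε P : ℝ) (hε : ε = 1 ∨ ε = -1) :
    Sol 0 ε P (ca ε P).1 (ca ε P).2 := by
  have h : ∃ w : Arr × Arr, Sol 0 ε P w.1 w.2 := by
    obtain ⟨u, v, h⟩ := hexi 0 ε P hε
    exact ⟨(u, v), h⟩
  unfold ca
  rw [dif_pos h]
  exact h.choose_spec

end Pool.Agent.H525.EX
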