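import Mathlib
import Pool.Agent.H525.EX.Closed

/-!
# Project EX (helper525): the global identity
-/

namespace Pool.Agent.H525.EX

open Polynomial
open Pool.Agent.H525.QF
open Pool.Agent.H985.Chow (mob)
open scoped Classical

section

variable {K : Type} [Field K] [Fintype K]

theorem sgn_pow (κ d : ℕ) : ((-1 : ℝ) ^ κ) ^ d = 1 ∨ ((-1 : ℝ) ^ κ) ^ d = -1 := by
  rw [← pow_mul]
  exact neg_one_pow_eq_or ℝ _

/-- The local data. -/
noncomputable def hh (K : Type) [Field K] [Fintype K] (κ : ℕ) (P : K[X]) (m : ℕ) : ℝ[X] :=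
  H (((-1) ^ κ) ^ P.natDegree) ((Fintype.card K : ℝ) ^ P.natDegree) m

noncomputable def ss (K : Type) [Field K] [Fintype K] (κ : ℕ) (P : K[X]) (ι i k : ℕ) : ℝ :=
  SS (((-1) ^ κ) ^ P.natDegree) ((Fintype.card K : ℝ) ^ P.natDegree) ι i k

/-- All the statements of the tasks. -/
structure All : Prop where
  hom : S_hom
  exi : S_exi
  c1 : S_c1
  c2 : S_c2
  d1 : S_d1
  d2 : S_d2
  r1 : S_r1
  r2 : S_r2
  loc : S_loc
  lex : S_lex
  exp : S_exp
  lat : S_lat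
  lat' : S_lat'
  ref : S_ref
  ev : S_ev
  sym : S_sym
  gb : S_gb
  ga : S_ga
  gn : S_gn
  gd : S_gd
  par : S_par

theorem cardpos : (0 : ℝ) < (Fintype.card K : ℝ) := by
  exact_mod_cast Fintype.card_pos

theorem hypE (a : All) (κ : ℕ) : HypE (hh K κ) (ss K κ) := by
  have hq : (0 : ℝ) < (Fintype.card K : ℝ) := cardpos
  have key := fun P : K[X] => a.lex (((-1) ^ κ) ^ P.natDegree) ((Fintype.card K : ℝ) ^ P.natDegree)
    (sgn_pow κ P.natDegree) (pow_pos hq _) (ca_sol a.exi _ _ (sgn_pow κ P.natDegree))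
  exact ⟨fun P m => (key P).1 m, fun P => (key P).2.1, fun P => (key P).2.2.1,
    fun P => (key P).2.2.2⟩

theorem locP (a : All) (ε Q : ℝ) (hε : ε = 1 ∨ ε = -1) (hQ : 0 < Q) :
    H ε Q 0 = 1 ∧
    (∀ m, (H ε Q m).natDegree ≤ 4 * (m / 2) + m % 2 ∧
      (H ε Q m).reflect (4 * (m / 2) + m % 2) = C ((-1) ^ (m % 2) * ε ^ (m / 2)) * H ε Q m) ∧
    (∀ m, 1 ≤ m → (H ε Q m).eval 1 = 0) ∧
    (∀ a, (derivative (H ε Q (2 * a + 1))).eval 1 = -(Q ^ a * Cc ε Q⁻¹ a)) := by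
  have hc := closed a.hom a.exi a.c1 a.c2 a.d1 a.d2 a.r1 a.r2 _ _ hε _ _ (ca_sol a.exi ε Q⁻¹ hε)
  exact a.loc ε Q hε hQ (ca_sol a.exi _ _ hε) hc.1 hc.2

theorem hypR (a : All) (κ : ℕ) : HypR (K := K) ((-1) ^ κ) (hh K κ) :=
  fun P m => (locP a _ _ (sgn_pow κ P.natDegree) (pow_pos cardpos _)).2.1 m

theorem hypV (a : All) (κ : ℕ) : HypV (hh K κ) :=
  ⟨fun P => (locP a _ _ (sgn_pow κ P.natDegree) (pow_pos cardpos _)).1,
    fun P m hm => (locP a _ _ (sgn_pow κ P.natDegree) (pow_pos cardpos _)).2.2.1 m hm⟩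

/-- The values of the derivatives. -/
noncomputable def rho (K : Type) [Field K] [Fintype K] (κ d b : ℕ) : ℝ :=
  -(((Fintype.card K : ℝ) ^ d) ^ b * Cc (((-1) ^ κ) ^ d) ((Fintype.card K : ℝ) ^ d)⁻¹ b)

theorem der (a : All) (κ : ℕ) (P : K[X]) (b : ℕ) :
    (derivative (hh K κ P (2 * b + 1))).eval 1 = rho K κ P.natDegree b :=
  (locP a _ _ (sgn_pow κ P.natDegree) (pow_pos cardpos _)).2.2.2 b

theorem glob_sol (a : All) [CharP K 2] (κ : ℕ) (hκ : Fintype.card K = 2 ^ κ) :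
    Sol 0 ((-1) ^ κ) (Fintype.card K : ℝ) (gII (hh K κ)) (gI (hh K κ)) := by
  obtain ⟨hA, hB⟩ := a.gb a.exp a.lat a.lat' a.sym K (hh K κ) (ss K κ) (hypE a κ)
  obtain ⟨hu, hv⟩ := a.ga a.ref a.par K κ hκ (hh K κ) (hypR a κ)
  refine ⟨⟨?_, ?_, ?_, ?_, hu, hv, ?_, hB⟩, a.gn a.ref a.ev a.par K κ hκ (hh K κ) (hypR a κ)
    (hypV a κ)⟩
  · intro n e hn
    unfold gII; rw [if_neg (by omega)]
  · intro n e hn
    unfold gI; rw [if_neg (by omega)]
  · intro n e hn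
    unfold gII; rw [if_neg (by omega)]
  · intro n e hn
    unfold gI; rw [if_neg (by omega)]
  · intro n e
    have := hA n e
    simpa using this

theorem sum_GI (h : K[X] → ℕ → ℝ[X]) (n : ℕ) (hs : sm (gI h) n = 0) :
    ∑ k ∈ Finset.range (4 * n + 2), (k : ℝ) * GI h n k =
      -((Fintype.card K : ℝ) ^ (n + 1) * dv (gI h) n) := by
  have hq : (0 : ℝ) < (Fintype.card K : ℝ) := cardpos
  have hq0 : (Fintype.card K : ℝ) ^ (n + 1) ≠ 0 := (pow_pos hq _).ne'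
  have tr : ∀ f : ℤ → ℝ, ∑ e ∈ Finset.Icc (-(n : ℤ)) (3 * n + 1), f e =
      ∑ k ∈ Finset.range (4 * n + 2), f ((k : ℤ) - n) := by
    intro f
    symm
    refine Finset.sum_nbij' (fun k : ℕ => (k : ℤ) - n) (fun e : ℤ => (e + n).toNat) ?_ ?_ ?_ ?_ ?_
    · intro k hk
      simp only [Finset.mem_range, Finset.mem_Icc] at hk ⊢
      omega
    · intro e he
      simp only [Finset.mem_range, Finset.mem_Icc] at he ⊢
      omega
    · intro k _
      simp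
    · intro e he
      simp only [Finset.mem_Icc] at he
      omega
    · intro k _
      rfl
  have hg : ∀ k : ℕ, gI h (n : ℤ) ((k : ℤ) - n) =
      ((Fintype.card K : ℝ) ^ (n + 1))⁻¹ * GI h n k := by
    intro k
    unfold gI
    rw [if_pos (by omega)]
    have : ((n : ℤ) + ((k : ℤ) - n)).toNat = k := by omega
    rw [this]
    simp
  unfold sm at hs
  rw [tr] at hs
  unfold dv
  rw [tr]
  have h1 : ∑ k ∈ Finset.range (4 * n + 2), GI h n k = 0 := by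
    have : ∑ k ∈ Finset.range (4 * n + 2), gI h (n : ℤ) ((k : ℤ) - n) =
        ((Fintype.card K : ℝ) ^ (n + 1))⁻¹ * ∑ k ∈ Finset.range (4 * n + 2), GI h n k := by
      rw [Finset.mul_sum]
      exact Finset.sum_congr rfl (fun k _ => hg k)
    rw [this] at hs
    exact (mul_eq_zero.1 hs).resolve_left (inv_ne_zero hq0)
  have h2 : ∑ k ∈ Finset.range (4 * n + 2), (((k : ℤ) - n : ℤ) : ℝ) *
      gI h (n : ℤ) ((k : ℤ) - n) = ((Fintype.card K : ℝ) ^ (n + 1))⁻¹ *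
        ∑ k ∈ Finset.range (4 * n + 2), (k : ℝ) * GI h n k := by
    have : ∀ k ∈ Finset.range (4 * n + 2), (((k : ℤ) - n : ℤ) : ℝ) *
      gI h (n : ℤ) ((k : ℤ) - n) = ((Fintype.card K : ℝ) ^ (n + 1))⁻¹ * ((k : ℝ) * GI h n k) -
        ((Fintype.card K : ℝ) ^ (n + 1))⁻¹ * n * GI h n k := by
      intro k _
      rw [hg]
      push_cast
      ring
    rw [Finset.sum_congr rfl this, Finset.sum_sub_distrib, ← Finset.mul_sum, ← Finset.mul_sum, h1]
    ring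
  rw [h2]
  field_simp

/-- The identity in terms of `Cc`. -/
theorem glob (a : All) [CharP K 2] (κ : ℕ) (hκ : Fintype.card K = 2 ^ κ) (n : ℕ) :
    ∑ m ∈ Finset.range (n + 1), (if (4 * m + 1) ∣ (4 * n + 1) then
        (pri K m : ℝ) * (4 * m + 1) * (((Fintype.card K : ℝ) ^ (4 * m + 1)) ^
          (((4 * n + 1) / (4 * m + 1) - 1) / 4) *
          Cc (((-1) ^ κ) ^ (4 * m + 1)) ((Fintype.card K : ℝ) ^ (4 * m + 1))⁻¹
            (((4 * n + 1) / (4 * m + 1) - 1) / 4)) else 0) =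
      (Fintype.card K : ℝ) ^ (n + 1) * Cc ((-1) ^ κ) (Fintype.card K : ℝ) n := by
  have hsol := glob_sol a κ hκ
  have hε : ((-1 : ℝ) ^ κ) = 1 ∨ ((-1 : ℝ) ^ κ) = -1 := neg_one_pow_eq_or ℝ _
  obtain ⟨hs, hd⟩ := closed a.hom a.exi a.c1 a.c2 a.d1 a.d2 a.r1 a.r2 _ _ hε _ _ hsol
  have h1 := sum_GI (hh K κ) n (hs n)
  rw [hd n, a.gd a.ref a.ev a.par K κ hκ (hh K κ) (rho K κ) (hypR a κ) (hypV a κ) (der a κ) n] at h1
  rw [← neg_inj, ← h1, ← Finset.sum_neg_distrib]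
  refine Finset.sum_congr rfl (fun m _ => ?_)
  unfold rho
  split_ifs <;> ring

end

end Pool.Agent.H525.EX
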