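import Mathlib
import Pool.Agent.H525.EX.Global
import Pool.Agent.H525.QF.Fin3
import Pool.Agent.H870.QF.LAM

/-!
# Project EX (helper525): the exact formula
-/

namespace Pool.Agent.H525.EX

open Polynomial
open Pool.Agent.H525.QF
open Pool.Agent.H985.Chow (mob)
open scoped Classical

section

variable {K : Type} [Field K] [Fintype K]

theorem quot_mod {n m : ℕ} (h : (4 * m + 1) ∣ (4 * n + 1)) :
    4 * (((4 * n + 1) / (4 * m + 1) - 1) / 4) + 1 = (4 * n + 1) / (4 * m + 1) := by
  obtain ⟨c, hc⟩ := h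
  have h1 : (4 * n + 1) / (4 * m + 1) = c := by
    rw [hc]; exact Nat.mul_div_cancel_left c (by omega)
  rw [h1]
  have h2 : c % 4 = 1 := by
    have h3 : 4 * n + 1 = 4 * (m * c) + c := by rw [hc]; ring
    generalize m * c = t at h3
    omega
  omega

theorem ident (a : All) (hcd : S_cdiv) [CharP K 2] (κ : ℕ) (hκ : Fintype.card K = 2 ^ κ) (n : ℕ) :
    Ident κ (pri K) n := by
  have h := glob a κ hκ n
  have hcard : (Fintype.card K : ℝ) = 2 ^ κ := by rw [hκ]; push_cast; rfl
  rw [hcard, ← (hcd κ n (2 ^ κ) (by positivity)).1, ← Finset.sum_filter] at h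
  have hR : (((∑ f ∈ (4 * n + 1).divisors with f % 4 = 1, (f : ℤ) * (pri K ((f - 1) / 4) : ℤ) *
      ∑ d ∈ ((4 * n + 1) / f).divisors, jacobiSym (-(2 : ℤ) ^ κ) d *
        ((2 : ℤ) ^ κ) ^ (f * ((d - 1) * ((4 * n + 1) / f / d - 1) / 4)) : ℤ)) : ℝ) =
    ((∑ d ∈ (4 * n + 1).divisors, jacobiSym (-(2 : ℤ) ^ κ) d *
      ((2 : ℤ) ^ κ) ^ ((d + 1) * ((4 * n + 1) / d + 1) / 4) : ℤ) : ℝ) := by
    push_cast
    rw [← h]
    symm
    refine Finset.sum_nbij' (fun m => 4 * m + 1) (fun f => (f - 1) / 4) ?_ ?_ ?_ ?_ ?_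
    · intro m hm
      simp only [Finset.mem_filter, Finset.mem_range, Nat.mem_divisors] at hm ⊢
      exact ⟨⟨hm.2, by omega⟩, by omega⟩
    · intro f hf
      simp only [Finset.mem_filter, Finset.mem_range, Nat.mem_divisors] at hf ⊢
      have h1 : 4 * ((f - 1) / 4) + 1 = f := by omega
      rw [h1]
      have h2 := Nat.le_of_dvd (by omega) hf.1.1
      exact ⟨by omega, hf.1.1⟩
    · intro m _
      simp
    · intro f hf
      simp only [Finset.mem_filter] at hf
      show 4 * ((f - 1) / 4) + 1 = f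
      omega
    · intro m hm
      simp only [Finset.mem_filter, Finset.mem_range] at hm
      have hb := quot_mod hm.2
      have h3 : (4 * m + 1 - 1) / 4 = m := by omega
      have h4 : (((-1 : ℝ) ^ κ) ^ (4 * m + 1)) = (-1) ^ κ := by
        rw [← pow_mul, show κ * (4 * m + 1) = 2 * (κ * (2 * m)) + κ by ring, pow_add, pow_mul]
        norm_num
      have h5 := (hcd κ (((4 * n + 1) / (4 * m + 1) - 1) / 4) (((2 : ℝ) ^ κ) ^ (4 * m + 1))
        (by positivity)).2
      rw [hb] at h5
      rw [h3, h4, ← h5]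
      push_cast
      have h6 : ∀ d : ℕ, (((2 : ℝ) ^ κ) ^ (4 * m + 1)) ^
          ((d - 1) * ((4 * n + 1) / (4 * m + 1) / d - 1) / 4) = ((2 : ℝ) ^ κ) ^ ((4 * m + 1) *
          ((d - 1) * ((4 * n + 1) / (4 * m + 1) / d - 1) / 4)) := by
        intro d
        rw [← pow_mul]
      simp only [h6]
      ring
  unfold Ident
  exact_mod_cast hR

theorem pri_le (m : ℕ) : pri K m ≤ Fintype.card K ^ (2 * m + 1) := by
  unfold pri
  refine (Finset.card_filter_le _ _).trans ?_
  rw [Finset.card_product, card_lt, card_mon, ← pow_add]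
  exact le_of_eq (by congr 1; ring)

theorem pri_zero [CharP K 2] : pri K 0 = Fintype.card K := by
  unfold pri
  rw [Finset.filter_true_of_mem, Finset.card_product, card_lt, card_mon]
  · ring
  · intro v hv
    rw [Finset.mem_product, mon_zero, Finset.mem_singleton, mem_lt] at hv
    have h1 : v.1.degree ≤ 0 := by
      by_cases h0 : v.1 = 0
      · rw [h0, degree_zero]; exact bot_le
      · rw [degree_eq_natDegree h0] at hv ⊢
        have h1' : v.1.natDegree < 0 + 1 := by exact_mod_cast hv.1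
        exact_mod_cast Nat.lt_succ_iff.1 h1'
    obtain ⟨c, hc⟩ : ∃ c, v.1 = C c := ⟨_, eq_C_of_degree_le_zero h1⟩
    have h2 : F v = X + C (c ^ 4) := by
      unfold F
      rw [hv.2, hc, map_pow]
      ring
    rw [h2]
    exact irreducible_of_degree_eq_one (degree_X_add_C _)

theorem pri_odd (hpar : S_par) [CharP K 2] (κ : ℕ) (hκ : Fintype.card K = 2 ^ κ) (n : ℕ)
    (ho : ¬ Even (κ * n)) : pri K n = 0 := by
  unfold pri
  rw [Finset.card_eq_zero, Finset.filter_eq_empty_iff]
  intro v hv hirr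
  rw [Finset.mem_product] at hv
  have h1 := (hpar K κ hκ n v (coprime_of_irreducible hirr)).1 hv.1 hv.2
  have h2 : mob (F v) = -1 := Pool.Agent.H870.QF.mob_irr hirr
  rw [h2, Odd.neg_one_pow (Nat.not_even_iff_odd.1 ho)] at h1
  norm_num at h1

end

end Pool.Agent.H525.EX
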