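import Mathlib
import Pool.Agent.H525.EX.Final
import Pool.Agent.H525.EX.Stm4

/-!
# Project EX (helper525): the primes of the form `x ^ 4 + X y ^ 4` as a set of polynomials
-/

namespace Pool.Agent.H525.EX

open Polynomial
open Pool.Agent.H525.QF
open scoped Classical

section

variable {K : Type} [Field K] [Fintype K] [CharP K 2]

/-- The degree of `x ^ 4 + X y ^ 4`: the two degrees are different. -/
theorem deg_cases (v : K[X] × K[X]) (hv : F v ≠ 0) :
    ((F v).natDegree = 4 * v.1.natDegree ∧ v.2.degree < v.1.degree ∧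
      (F v).leadingCoeff = v.1.leadingCoeff ^ 4) ∨
    ((F v).natDegree = 4 * v.2.natDegree + 1 ∧ v.1.degree ≤ v.2.degree ∧ v.2 ≠ 0 ∧
      (F v).leadingCoeff = v.2.leadingCoeff ^ 4) := by
  rcases lt_or_ge v.2.degree v.1.degree with h | h
  · left
    have h1 : v.1 ≠ 0 := by
      rintro h0
      rw [h0, degree_zero] at h
      exact absurd h (not_lt_bot)
    have hlt : (X * v.2 ^ 4).degree < (v.1 ^ 4).degree := by
      by_cases h2 : v.2 = 0
      · rw [h2, zero_pow (by norm_num), mul_zero, degree_zero, bot_lt_iff_ne_bot]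
        intro h3
        exact h1 (pow_eq_zero_iff (by norm_num) |>.1 (degree_eq_bot.1 h3))
      · rw [degree_eq_natDegree h2, degree_eq_natDegree h1] at h
        have h' : v.2.natDegree < v.1.natDegree := by exact_mod_cast h
        rw [degree_eq_natDegree (mul_ne_zero X_ne_zero (pow_ne_zero _ h2)),
          degree_eq_natDegree (pow_ne_zero _ h1), natDegree_mul X_ne_zero (pow_ne_zero _ h2),
          natDegree_X, natDegree_pow, natDegree_pow]
        have : 1 + 4 * v.2.natDegree < 4 * v.1.natDegree := by omega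
        exact_mod_cast this
    refine ⟨?_, h, ?_⟩
    · unfold F
      rw [natDegree_add_eq_left_of_degree_lt hlt, natDegree_pow]
    · unfold F
      rw [leadingCoeff_add_of_degree_lt' hlt, leadingCoeff_pow]
  · right
    have h2 : v.2 ≠ 0 := by
      intro h0
      rw [h0, degree_zero, le_bot_iff, degree_eq_bot] at h
      apply hv
      unfold F
      rw [h, h0]
      simp
    have hlt : (v.1 ^ 4).degree < (X * v.2 ^ 4).degree := by
      by_cases h1 : v.1 = 0
      · rw [h1, zero_pow (by norm_num), degree_zero, bot_lt_iff_ne_bot]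
        intro h3
        exact (mul_ne_zero X_ne_zero (pow_ne_zero _ h2)) (degree_eq_bot.1 h3)
      · rw [degree_eq_natDegree h2, degree_eq_natDegree h1] at h
        have h' : v.1.natDegree ≤ v.2.natDegree := by exact_mod_cast h
        rw [degree_eq_natDegree (mul_ne_zero X_ne_zero (pow_ne_zero _ h2)),
          degree_eq_natDegree (pow_ne_zero _ h1), natDegree_mul X_ne_zero (pow_ne_zero _ h2),
          natDegree_X, natDegree_pow, natDegree_pow]
        have : 4 * v.1.natDegree < 1 + 4 * v.2.natDegree := by omega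
        exact_mod_cast this
    refine ⟨?_, h, h2, ?_⟩
    · unfold F
      rw [natDegree_add_eq_right_of_degree_lt hlt, natDegree_mul X_ne_zero (pow_ne_zero _ h2),
        natDegree_X, natDegree_pow]
      ring
    · unfold F
      rw [leadingCoeff_add_of_degree_lt hlt, leadingCoeff_mul, leadingCoeff_X, leadingCoeff_pow,
        one_mul]

theorem F_inj : Function.Injective (F : K[X] × K[X] → K[X]) := by
  intro v w h
  haveI : CharP K[X] 2 := inferInstance
  have h1 : F (v.1 - w.1, v.2 - w.2) = 0 := by
    have e : ∀ a b : K[X], (a - b) ^ 4 = a ^ 4 - b ^ 4 := by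
      intro a b
      have := sub_pow_char_pow (R := K[X]) (p := 2) (n := 2) a b
      simpa using this
    unfold F at h ⊢
    simp only
    rw [e, e]
    linear_combination h
  by_cases hz : v.1 - w.1 = 0 ∧ v.2 - w.2 = 0
  · exact Prod.ext (sub_eq_zero.1 hz.1) (sub_eq_zero.1 hz.2)
  · exfalso
    unfold F at h1
    simp only at h1
    rcases not_and_or.1 hz with h2 | h2
    · have h3 : (v.1 - w.1) ^ 4 = -(X * (v.2 - w.2) ^ 4) := by linear_combination h1
      have h4 : v.2 - w.2 ≠ 0 := by
        intro h5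
        rw [h5, zero_pow (by norm_num), mul_zero, neg_zero] at h3
        exact h2 (pow_eq_zero_iff (by norm_num) |>.1 h3)
      have h5 := congrArg natDegree h3
      rw [natDegree_neg, natDegree_mul X_ne_zero (pow_ne_zero _ h4), natDegree_X, natDegree_pow,
        natDegree_pow] at h5
      omega
    · have h3 : (v.1 - w.1) ^ 4 = -(X * (v.2 - w.2) ^ 4) := by linear_combination h1
      have h5 := congrArg natDegree h3
      rw [natDegree_neg, natDegree_mul X_ne_zero (pow_ne_zero _ h2), natDegree_X, natDegree_pow,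
        natDegree_pow] at h5
      omega

theorem pow4_eq_one {c : K} (h : c ^ 4 = 1) : c = 1 := by
  haveI : CharP K 2 := inferInstance
  have e : (c - 1) ^ 4 = c ^ 4 - 1 ^ 4 := by
    have := sub_pow_char_pow (R := K) (p := 2) (n := 2) c 1
    simpa using this
  rw [h, one_pow, sub_self] at e
  exact sub_eq_zero.1 (pow_eq_zero_iff (by norm_num) |>.1 e)

/-- The primes of degree `N` of the form `x ^ 4 + X y ^ 4`. -/
def PF (K : Type) [Field K] (N : ℕ) : Set K[X] :=
  {f | f.Monic ∧ Irreducible f ∧ f.natDegree = N ∧ ∃ x y : K[X], f = x ^ 4 + X * y ^ 4}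

theorem ncard_one (n : ℕ) : (PF K (4 * n + 1)).ncard = pri K n := by
  unfold pri
  rw [← Set.ncard_coe_finset, ← Set.ncard_image_of_injective _ F_inj]
  congr 1
  ext f
  simp only [PF, Set.mem_setOf_eq, Set.mem_image, Finset.coe_filter, Finset.mem_product, mem_lt,
    mem_mon]
  constructor
  · rintro ⟨hm, hi, hd, x, y, rfl⟩
    refine ⟨(x, y), ⟨⟨?_, ?_, ?_⟩, hi⟩, rfl⟩
    all_goals
      rcases deg_cases (x, y) hi.ne_zero with ⟨h1, h2, h3⟩ | ⟨h1, h2, h3, h4⟩
      · have h5 : (x ^ 4 + X * y ^ 4).natDegree = 4 * x.natDegree := h1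
        omega
      have h5 : (x ^ 4 + X * y ^ 4).natDegree = 4 * y.natDegree + 1 := h1
      have h6 : y.natDegree = n := by omega
    · refine lt_of_le_of_lt h2 ?_
      show y.degree < _
      rw [degree_eq_natDegree h3, h6]
      exact_mod_cast Nat.lt_succ_self n
    · have h7 : (x ^ 4 + X * y ^ 4).leadingCoeff = y.leadingCoeff ^ 4 := h4
      rw [hm.leadingCoeff] at h7
      exact pow4_eq_one h7.symm
    · exact h6
  · rintro ⟨v, ⟨⟨h1, h2, h3⟩, h4⟩, rfl⟩
    obtain ⟨hm, hd⟩ := natDegree_F (n := n) (v := v) (mem_lt.2 h1) (mem_mon.2 ⟨h2, h3⟩)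
    exact ⟨hm, h4, hd, v.1, v.2, rfl⟩

end

end Pool.Agent.H525.EX
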