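import Mathlib
import Pool.Agent.H525.EX.Conv

/-!
# Project EX (helper525): the values `x ^ 4 + X y ^ 4` are the polynomials whose coefficients of
`X ^ i`, `i` congruent to `2` or `3` modulo `4`, vanish
-/

namespace Pool.Agent.H525.EX

open Polynomial
open scoped Classical

section

variable {K : Type} [Field K] [Fintype K] [CharP K 2]

theorem pow4_coeff (x : K[X]) (i : ℕ) :
    (x ^ 4).coeff i = if 4 ∣ i then x.coeff (i / 4) ^ 4 else 0 := by
  have e1 : ∀ z : K[X], z ^ 2 = expand K 2 (z.map (frobenius K 2)) := by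
    intro z
    rw [← map_expand, map_frobenius_expand]
  have e2 : ∀ (z : K[X]) (i : ℕ), (z ^ 2).coeff i = if 2 ∣ i then z.coeff (i / 2) ^ 2 else 0 := by
    intro z i
    rw [e1, coeff_expand (by norm_num)]
    split_ifs
    · rw [coeff_map, frobenius_def]
    · rfl
  have e3 : x ^ 4 = (x ^ 2) ^ 2 := by ring
  rw [e3, e2]
  by_cases h : 4 ∣ i
  · rw [if_pos h, if_pos (by omega), e2, if_pos (by omega), Nat.div_div_eq_div_mul]
    ring
  · rw [if_neg h]
    split_ifs with h2
    · rw [e2, if_neg (by omega)]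
      ring
    · rfl

theorem root4 (c : K) : ∃ d : K, d ^ 4 = c := by
  obtain ⟨a, ha⟩ := (bijective_frobenius K 2).2 c
  obtain ⟨b, hb⟩ := (bijective_frobenius K 2).2 a
  refine ⟨b, ?_⟩
  rw [frobenius_def] at ha hb
  rw [← ha, ← hb]
  ring

theorem digits (f : K[X]) : (∀ i : ℕ, 2 ≤ i % 4 → f.coeff i = 0) ↔
    ∃ x y : K[X], f = x ^ 4 + X * y ^ 4 := by
  constructor
  · intro h
    choose r hr using (root4 (K := K))
    have hr0 : r 0 = 0 := by
      have := hr 0
      exact pow_eq_zero_iff (by norm_num) |>.1 this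
    let x : K[X] := ∑ i ∈ Finset.range (f.natDegree + 1), C (r (f.coeff (4 * i))) * X ^ i
    let y : K[X] := ∑ i ∈ Finset.range (f.natDegree + 1), C (r (f.coeff (4 * i + 1))) * X ^ i
    have hx : ∀ j, x.coeff j = r (f.coeff (4 * j)) := by
      intro j
      simp only [x, finsetSum_coeff, coeff_C_mul_X_pow]
      rw [Finset.sum_ite_eq]
      split_ifs with hj
      · rfl
      · rw [Finset.mem_range, not_lt] at hj
        rw [coeff_eq_zero_of_natDegree_lt (by omega), hr0]
    have hy : ∀ j, y.coeff j = r (f.coeff (4 * j + 1)) := by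
      intro j
      simp only [y, finsetSum_coeff, coeff_C_mul_X_pow]
      rw [Finset.sum_ite_eq]
      split_ifs with hj
      · rfl
      · rw [Finset.mem_range, not_lt] at hj
        rw [coeff_eq_zero_of_natDegree_lt (by omega), hr0]
    refine ⟨x, y, ?_⟩
    ext i
    rw [coeff_add, pow4_coeff]
    have h4 : i = 4 * (i / 4) + i % 4 := by omega
    rcases Nat.eq_zero_or_pos i with hi | hi
    · subst hi
      rw [if_pos (dvd_zero 4), mul_coeff_zero, coeff_X_zero, zero_mul, add_zero, hx, hr]
    · obtain ⟨j, rfl⟩ : ∃ j, i = j + 1 := ⟨i - 1, by omega⟩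
      rw [coeff_X_mul, pow4_coeff]
      have hlt : (j + 1) % 4 < 4 := Nat.mod_lt _ (by norm_num)
      interval_cases hm : (j + 1) % 4
      · rw [if_pos (by omega), if_neg (by omega), add_zero, hx, hr]
        exact congrArg f.coeff (by omega)
      · rw [if_neg (by omega), if_pos (by omega), zero_add, hy, hr]
        exact congrArg f.coeff (by omega)
      · rw [if_neg (by omega), if_neg (by omega), add_zero]
        exact h _ (by omega)
      · rw [if_neg (by omega), if_neg (by omega), add_zero]
        exact h _ (by omega)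
  · rintro ⟨x, y, rfl⟩ i hi
    rw [coeff_add, pow4_coeff, if_neg (by omega), zero_add]
    obtain ⟨j, rfl⟩ : ∃ j, i = j + 1 := ⟨i - 1, by omega⟩
    rw [coeff_X_mul, pow4_coeff, if_neg (by omega)]

end

end Pool.Agent.H525.EX
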