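import Mathlib
import Pool.Agent.H525.EX.Final
import Pool.Agent.H525.EX.Stm4

/-!
# Project EX (helper525): the exact formula for the values of degree `4 n`
-/

namespace Pool.Agent.H525.EX

open Polynomial
open Pool.Agent.H525.QF
open Pool.Agent.H985.Chow (mob)
open scoped Classical

/-- The statements of the tasks for the second kind. -/
structure All2 : Prop where
  all : All
  cdiv : S_cdiv
  c3 : S_c3
  d3 : S_d3
  low : S_low
  r3 : S_r3
  loc2 : S_loc2
  ev2 : S_ev2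
  gd2 : S_gd2
  nec : S_nec

theorem du_sym {u : Arr} {n : ℤ} (h : ∀ e : ℤ, u n (2 * n - e) = u n e)
    (h0 : ∀ e : ℤ, e < -n → u n e = 0) : du u n = n * sm u n := by
  have h1 : u n (3 * n + 1) = 0 := by
    have := h (-n - 1)
    rw [h0 (-n - 1) (by omega)] at this
    rw [← this]
    congr 1
    ring
  by_cases hn : 0 ≤ n
  · have hI : Finset.Icc (-n) (3 * n + 1) = insert (3 * n + 1) (Finset.Icc (-n) (3 * n)) := by
      ext e
      simp only [Finset.mem_Icc, Finset.mem_insert]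
      omega
    have hnot : (3 * n + 1) ∉ Finset.Icc (-n) (3 * n) := by
      simp only [Finset.mem_Icc]
      omega
    have e1 : du u n = ∑ e ∈ Finset.Icc (-n) (3 * n), (e : ℝ) * u n e := by
      unfold du
      rw [hI, Finset.sum_insert hnot, h1, mul_zero, zero_add]
    have e2 : sm u n = ∑ e ∈ Finset.Icc (-n) (3 * n), u n e := by
      unfold sm
      rw [hI, Finset.sum_insert hnot, h1, zero_add]
    have e3 : ∑ e ∈ Finset.Icc (-n) (3 * n), (e : ℝ) * u n e =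
        ∑ e ∈ Finset.Icc (-n) (3 * n), (2 * (n : ℝ) - e) * u n e := by
      refine Finset.sum_nbij' (fun e => 2 * n - e) (fun e => 2 * n - e) ?_ ?_ ?_ ?_ ?_
      · intro e he
        simp only [Finset.mem_Icc] at he ⊢
        omega
      · intro e he
        simp only [Finset.mem_Icc] at he ⊢
        omega
      · intro e _
        ring
      · intro e _
        ring
      · intro e _
        rw [h e]
        push_cast
        ring
    have e4 : ∑ e ∈ Finset.Icc (-n) (3 * n), (2 * (n : ℝ) - e) * u n e =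
        2 * n * (∑ e ∈ Finset.Icc (-n) (3 * n), u n e) -
          ∑ e ∈ Finset.Icc (-n) (3 * n), (e : ℝ) * u n e := by
      rw [Finset.mul_sum, ← Finset.sum_sub_distrib]
      exact Finset.sum_congr rfl (fun e _ => by ring)
    rw [e1, e2]
    linarith
  · have hI : Finset.Icc (-n) (3 * n + 1) = ∅ := Finset.Icc_eq_empty (by omega)
    unfold du sm
    rw [hI, Finset.sum_empty, Finset.sum_empty, mul_zero]

theorem closed2 (a : All2) (P : ℝ) (hP : P ≠ 0) (u v : Arr) (h : Sol 0 (-1) P u v) (n : ℕ) :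
    du u n = Dc P n := by
  have hfam : ∀ s : ℕ, ∃ w : Arr × Arr, Sol s (-1) P w.1 w.2 ∧ (s = 0 → w = (u, v)) := by
    intro s
    rcases Nat.eq_zero_or_pos s with rfl | hs
    · exact ⟨(u, v), h, fun _ => rfl⟩
    · obtain ⟨u', v', h'⟩ := a.all.exi s (-1) P (Or.inr rfl)
      exact ⟨(u', v'), h', fun h0 => absurd h0 (by omega)⟩
  choose w hw hw0 using hfam
  have hu0 : (w 0).1 = u := by rw [hw0 0 rfl]
  have key := fun s => a.all.d2 s P _ _ _ _ (hw s) (hw (s + 1))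
    (a.all.c2 a.all.hom s P _ _ _ _ (hw s) (hw (s + 1)))
  have hs0 : ∀ s n, sm (w s).2 n = 0 :=
    a.all.r2.2 P (fun s n => sm (w s).2 n) (fun s n hn => sm_neg _ n hn) (fun s n => (key s).1 n)
  have := a.r3 P (fun s n => du (w s).1 n) (fun s n hn => a.low s (-1) P _ _ (hw s) n hn)
    (fun s n => a.d3 s P _ _ _ _ (hw s) (hw (s + 1)) (hs0 s)
      (a.c3 a.all.hom s P _ _ _ _ hP (hw s) (hw (s + 1))) n) n
  simp only [hu0] at this
  exact this

section

variable {K : Type} [Field K] [Fintype K]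

/-- The values of the derivatives for even exponents. -/
noncomputable def sig (K : Type) [Field K] [Fintype K] (κ d b : ℕ) : ℝ :=
  ((Fintype.card K : ℝ) ^ d) ^ b * du (ca (((-1) ^ κ) ^ d) ((Fintype.card K : ℝ) ^ d)⁻¹).1 b

theorem der2 (a : All2) (κ : ℕ) (P : K[X]) (b : ℕ) :
    (derivative (hh K κ P (2 * b))).eval 1 = sig K κ P.natDegree b :=
  a.loc2 _ _ (pow_pos cardpos _) (ca_sol a.all.exi _ _ (sgn_pow κ P.natDegree)) b

theorem sig_eq (a : All2) {κ d b : ℕ} (hκ : Odd κ) (hd : Odd d) :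
    sig K κ d b = ((Fintype.card K : ℝ) ^ d) ^ b * Dc ((Fintype.card K : ℝ) ^ d)⁻¹ b := by
  have h1 : ((-1 : ℝ) ^ κ) ^ d = -1 := by rw [hκ.neg_one_pow, hd.neg_one_pow]
  unfold sig
  rw [h1, closed2 a _ (inv_ne_zero (pow_pos cardpos _).ne') _ _
    (ca_sol a.all.exi (-1) _ (Or.inr rfl)) b]

theorem sum_GII (h : K[X] → ℕ → ℝ[X]) (n : ℕ) (hn : 1 ≤ n)
    (hs : ∀ m : ℤ, sm (gII h) m = if m = 0 then 1 else 0) :
    ∑ k ∈ Finset.range (4 * n + 2), (k : ℝ) * GII h n k =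
      (Fintype.card K : ℝ) ^ n * du (gII h) n := by
  have hq : (0 : ℝ) < (Fintype.card K : ℝ) := cardpos
  have hq0 : (Fintype.card K : ℝ) ^ n ≠ 0 := (pow_pos hq _).ne'
  have hs := hs n
  rw [if_neg (by omega)] at hs
  have tr : ∀ f : ℤ → ℝ, ∑ e ∈ Finset.Icc (-(n : ℤ)) (3 * n + 1), f e =
      ∑ k ∈ Finset.range (4 * n + 2), f ((k : ℤ) - n) := by
    intro f
    symm
    refine Finset.sum_nbij' (fun k : ℕ => (k : ℤ) - n) (fun e : ℤ => (e + n).toNat) ?_ ?_ ?_ ?_ ?_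
    · intro k hk
      simp only [Finset.mem_range, Finset.mem_Icc] at hk ⊢
      omega
    · intro e he
      simp only [Finset.mem_range, Finset.mem_Icc] at he ⊢
      omega
    · intro k _
      simp
    · intro e he
      simp only [Finset.mem_Icc] at he
      omega
    · intro k _
      rfl
  have hg : ∀ k : ℕ, gII h (n : ℤ) ((k : ℤ) - n) =
      ((Fintype.card K : ℝ) ^ n)⁻¹ * GII h n k := by
    intro k
    unfold gII
    rw [if_pos (by omega)]
    have : ((n : ℤ) + ((k : ℤ) - n)).toNat = k := by omega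
    rw [this]
    simp
  unfold sm at hs
  rw [tr] at hs
  unfold du
  rw [tr]
  have h1 : ∑ k ∈ Finset.range (4 * n + 2), GII h n k = 0 := by
    have : ∑ k ∈ Finset.range (4 * n + 2), gII h (n : ℤ) ((k : ℤ) - n) =
        ((Fintype.card K : ℝ) ^ n)⁻¹ * ∑ k ∈ Finset.range (4 * n + 2), GII h n k := by
      rw [Finset.mul_sum]
      exact Finset.sum_congr rfl (fun k _ => hg k)
    rw [this] at hs
    exact (mul_eq_zero.1 hs).resolve_left (inv_ne_zero hq0)
  have h2 : ∑ k ∈ Finset.range (4 * n + 2), (((k : ℤ) - n : ℤ) : ℝ) *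
      gII h (n : ℤ) ((k : ℤ) - n) = ((Fintype.card K : ℝ) ^ n)⁻¹ *
        ∑ k ∈ Finset.range (4 * n + 2), (k : ℝ) * GII h n k := by
    have : ∀ k ∈ Finset.range (4 * n + 2), (((k : ℤ) - n : ℤ) : ℝ) *
      gII h (n : ℤ) ((k : ℤ) - n) = ((Fintype.card K : ℝ) ^ n)⁻¹ * ((k : ℝ) * GII h n k) -
        ((Fintype.card K : ℝ) ^ n)⁻¹ * n * GII h n k := by
      intro k _
      rw [hg]
      push_cast
      ring
    rw [Finset.sum_congr rfl this, Finset.sum_sub_distrib, ← Finset.mul_sum, ← Finset.mul_sum, h1]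
    ring
  rw [h2]
  field_simp

/-- The contribution of the squares. -/
theorem sum_irr (a : All2) {κ n : ℕ} (hκ : Odd κ) (hn : Odd n) :
    ∑ r ∈ n.divisors, (irr K r : ℝ) * r * sig K κ r (n / r) =
      -2 * (Fintype.card K : ℝ) ^ n * ∑ c ∈ n.divisors, (jacobiSym (-1) (n / c) : ℝ) := by
  have hq : (0 : ℝ) < (Fintype.card K : ℝ) := cardpos
  set q := (Fintype.card K : ℝ) with hqdef
  have hn0 : n ≠ 0 := by rintro rfl; exact absurd hn (by decide)
  have h1 : ∀ r ∈ n.divisors, (irr K r : ℝ) * r * sig K κ r (n / r) =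
      ∑ d ∈ (n / r).divisors, -2 * q ^ n * ((r * irr K r : ℕ) : ℝ) *
        (jacobiSym (-1) (n / r / d) : ℝ) * (q ^ (r * d))⁻¹ := by
    intro r hr
    have hrn := Nat.dvd_of_mem_divisors hr
    have hro : Odd r := Odd.of_dvd_nat hn hrn
    obtain ⟨b, hb⟩ := hrn
    have hr0 : 0 < r := Nat.pos_of_ne_zero (fun h => hn0 (by rw [hb, h, zero_mul]))
    have hbd : n / r = b := by rw [hb]; exact Nat.mul_div_cancel_left b hr0
    have hbo : Odd b := Odd.of_dvd_nat hn ⟨r, by rw [hb]; ring⟩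
    rw [sig_eq a hκ hro, hbd]
    unfold Dc
    rw [if_pos (Nat.odd_iff.1 hbo), ← mul_assoc, Finset.mul_sum, Finset.mul_sum]
    refine Finset.sum_congr rfl (fun d _ => ?_)
    rw [← hqdef, ← pow_mul, ← hb, inv_pow, ← pow_mul]
    push_cast
    ring
  have key : ∀ f : ℕ → ℕ → ℝ, ∑ r ∈ n.divisors, ∑ d ∈ (n / r).divisors, f r d =
      ∑ c ∈ n.divisors, ∑ r ∈ c.divisors, f r (c / r) := by
    intro f
    rw [Finset.sum_sigma', Finset.sum_sigma']
    refine Finset.sum_nbij' (fun x : (_ : ℕ) × ℕ => ⟨x.1 * x.2, x.1⟩)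
      (fun y : (_ : ℕ) × ℕ => ⟨y.2, y.1 / y.2⟩) ?_ ?_ ?_ ?_ ?_
    · rintro ⟨r, d⟩ h
      simp only [Finset.mem_sigma, Nat.mem_divisors] at h ⊢
      obtain ⟨⟨h2, _⟩, h3, h4⟩ := h
      have hr0 : 0 < r := Nat.pos_of_dvd_of_pos h2 (Nat.pos_of_ne_zero hn0)
      have hd0 : 0 < d := Nat.pos_of_dvd_of_pos h3 (Nat.pos_of_ne_zero h4)
      refine ⟨⟨?_, hn0⟩, Dvd.intro _ rfl, by positivity⟩
      obtain ⟨e, he⟩ := h3
      refine ⟨e, ?_⟩
      rw [mul_assoc, ← he, Nat.mul_div_cancel' h2]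
    · rintro ⟨c, r⟩ h
      simp only [Finset.mem_sigma, Nat.mem_divisors] at h ⊢
      obtain ⟨⟨h2, _⟩, h3, h4⟩ := h
      have hr0 : 0 < r := Nat.pos_of_dvd_of_pos h3 (Nat.pos_of_ne_zero h4)
      refine ⟨⟨h3.trans h2, hn0⟩, Nat.div_dvd_div h3 h2, ?_⟩
      exact (Nat.div_pos (Nat.le_of_dvd (Nat.pos_of_ne_zero hn0) (h3.trans h2)) hr0).ne'
    · rintro ⟨r, d⟩ h
      simp only [Finset.mem_sigma, Nat.mem_divisors] at h
      have hr0 : 0 < r := Nat.pos_of_dvd_of_pos h.1.1 (Nat.pos_of_ne_zero hn0)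
      simp [Nat.mul_div_cancel_left d hr0]
    · rintro ⟨c, r⟩ h
      simp only [Finset.mem_sigma, Nat.mem_divisors] at h
      simp [Nat.mul_div_cancel' h.2.1]
    · rintro ⟨r, d⟩ h
      simp only [Finset.mem_sigma, Nat.mem_divisors] at h
      have hr0 : 0 < r := Nat.pos_of_dvd_of_pos h.1.1 (Nat.pos_of_ne_zero hn0)
      simp [Nat.mul_div_cancel_left d hr0]
  rw [Finset.sum_congr rfl h1, key, Finset.mul_sum]
  refine Finset.sum_congr rfl (fun c hc => ?_)
  rw [Nat.mem_divisors] at hc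
  have hc0 : 0 < c := Nat.pos_of_dvd_of_pos hc.1 (Nat.pos_of_ne_zero hn0)
  have h2 : ∀ r ∈ c.divisors, -2 * q ^ n * ((r * irr K r : ℕ) : ℝ) *
      (jacobiSym (-1) (n / r / (c / r)) : ℝ) * (q ^ (r * (c / r)))⁻¹ =
      (-2 * q ^ n * (jacobiSym (-1) (n / c) : ℝ) * (q ^ c)⁻¹) * ((r * irr K r : ℕ) : ℝ) := by
    intro r hr
    rw [Nat.mem_divisors] at hr
    rw [Nat.mul_div_cancel' hr.1, Nat.div_div_eq_div_mul, Nat.mul_div_cancel' hr.1]
    ring
  rw [Finset.sum_congr rfl h2, ← Finset.mul_sum, ← Nat.cast_sum, a.nec K c hc0]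
  push_cast
  rw [← hqdef]
  field_simp

/-- The identity in terms of `Cc`. -/
theorem glob2 (a : All2) [CharP K 2] {κ n : ℕ} (hκ : Fintype.card K = 2 ^ κ) (hκo : Odd κ)
    (hn : Odd n) :
    ∑ m ∈ n.divisors, (if n / m % 4 = 1 then
        (pri' K m : ℝ) * (4 * m) * (((Fintype.card K : ℝ) ^ (4 * m)) ^ ((n / m - 1) / 4) *
          Cc 1 ((Fintype.card K : ℝ) ^ (4 * m))⁻¹ ((n / m - 1) / 4)) else 0) =
      2 * (Fintype.card K : ℝ) ^ n * ∑ c ∈ n.divisors, (jacobiSym (-1) (n / c) : ℝ) *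
        ((Fintype.card K : ℝ) ^ c - 1) := by
  have hn0 : n ≠ 0 := by rintro rfl; exact absurd hn (by decide)
  have hsol := glob_sol a.all κ hκ
  have hsol' := hsol
  have h2 : ((-1 : ℝ) ^ κ) = -1 := hκo.neg_one_pow
  rw [h2] at hsol'
  have hd := closed2 a _ (cardpos (K := K)).ne' _ _ hsol' n
  have h1 := sum_GII (hh K κ) n (Nat.pos_of_ne_zero hn0) hsol.N
  rw [hd, a.gd2 a.all.ref a.all.ev a.ev2 a.all.par K κ hκ (hh K κ) (rho K κ) (sig K κ)
    (hypR a.all κ) (hypV a.all κ) (der a.all κ) (der2 a κ) n (Nat.pos_of_ne_zero hn0),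
    sum_irr a hκo hn] at h1
  unfold Dc at h1
  rw [if_pos (Nat.odd_iff.1 hn)] at h1
  have h3 : ∑ m ∈ n.divisors, (if n / m % 4 = 1 then
        (pri' K m : ℝ) * (4 * m) * rho K κ (4 * m) ((n / m - 1) / 4) else 0) =
      -∑ m ∈ n.divisors, (if n / m % 4 = 1 then
        (pri' K m : ℝ) * (4 * m) * (((Fintype.card K : ℝ) ^ (4 * m)) ^ ((n / m - 1) / 4) *
          Cc 1 ((Fintype.card K : ℝ) ^ (4 * m))⁻¹ ((n / m - 1) / 4)) else 0) := by
    rw [← Finset.sum_neg_distrib]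
    refine Finset.sum_congr rfl (fun m _ => ?_)
    have h4 : ((-1 : ℝ) ^ κ) ^ (4 * m) = 1 := by
      rw [← pow_mul, show κ * (4 * m) = 2 * (κ * (2 * m)) by ring, pow_mul]
      norm_num
    unfold rho
    rw [h4]
    split_ifs <;> ring
  rw [h3] at h1
  simp only [mul_sub, mul_one, Finset.sum_sub_distrib]
  linarith

end

end Pool.Agent.H525.EX
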