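import Mathlib
import Pool.Agent.H525.EX.Global2
import Pool.Agent.H525.EX.Conv

/-!
# Project EX (helper525): the exact formula for the values of degree `4 n`, final form
-/

namespace Pool.Agent.H525.EX

open Polynomial
open Pool.Agent.H525.QF
open Pool.Agent.H985.Chow (mob)
open scoped Classical

section

variable {K : Type} [Field K] [Fintype K]

theorem ident2 (a : All2) [CharP K 2] {κ : ℕ} (hκ : Fintype.card K = 2 ^ κ) (hκo : Odd κ)
    (n : ℕ) (hn : Odd n) : Ident2 κ (pri' K) n := by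
  have h := glob2 a hκ hκo hn
  have hn0 : n ≠ 0 := by rintro rfl; exact absurd hn (by decide)
  have hcard : (Fintype.card K : ℝ) = 2 ^ κ := by rw [hκ]; push_cast; rfl
  rw [hcard, ← Finset.sum_filter] at h
  have hR : (((∑ m ∈ n.divisors with n / m % 4 = 1, (4 * m : ℤ) * (pri' K m : ℤ) *
      ∑ d ∈ (n / m).divisors, jacobiSym (-1) d *
        ((2 : ℤ) ^ κ) ^ (m * ((d - 1) * (n / m / d - 1))) : ℤ)) : ℝ) =
    ((2 * ((2 : ℤ) ^ κ) ^ n * ∑ c ∈ n.divisors, jacobiSym (-1) (n / c) *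
      (((2 : ℤ) ^ κ) ^ c - 1) : ℤ) : ℝ) := by
    push_cast
    rw [← h]
    refine Finset.sum_congr rfl (fun m hm => ?_)
    rw [Finset.mem_filter, Nat.mem_divisors] at hm
    obtain ⟨⟨hmn, _⟩, hmod⟩ := hm
    have hb : 4 * ((n / m - 1) / 4) + 1 = n / m := by
      generalize n / m = M at hmod ⊢
      omega
    have h5 := (a.cdiv 0 ((n / m - 1) / 4) (((2 : ℝ) ^ κ) ^ (4 * m)) (by positivity)).2
    rw [hb, pow_zero, pow_zero] at h5
    rw [← h5]
    have h6 : ∀ d ∈ (n / m).divisors, (((2 : ℝ) ^ κ) ^ (4 * m)) ^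
        ((d - 1) * (n / m / d - 1) / 4) = ((2 : ℝ) ^ κ) ^ (m * ((d - 1) * (n / m / d - 1))) := by
      intro d hd
      rw [Nat.mem_divisors] at hd
      obtain ⟨e, he⟩ := hd.1
      have hdo : Odd (d * e) := by
        rw [← he, Nat.odd_iff]; omega
      have hd1 : Odd d := (Nat.odd_mul.1 hdo).1
      have he1 : Odd e := (Nat.odd_mul.1 hdo).2
      have hdd : n / m / d = e := by
        rw [he]; exact Nat.mul_div_cancel_left e hd1.pos
      rw [hdd, ← pow_mul]
      congr 1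
      obtain ⟨x, hx⟩ := hd1
      obtain ⟨y, hy⟩ := he1
      have h7 : (d - 1) * (e - 1) = 4 * (x * y) := by
        rw [hx, hy, Nat.add_sub_cancel, Nat.add_sub_cancel]; ring
      rw [h7, Nat.mul_div_cancel_left _ (by norm_num)]
      ring
    have h8 : ∑ d ∈ (n / m).divisors, (jacobiSym (-1) d : ℝ) *
        ((2 : ℝ) ^ κ) ^ (m * ((d - 1) * (n / m / d - 1))) =
        ∑ d ∈ (n / m).divisors, (jacobiSym (-1) d : ℝ) * (((2 : ℝ) ^ κ) ^ (4 * m)) ^
        ((d - 1) * (n / m / d - 1) / 4) :=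
      Finset.sum_congr rfl (fun d hd => by rw [h6 d hd])
    rw [h8]
    ring
  unfold Ident2
  exact_mod_cast hR

theorem pri'_le (m : ℕ) : pri' K m ≤ Fintype.card K ^ (2 * m) := by
  unfold pri'
  refine (Finset.card_filter_le _ _).trans ?_
  rw [Finset.card_product, card_lt, card_mon, ← pow_add]
  exact le_of_eq (by congr 1; ring)

theorem pri'_even (hpar : S_par) [CharP K 2] (κ : ℕ) (hκ : Fintype.card K = 2 ^ κ) (n : ℕ)
    (ho : Even (κ * n)) : pri' K n = 0 := by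
  unfold pri'
  rw [Finset.card_eq_zero, Finset.filter_eq_empty_iff]
  intro v hv hirr
  rw [Finset.mem_product] at hv
  have h1 := (hpar K κ hκ n v (coprime_of_irreducible hirr)).2 hv.1 hv.2
  have h2 : mob (F v) = -1 := Pool.Agent.H870.QF.mob_irr hirr
  rw [h2, ho.neg_one_pow] at h1
  norm_num at h1

theorem ncard_four [CharP K 2] (n : ℕ) : (PF K (4 * n)).ncard = pri' K n := by
  unfold pri'
  rw [← Set.ncard_coe_finset, ← Set.ncard_image_of_injective _ F_inj]
  congr 1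
  ext f
  simp only [PF, Set.mem_setOf_eq, Set.mem_image, Finset.coe_filter, Finset.mem_product, mem_lt,
    mem_mon]
  constructor
  · rintro ⟨hm, hi, hd, x, y, rfl⟩
    refine ⟨(x, y), ⟨⟨⟨?_, ?_⟩, ?_⟩, hi⟩, rfl⟩
    all_goals
      rcases deg_cases (x, y) hi.ne_zero with ⟨h1, h2, h3⟩ | ⟨h1, h2, h3, h4⟩
      swap
      · have h5 : (x ^ 4 + X * y ^ 4).natDegree = 4 * y.natDegree + 1 := h1
        omega
      have h5 : (x ^ 4 + X * y ^ 4).natDegree = 4 * x.natDegree := h1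
      have h6 : x.natDegree = n := by omega
    · have h7 : (x ^ 4 + X * y ^ 4).leadingCoeff = x.leadingCoeff ^ 4 := h3
      rw [hm.leadingCoeff] at h7
      exact pow4_eq_one h7.symm
    · exact h6
    · refine lt_of_lt_of_le h2 ?_
      show x.degree ≤ _
      rw [← h6]
      exact degree_le_natDegree
  · rintro ⟨v, ⟨⟨⟨h1, h2⟩, h3⟩, h4⟩, rfl⟩
    obtain ⟨hm, hd⟩ := natDegree_F' (n := n) (v := v) (mem_mon.2 ⟨h1, h2⟩) (mem_lt.2 h3)
    exact ⟨hm, h4, hd, v.1, v.2, rfl⟩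

theorem ncard_other [CharP K 2] (N : ℕ) (h2 : 2 ≤ N % 4) : (PF K N).ncard = 0 := by
  have : PF K N = ∅ := by
    ext f
    simp only [PF, Set.mem_setOf_eq, Set.mem_empty_iff_false, iff_false]
    rintro ⟨hm, hi, hd, x, y, rfl⟩
    rcases deg_cases (x, y) hi.ne_zero with ⟨h1, _⟩ | ⟨h1, _⟩
    · have h5 : (x ^ 4 + X * y ^ 4).natDegree = 4 * x.natDegree := h1
      omega
    · have h5 : (x ^ 4 + X * y ^ 4).natDegree = 4 * y.natDegree + 1 := h1
      omega
  rw [this, Set.ncard_empty]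

end

end Pool.Agent.H525.EX
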