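import Mathlib
import Pool.Agent.H525.EX.Stm4

set_option autoImplicit false

/-! Solution of the recurrence of `S_r3` (project EX), by helper127. -/

namespace Pool.Agent.H525.EX.R3x

open Pool.Agent.H525.EX

/-- values of the solution of the one-step recurrence -/
theorem gval (g : ℤ → ℝ) (a : ℕ) (ha : 1 ≤ a) (P c : ℝ) (h0 : ∀ n : ℤ, n < a → g n = 0)
    (hg : ∀ n : ℤ, g n - P ^ 2 * g (n - 2 * a) = if n = a then c * P else 0)
    (n : ℕ) : g n = if a ∣ n ∧ (n / a) % 2 = 1 then c * P ^ (n / a) else 0 := by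
  induction n using Nat.strong_induction_on with
  | _ n ih =>
    have h1 := hg n
    rcases lt_trichotomy n a with hlt | heq | hgt
    · rw [h0 n (by exact_mod_cast hlt), if_neg]
      rintro ⟨-, h2⟩
      rw [Nat.div_eq_of_lt hlt] at h2
      omega
    · subst heq
      rw [if_pos rfl, h0 ((n : ℤ) - 2 * n) (by omega)] at h1
      rw [Nat.div_self ha, if_pos ⟨dvd_rfl, rfl⟩, pow_one]
      linarith
    · rw [if_neg (by omega)] at h1
      rcases lt_or_ge n (2 * a) with h2 | h2
      · rw [h0 ((n : ℤ) - 2 * a) (by omega)] at h1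
        rw [if_neg]
        · linarith
        · rintro ⟨⟨k, rfl⟩, h3⟩
          rw [Nat.mul_div_cancel_left _ ha] at h3
          have h4 : k < 2 := by
            by_contra hk
            nlinarith
          have h5 : k = 1 := by omega
          subst h5
          omega
      · obtain ⟨m, rfl⟩ : ∃ m, n = m + 2 * a := ⟨n - 2 * a, by omega⟩
        have h3 := ih m (by omega)
        have e : (((m + 2 * a : ℕ) : ℤ) - 2 * a) = (m : ℤ) := by push_cast; ring
        rw [e, h3] at h1
        have h4 : (m + 2 * a) / a = m / a + 2 := by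
          rw [Nat.add_mul_div_right _ _ (by omega)]
        have h5 : a ∣ m + 2 * a ↔ a ∣ m := by
          constructor
          · intro h
            exact (Nat.dvd_add_left (Dvd.intro_left 2 rfl)).1 h
          · intro h
            exact Dvd.dvd.add h (Dvd.intro_left 2 rfl)
        rw [h4]
        by_cases h6 : a ∣ m ∧ (m / a) % 2 = 1
        · rw [if_pos h6] at h1
          rw [if_pos ⟨h5.2 h6.1, by omega⟩, pow_add]
          linarith
        · rw [if_neg h6] at h1
          rw [if_neg (fun h => h6 ⟨h5.1 h.1, by omega⟩)]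
          linarith

theorem jac (s : ℕ) : jacobiSym (-1) (2 * s + 1) = (-1) ^ s := by
  rw [jacobiSym.at_neg_one (by exact ⟨s, rfl⟩)]
  rcases Nat.even_or_odd s with ⟨k, hk⟩ | ⟨k, hk⟩
  · rw [ZMod.χ₄_nat_one_mod_four (by omega), Even.neg_one_pow ⟨k, hk⟩]
  · rw [ZMod.χ₄_nat_three_mod_four (by omega), Odd.neg_one_pow ⟨k, hk⟩]

theorem main (P : ℝ) (D : ℕ → ℤ → ℝ) (h0 : ∀ (s : ℕ) (n : ℤ), n ≤ 2 * s → D s n = 0)
    (hD : ∀ (s : ℕ) (n : ℤ), D s n - P ^ 2 * D s (n - (4 * s + 2)) -
      (D (s + 1) n - P ^ 2 * D (s + 1) (n - (4 * s + 2))) +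
      (if n = 2 * s + 1 then 2 * (-1) ^ s * P else 0) = 0)
    (n : ℕ) : D 0 n = Dc P n := by
  have hgv : ∀ s : ℕ, D s n - D (s + 1) n =
      if (2 * s + 1) ∣ n ∧ (n / (2 * s + 1)) % 2 = 1 then
        (-2 * (-1) ^ s) * P ^ (n / (2 * s + 1)) else 0 := by
    intro s
    refine gval (fun m => D s m - D (s + 1) m) (2 * s + 1) (by omega) P (-2 * (-1) ^ s) ?_ ?_ n
    · intro m hm
      rw [h0 s m (by omega), h0 (s + 1) m (by push_cast; push_cast at hm; linarith), sub_zero]
    · intro m
      have h1 := hD s m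
      have e : m - 2 * ((2 * s + 1 : ℕ) : ℤ) = m - (4 * s + 2) := by push_cast; ring
      rw [e]
      by_cases h2 : m = 2 * s + 1
      · rw [if_pos h2] at h1
        rw [if_pos (by rw [h2]; push_cast; ring)]
        linarith
      · rw [if_neg h2] at h1
        rw [if_neg (fun h => h2 (by rw [h]; push_cast; ring))]
        linarith
  have hit : ∀ S : ℕ, D 0 n = ∑ s ∈ Finset.range S, (D s n - D (s + 1) n) + D S n := by
    intro S
    induction S with
    | zero => simp
    | succ S ih =>
      rw [Finset.sum_range_succ, ih]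
      ring
  rw [hit (n + 1), h0 (n + 1) n (by push_cast; linarith), add_zero, Finset.sum_congr rfl
    (fun s _ => hgv s), ← Finset.sum_filter]
  unfold Dc
  by_cases hn : n % 2 = 1
  · rw [if_pos hn, Finset.mul_sum]
    refine Finset.sum_bij' (fun s _ => n / (2 * s + 1)) (fun d _ => (n / d) / 2) ?_ ?_ ?_ ?_ ?_
    · intro s hs
      rw [Finset.mem_filter] at hs
      rw [Nat.mem_divisors]
      exact ⟨Nat.div_dvd_of_dvd hs.2.1, by omega⟩
    · intro d hd
      rw [Nat.mem_divisors] at hd
      obtain ⟨⟨k, rfl⟩, hd0⟩ := hd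
      have hd1 : 0 < d := Nat.pos_of_ne_zero (fun h => by subst h; omega)
      have hk : k % 2 = 1 := by
        rw [← Nat.odd_iff] at hn ⊢
        exact (Nat.odd_mul.1 hn).2
      have hdo : d % 2 = 1 := by
        rw [← Nat.odd_iff] at hn ⊢
        exact (Nat.odd_mul.1 hn).1
      have e : d * k / d = k := Nat.mul_div_cancel_left k hd1
      have e2 : 2 * (k / 2) + 1 = k := by omega
      rw [Finset.mem_filter, Finset.mem_range, e, e2]
      have hk0 : 0 < k := by omega
      refine ⟨?_, Dvd.intro_left d rfl, ?_⟩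
      · have : k ≤ d * k := Nat.le_mul_of_pos_left k hd1
        omega
      · rw [Nat.mul_div_cancel _ hk0]
        exact hdo
    · intro s hs
      rw [Finset.mem_filter] at hs
      rw [Nat.div_div_self hs.2.1 (by omega)]
      omega
    · intro d hd
      rw [Nat.mem_divisors] at hd
      obtain ⟨⟨k, rfl⟩, hd0⟩ := hd
      have hd1 : 0 < d := Nat.pos_of_ne_zero (fun h => by subst h; omega)
      have hk : k % 2 = 1 := by
        rw [← Nat.odd_iff] at hn ⊢
        exact (Nat.odd_mul.1 hn).2
      have e : d * k / d = k := Nat.mul_div_cancel_left k hd1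
      have e2 : 2 * (k / 2) + 1 = k := by omega
      rw [e, e2]
      exact Nat.mul_div_cancel _ (by omega)
    · intro s hs
      rw [Finset.mem_filter] at hs
      rw [Nat.div_div_self hs.2.1 (by omega), jac]
      push_cast
      ring
  · rw [if_neg hn]
    apply Finset.sum_eq_zero
    intro s hs
    exfalso
    rw [Finset.mem_filter] at hs
    obtain ⟨-, ⟨k, rfl⟩, h3⟩ := hs
    rw [Nat.mul_div_cancel_left _ (by omega)] at h3
    apply hn
    rw [← Nat.odd_iff] at h3 ⊢
    exact Odd.mul ⟨s, rfl⟩ h3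

theorem t_r3 : Pool.Agent.H525.EX.S_r3 := main

end Pool.Agent.H525.EX.R3x
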