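import Mathlib
import Pool.Agent.H525.EX.Final
import Pool.Agent.H525.EX.EV44
import Pool.Agent.H662.EX.HOM
import Pool.Agent.H181.EX.EXI
import Pool.Agent.H401.EX.C1
import Pool.Agent.H297.EX.C2
import Pool.Agent.H345.EX.D1
import Pool.Agent.H685.EX.D2
import Pool.Agent.H337.EX.R1
import Pool.Agent.H580.EX.R2
import Pool.Agent.H139.EX.LOC
import Pool.Agent.H113.EX.LEX
import Pool.Agent.H79.EX.EXP
import Pool.Agent.H166.EX.LAT
import Pool.Agent.H353.EX.LATP
import Pool.Agent.H599.EX.REF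
import Pool.Agent.H120.EX.SYM
import Pool.Agent.H539.EX.GB
import Pool.Agent.H350.EX.GA
import Pool.Agent.H694.EX.GN
import Pool.Agent.H627.EX.GD
import Pool.Agent.H177.EX.CDIV
import Pool.Agent.H441.EX.BD
import Pool.Agent.H591.QF.PAR

/-!
# Project EX (helper525): all tasks
-/

namespace Pool.Agent.H525.EX

theorem all : All where
  hom := Pool.Agent.H662.EX.t_hom
  exi := Pool.Agent.H181.EX.t_exi
  c1 := Pool.Agent.H401.EX.t_c1
  c2 := Pool.Agent.H297.EX.t_c2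
  d1 := Pool.Agent.H345.EX.t_d1
  d2 := Pool.Agent.H685.EX.t_d2
  r1 := Pool.Agent.H337.EX.t_r1
  r2 := Pool.Agent.H580.EX.t_r2
  loc := Pool.Agent.H139.EX.t_loc
  lex := Pool.Agent.H113.EX.t_lex
  exp := Pool.Agent.H79.EX.t_exp
  lat := Pool.Agent.H166.EX.t_lat
  lat' := Pool.Agent.H353.EX.t_lat'
  ref := Pool.Agent.H599.EX.t_ref
  ev := Pool.Agent.H525.EX.EV44.t_ev
  sym := Pool.Agent.H120.EX.t_sym
  gb := Pool.Agent.H539.EX.t_gb
  ga := Pool.Agent.H350.EX.t_ga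
  gn := Pool.Agent.H694.EX.t_gn
  gd := Pool.Agent.H627.EX.t_gd
  par := Pool.Agent.H591.QF.t_par

end Pool.Agent.H525.EX
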