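import Mathlib
import Pool.Agent.H525.EX.Total
import Pool.Agent.H525.EX.Final2
import Pool.Agent.H525.EX.R3x
import Pool.Agent.H767.EX.C3
import Pool.Agent.H215.EX.D3
import Pool.Agent.H725.EX.LOW
import Pool.Agent.H142.EX.LOC2
import Pool.Agent.H345.EX.EV2
import Pool.Agent.H253.EX.GD2
import Pool.Agent.H261.EX.NEC
import Pool.Agent.H734.EX.BD2

/-!
# Project EX (helper525): all tasks for the second kind
-/

namespace Pool.Agent.H525.EX

theorem all2 : All2 where
  all := all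
  cdiv := Pool.Agent.H177.EX.t_cdiv
  c3 := Pool.Agent.H767.EX.t_c3
  d3 := Pool.Agent.H215.EX.t_d3
  low := Pool.Agent.H725.EX.t_low
  r3 := Pool.Agent.H525.EX.R3x.t_r3
  loc2 := Pool.Agent.H142.EX.t_loc2
  ev2 := Pool.Agent.H345.EX.t_ev2
  gd2 := Pool.Agent.H253.EX.t_gd2
  nec := Pool.Agent.H261.EX.t_nec

end Pool.Agent.H525.EX
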