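import Mathlib
import Pool.Agent.H525.EX.Stm5

/-!
# Project EX (helper525), part VI: from the arrays to the final formula for `u ^ 2 + t (u') ^ 2`
-/

namespace Pool.Agent.H525.EX

open Polynomial
open Pool.Agent.H525.QF
open scoped Classical

/-- **ELD** (the closed form `El`, `g = √q`, in terms of Jacobi symbols).  For odd `d`:
`jacobiSym (-2 ^ κ) d` is `ε ^ ((d - 1) / 4)` if `d ≡ 1` and `-ε ^ ((d + 1) / 4)` if `d ≡ 3` modulo `4`,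
`ε = (-1) ^ κ` (`χ₄ d * χ₈ d ^ κ`; compare `H177/EX/CDIV.lean`); for `N = 2 n + 1` the exponents `N / d`
are odd, `g ^ (N / d) = g q ^ ((N / d - 1) / 2)`; for `N = 2 n` they are even, the sign is `1` and
`g ^ (N / d) = q ^ (n / d)`. -/
def S_eld : Prop :=
  ∀ κ n : ℕ,
    El ((-1) ^ κ) (Real.sqrt ((2 : ℝ) ^ κ)) (2 * n + 1) = 2 * Real.sqrt ((2 : ℝ) ^ κ) *
      ∑ d ∈ (2 * n + 1).divisors, (jacobiSym (-(2 : ℤ) ^ κ) d : ℝ) *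
        ((2 : ℝ) ^ κ) ^ (((2 * n + 1) / d - 1) / 2) ∧
    El ((-1) ^ κ) (Real.sqrt ((2 : ℝ) ^ κ)) (2 * n) = 2 *
      ∑ d ∈ n.divisors with d % 2 = 1, (jacobiSym (-1) d : ℝ) * ((2 : ℝ) ^ κ) ^ (n / d)

/-- The identity for odd `M = 2 n + 1`. -/
def G3 (κ : ℕ) (p : ℕ → ℕ) : Prop :=
  ∀ n : ℕ, ∑ m ∈ Finset.range (n + 1),
    (if (2 * m + 1) ∣ (2 * n + 1) ∧ (2 * n + 1) / (2 * m + 1) % 4 = 1 then
      (p (2 * m + 1) : ℝ) * (4 * m + 2) * ((((2 : ℝ) ^ κ) ^ (4 * m + 2)) ^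
          (((2 * n + 1) / (2 * m + 1) - 1) / 4) *
        Cc 1 (((2 : ℝ) ^ κ) ^ (4 * m + 2))⁻¹ (((2 * n + 1) / (2 * m + 1) - 1) / 4)) else 0) =
    ((2 : ℝ) ^ κ) ^ (n + 1) * ∑ d ∈ (2 * n + 1).divisors, (jacobiSym (-(2 : ℤ) ^ κ) d : ℝ) *
      ((2 : ℝ) ^ κ) ^ (((2 * n + 1) / d - 1) / 2)

/-- The identity for even `M = 2 n`. -/
def G4 (κ : ℕ) (p : ℕ → ℕ) : Prop :=
  ∀ n : ℕ, 1 ≤ n → ∑ m ∈ n.divisors, (if n / m % 4 = 1 then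
      (p (2 * m) : ℝ) * (4 * m) * ((((2 : ℝ) ^ κ) ^ (4 * m)) ^ ((n / m - 1) / 4) *
        Cc 1 (((2 : ℝ) ^ κ) ^ (4 * m))⁻¹ ((n / m - 1) / 4)) else 0) +
      (if Odd κ ∧ Odd n then 2 * ((2 : ℝ) ^ κ) ^ n * ∑ c ∈ n.divisors, (jacobiSym (-1) (n / c) : ℝ)
        else 0) =
    ((2 : ℝ) ^ κ) ^ n * ∑ d ∈ n.divisors with d % 2 = 1, (jacobiSym (-1) d : ℝ) *
      ((2 : ℝ) ^ κ) ^ (n / d)

/-- The exact formula, `q = 2 ^ κ`: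
`Σ_{f ∣ M, M / f ≡ 1 (4)} 2 f p f Σ_{d ∣ M / f} (-1 / d) q ^ (f (d - 1) (M / (f d) - 1) / 2) =
Σ_{d ∣ M, d odd} (-q ^ M / d) q ^ ((M + M / d) / 2) -
[κ odd, M ≡ 2 (4)] 2 q ^ (M / 2) Σ_{c ∣ M / 2} (-1 / c)`. -/
def IdU (κ : ℕ) (p : ℕ → ℕ) (M : ℕ) : Prop :=
  ∑ f ∈ M.divisors with M / f % 4 = 1, (2 * f : ℤ) * (p f : ℤ) *
      ∑ d ∈ (M / f).divisors, jacobiSym (-1) d *
        ((2 : ℤ) ^ κ) ^ (f * ((d - 1) * (M / f / d - 1) / 2)) =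
    (∑ d ∈ M.divisors with d % 2 = 1, jacobiSym (-((2 : ℤ) ^ κ) ^ M) d *
      ((2 : ℤ) ^ κ) ^ ((M + M / d) / 2)) -
    (if Odd κ ∧ M % 4 = 2 then 2 * ((2 : ℤ) ^ κ) ^ (M / 2) * ∑ c ∈ (M / 2).divisors, jacobiSym (-1) c
      else 0)

/-- **CVU** (conversion).  `Q ^ a Cc 1 Q⁻¹ a = Σ_{d ∣ 4 a + 1} (-1 / d) Q ^ ((d - 1) ((4 a + 1) / d - 1) / 4)`
is `S_cdiv` with `κ = 0`; the exponent `(4 m + 2) ((d - 1) (e - 1) / 4) = f ((d - 1) (e - 1) / 2)`,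
`f = 2 m + 1` (`d ≡ e` modulo `4`, `4 ∣ (d - 1) (e - 1)`); the symbol `(-q ^ M / d)` is `(-q / d)` for
odd and `(-1 / d)` for even `M`, `d` odd; compare `Pool/Agent/H525/EX/Final.lean`, `Final2.lean`. -/
def S_cvu : Prop :=
  S_cdiv → ∀ (κ : ℕ) (p : ℕ → ℕ), G3 κ p → G4 κ p → ∀ M : ℕ, 1 ≤ M → IdU κ p M

/-- **BDU** (consequences; compare `H441/EX/BDC.lean`, `H734/EX/BD2C.lean`).  On the right the term
`d = 1` is `q ^ M`, the others (`d ≥ 3`) have exponent `(M + M / d) / 2 ≤ 2 M / 3`, at most `M` of them;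
the correction is at most `2 q ^ (M / 2) M`.  On the left the term `f = M` is `2 M p M`, for `f < M`
(`f ≤ M / 5`) use `p f ≤ q ^ f` and `f + f (d - 1) (e - 1) / 2 ≤ M / 2` (`d e = M / f ≥ 5`; if `d = 1` or
`e = 1` it is `f ≤ M / 5`, else `d, e ≥ 3` and it is `(M - f (d + e - 3)) / 2`).  For an odd prime `M` the
divisors are `1`, `M`; `2 p 1 = q` by the formula for `M = 1`. -/
def S_bdu : Prop :=
  ∀ (κ : ℕ) (p : ℕ → ℕ), 1 ≤ κ → (∀ M, p M ≤ (2 ^ κ) ^ M) → (∀ M, 1 ≤ M → IdU κ p M) →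
    ∀ M : ℕ, 1 ≤ M →
      |(2 * M * p M : ℝ) - ((2 : ℝ) ^ κ) ^ M| ≤ 2 * (M : ℝ) ^ 3 * ((2 : ℝ) ^ κ) ^ (2 * M / 3) ∧
      (M.Prime → M ≠ 2 → (2 * M : ℤ) * p M = ((2 : ℤ) ^ κ) ^ M +
        jacobiSym (-(2 : ℤ) ^ κ) M * ((2 : ℤ) ^ κ) ^ ((M + 1) / 2) -
        (if M % 4 = 1 then 2 * (2 : ℤ) ^ κ else 0))

/-- **BRU** (translation).  Every polynomial `u` over `K` is uniquely `x ^ 2 + X y ^ 2` (`K` perfect of
characteristic two), `u' = y ^ 2` and `u ^ 2 + X (u') ^ 2 = F2 (x, y)`; `u` is monic of degree `2 m + 1`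
iff `y` is monic of degree `m` and `deg x ≤ m`, monic of degree `2 m` iff `x` is monic of degree `m` and
`deg y < m`. -/
def S_bru : Prop :=
  ∀ (K : Type) [Field K] [Fintype K] [CharP K 2] (m : ℕ),
    {u : K[X] | u.Monic ∧ u.natDegree = 2 * m + 1 ∧
      Irreducible (u ^ 2 + X * (derivative u) ^ 2)}.ncard = pi1 K m ∧
    {u : K[X] | u.Monic ∧ u.natDegree = 2 * m ∧
      Irreducible (u ^ 2 + X * (derivative u) ^ 2)}.ncard = pi0 K m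

end Pool.Agent.H525.EX
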