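import Mathlib
import Pool.Agent.H525.EX.Stm6

/-!
# Project EX (helper525), part VII: general coefficient
-/

namespace Pool.Agent.H525.EX

open Polynomial
open Pool.Agent.H525.QF
open scoped Classical

/-- **BRG** (general coefficient).  `c = α X ^ 2 + X + γ`, `β = 1 + α`.  `u = x ^ 2 + X y ^ 2`, `u' = y ^ 2`,
`u ^ 2 + c (u') ^ 2 = x ^ 4 + (β X ^ 2 + X + γ) y ^ 4 = (x + μ y) ^ 4 + (β X ^ 2 + X) y ^ 4`, `μ ^ 4 = γ`.
If `α ≠ 1`, `β ≠ 0`, let `λ ^ 4 = β⁻¹`, `σ : X ↦ β⁻¹ X` (an automorphism of `K[X]`, it preserves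
irreducibility): `σ (β X ^ 2 + X) = λ ^ 4 (X ^ 2 + X)`, so `σ f = F2 (σ (x + μ y), λ σ y)`; finally divide
both components by the leading coefficient of the monic one (`F2 (k x, k y) = k ^ 4 F2 (x, y)`).  This is
a bijection of the pairs of the first kind (`y` monic of degree `m`, `deg x ≤ m`; `u` monic of degree
`2 m + 1`) and of the second kind (`x` monic of degree `m`, `deg y < m`; `u` monic of degree `2 m`).  If
`α = 1`, `β = 0`: `f = F (x + μ y, y)`, `F (x, y) = x ^ 4 + X y ^ 4` (`Pool.Agent.H525.QF.F`; `pri`, `pri'`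
are defined in `Stm2.lean`, `Stm4.lean`). -/
def S_brg : Prop :=
  ∀ (K : Type) [Field K] [Fintype K] [CharP K 2] (α γ : K) (m : ℕ),
    (α ≠ 1 →
      {u : K[X] | u.Monic ∧ u.natDegree = 2 * m + 1 ∧
        Irreducible (u ^ 2 + (C α * X ^ 2 + X + C γ) * (derivative u) ^ 2)}.ncard = pi1 K m ∧
      {u : K[X] | u.Monic ∧ u.natDegree = 2 * m ∧
        Irreducible (u ^ 2 + (C α * X ^ 2 + X + C γ) * (derivative u) ^ 2)}.ncard = pi0 K m) ∧
    (α = 1 →
      {u : K[X] | u.Monic ∧ u.natDegree = 2 * m + 1 ∧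
        Irreducible (u ^ 2 + (C α * X ^ 2 + X + C γ) * (derivative u) ^ 2)}.ncard = pri K m ∧
      {u : K[X] | u.Monic ∧ u.natDegree = 2 * m ∧
        Irreducible (u ^ 2 + (C α * X ^ 2 + X + C γ) * (derivative u) ^ 2)}.ncard = pri' K m)

end Pool.Agent.H525.EX
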