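import Mathlib
import Pool.Agent.H525.EX.Stm7

/-!
# Project EX (helper525), part VIII: prescribed second coefficient
-/

namespace Pool.Agent.H525.EX

open Polynomial
open Pool.Agent.H985.Chow (mob)
open Pool.Agent.H525.QF
open scoped Classical

section defs

variable {K : Type} [Field K] [Fintype K]

/-- Weighted numbers of pairs of the first and second kind with irreducible `F2 v`. -/
noncomputable def p1 (ω : K → ℝ) (m : ℕ) : ℝ :=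
  ∑ v ∈ ((lt K (m + 1)) ×ˢ (mon K m)).filter (fun v => Irreducible (F2 v)), ω (v.1.coeff m)
noncomputable def p0 (ω : K → ℝ) (m : ℕ) : ℝ :=
  ∑ v ∈ ((mon K m) ×ˢ (lt K m)).filter (fun v => Irreducible (F2 v)), ω (v.2.coeff (m - 1))

end defs

/-- **GA3** (`S_ga2` with a weight; proof as `Pool/Agent/H118/EX/GA2.lean`). -/
def S_ga3 : Prop :=
  S_ref → S_par2 →
  ∀ (K : Type) [Field K] [Fintype K] [CharP K 2] (κ : ℕ), Fintype.card K = 2 ^ κ →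
    ∀ (h : K[X] → ℕ → ℝ[X]), HypR ((-1) ^ κ) h → ∀ ω : K → ℝ,
    (∀ n e : ℤ, g0 ω h n (2 * n - e) =
      ((-1 : ℝ) ^ κ) ^ n * g0 (fun c => ω c * (psi c : ℝ)) h n e) ∧
    (∀ n e : ℤ, g1 ω h n (2 * n + 2 - e) =
      ((-1 : ℝ) ^ κ) ^ n * g1 (fun c => ω c * (psi c : ℝ)) h n e)

/-- **GN3** (`S_gn2` with a weight; proof as `Pool/Agent/H23/EX/GN2.lean`; for `v = (1, 0)` the weight
is `ω 0`). -/
def S_gn3 : Prop :=
  S_ref → S_ev → S_par2 →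
  ∀ (K : Type) [Field K] [Fintype K] [CharP K 2] (κ : ℕ), Fintype.card K = 2 ^ κ →
    ∀ (h : K[X] → ℕ → ℝ[X]), HypR ((-1) ^ κ) h → HypV h → ∀ ω : K → ℝ,
    (∀ n : ℤ, ∑ e ∈ Finset.Icc (-n) (3 * n + 2), g0 ω h n e = if n = 0 then ω 0 else 0) ∧
    (∀ n : ℤ, ∑ e ∈ Finset.Icc (-n) (3 * n + 2), g1 ω h n e = 0)

/-- **GD31** (`S_gd21` with a weight; proof as `Pool/Agent/H345/EX/GD21.lean`). -/
def S_gd31 : Prop :=
  S_ref → S_ev → S_par2 →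
  ∀ (K : Type) [Field K] [Fintype K] [CharP K 2] (κ : ℕ), Fintype.card K = 2 ^ κ →
    ∀ (h : K[X] → ℕ → ℝ[X]) (ρ : ℕ → ℕ → ℝ), HypR ((-1) ^ κ) h → HypV h →
    (∀ (P : K[X]) (a : ℕ), (derivative (h P (2 * a + 1))).eval 1 = ρ P.natDegree a) →
    ∀ (ω : K → ℝ) (n : ℕ), ∑ k ∈ Finset.range (4 * n + 3), (k : ℝ) * G1 ω h n k =
      ∑ m ∈ Finset.range (n + 1), if (2 * m + 1) ∣ (2 * n + 1) ∧ (2 * n + 1) / (2 * m + 1) % 4 = 1 then
        p1 ω m * (4 * m + 2) * ρ (4 * m + 2) (((2 * n + 1) / (2 * m + 1) - 1) / 4) else 0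

/-- **GD30** (`S_gd20` with a weight; proof as `Pool/Agent/H231/EX/GD20.lean`). -/
def S_gd30 : Prop :=
  S_ref → S_ev → S_ev2 → S_par2 →
  ∀ (K : Type) [Field K] [Fintype K] [CharP K 2] (κ : ℕ), Fintype.card K = 2 ^ κ →
    ∀ (h : K[X] → ℕ → ℝ[X]) (ρ σ : ℕ → ℕ → ℝ), HypR ((-1) ^ κ) h → HypV h →
    (∀ (P : K[X]) (a : ℕ), (derivative (h P (2 * a + 1))).eval 1 = ρ P.natDegree a) →
    (∀ (P : K[X]) (a : ℕ), (derivative (h P (2 * a))).eval 1 = σ P.natDegree a) →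
    ∀ (ω : K → ℝ) (n : ℕ), 1 ≤ n → ∑ k ∈ Finset.range (4 * n + 3), (k : ℝ) * G0 ω h n k =
      (∑ m ∈ n.divisors, if n / m % 4 = 1 then
        p0 ω m * (4 * m) * ρ (4 * m) ((n / m - 1) / 4) else 0) +
      ω 0 * ∑ r ∈ n.divisors, (irr K r : ℝ) * r * σ r (n / r)

/-- **ARR** (an array which is symmetric and whose reflection is symmetric is diagonal).  Strong
induction on `n`: for `e < n` `u n e = u e n = 0` (row `e < n`, `n ≠ e`; or `e < 0`); for `e > n` put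
`e' = 2 n - e < n`: `ε ^ n u n e = ε ^ e' u e' (2 e' - n) = 0` as `2 e' - n ≠ e'`. -/
def S_arr : Prop :=
  ∀ (ε : ℝ) (u : Arr), ε = 1 ∨ ε = -1 → (∀ n e : ℤ, n < 0 → u n e = 0) →
    (∀ n e : ℤ, u n e = u e n) →
    (∀ n e : ℤ, ε ^ n * u n (2 * n - e) = ε ^ e * u e (2 * e - n)) →
    ∀ n e : ℤ, e ≠ n → u n e = 0

/-- **CLA** (functions orthogonal to all weights `ω` with `Σ ω = Σ ω ψ = 0`).  Take `ω = 1_b - 1_b'`
with `ψ b = ψ b'`: `L b = L b'`; by `S_psi` each of the two classes of `ψ` has `q / 2` elements.  If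
moreover `L b = 0` for all `b` with `s ψ b = 1` (`s = ± 1`), then
`q L b = (1 - s ψ b) Σ_b L b`. -/
def S_cla : Prop :=
  S_psi → ∀ (K : Type) [Field K] [Fintype K] [CharP K 2] (L : K → ℝ) (s : ℝ), s = 1 ∨ s = -1 →
    (∀ ω : K → ℝ, ∑ b : K, ω b = 0 → ∑ b : K, ω b * (psi b : ℝ) = 0 → ∑ b : K, ω b * L b = 0) →
    (∀ b : K, s * (psi b : ℝ) = 1 → L b = 0) →
    ∀ b : K, (Fintype.card K : ℝ) * L b = (1 - s * (psi b : ℝ)) * ∑ b : K, L b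

/-- The number of monic `u` of degree `M` with second coefficient `b` and `u ^ 2 + t (u') ^ 2`
irreducible. -/
noncomputable def pb (K : Type) [Field K] (M : ℕ) (b : K) : ℕ :=
  {u : K[X] | u.Monic ∧ u.natDegree = M ∧ u.coeff (M - 1) = b ∧
    Irreducible (u ^ 2 + X * (derivative u) ^ 2)}.ncard

/-- **BRB** (translation, compare `S_bru`, `Pool/Agent/H356/EX/BRU.lean`): for `u = x ^ 2 + X y ^ 2` the
coefficient of `X ^ (2 m)` is `x_m ^ 2`, that of `X ^ (2 m - 1)` is `y_(m-1) ^ 2`; `ψ (c ^ 2) = ψ c`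
(`w ^ 2 + w = c ^ 2` iff `w = z ^ 2`, `z ^ 2 + z = c`). -/
def S_brb : Prop :=
  ∀ (K : Type) [Field K] [Fintype K] [CharP K 2],
    (∀ (m : ℕ) (c : K), (pb K (2 * m + 1) (c ^ 2) : ℝ) = p1 (fun a => if a = c then 1 else 0) m) ∧
    (∀ (m : ℕ) (c : K), 1 ≤ m →
      (pb K (2 * m) (c ^ 2) : ℝ) = p0 (fun a => if a = c then 1 else 0) m) ∧
    (∀ c : K, psi (c ^ 2) = psi c) ∧ (∀ m : ℕ, p1 (fun _ : K => 1) m = pi1 K m) ∧
    (∀ m : ℕ, p0 (fun _ : K => 1) m = pi0 K m)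

end Pool.Agent.H525.EX
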