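import Mathlib
import Pool.Agent.H525.EX.Global2
import Pool.Agent.H525.EX.Stm6

/-!
# Project EX (helper525): the exact formula for `u ^ 2 + t (u') ^ 2`, global part
-/

namespace Pool.Agent.H525.EX

open Polynomial
open Pool.Agent.H525.QF
open Pool.Agent.H985.Chow (mob)
open scoped Classical

/-- The statements of the tasks of parts V and VI. -/
structure All5 : Prop where
  all2 : All2
  psi : S_psi
  root2 : S_root2
  symU : S_symU
  tw1 : S_tw1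
  tw0 : S_tw0
  lat2 : S_lat2
  lat2' : S_lat2'
  gb2 : S_gb2
  par2 : S_par2
  ga2 : S_ga2
  gn2 : S_gn2
  gd21 : S_gd21
  gd20 : S_gd20
  lv1 : S_lv1
  lv2 : S_lv2
  lv3 : S_lv3
  lv4 : S_lv4
  cmb : S_cmb
  eld : S_eld
  cvu : S_cvu
  bdu : S_bdu
  bru : S_bru

theorem seqF (a : All5) (ε g : ℝ) (f : Arr) (hε : ε = 1 ∨ ε = -1) (h : Lev ε g 1 f) :
    ∃ F : ℕ → Arr, F 0 = f ∧ ∀ k : ℕ, Lev ε (ε ^ k * g) (4 * (k : ℤ) + 1) (F k) ∧
      Rl ε (ε ^ k * g) (4 * (k : ℤ) + 1) (F k) (F (k + 1)) := by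
  have step : ∀ (k : ℕ) (x : {f : Arr // Lev ε (ε ^ k * g) (4 * (k : ℤ) + 1) f}),
      ∃ y : {f : Arr // Lev ε (ε ^ (k + 1) * g) (4 * ((k + 1 : ℕ) : ℤ) + 1) f},
        Rl ε (ε ^ k * g) (4 * (k : ℤ) + 1) x.1 y.1 := by
    intro k x
    obtain ⟨f', h1, h2⟩ := a.lv1 ε (ε ^ k * g) (4 * (k : ℤ) + 1) x.1 hε (by omega) (by omega) x.2
    have e1 : ε * (ε ^ k * g) = ε ^ (k + 1) * g := by ring
    have e2 : (4 * (k : ℤ) + 1 + 4) = 4 * ((k + 1 : ℕ) : ℤ) + 1 := by push_cast; ring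
    rw [e1, e2] at h1
    exact ⟨⟨f', h1⟩, h2⟩
  choose nx hnx using step
  have h0 : Lev ε (ε ^ 0 * g) (4 * ((0 : ℕ) : ℤ) + 1) f := by
    have e1 : ε ^ 0 * g = g := by ring
    have e2 : (4 * ((0 : ℕ) : ℤ) + 1) = 1 := by norm_num
    rw [e1, e2]
    exact h
  let G : ∀ k : ℕ, {f : Arr // Lev ε (ε ^ k * g) (4 * (k : ℤ) + 1) f} :=
    fun k => Nat.rec ⟨f, h0⟩ (fun k x => nx k x) k
  exact ⟨fun k => (G k).1, rfl, fun k => ⟨(G k).2, hnx k (G k)⟩⟩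

theorem dl_eq (a : All5) (ε g : ℝ) (f : Arr) (hε : ε = 1 ∨ ε = -1) (h : Lev ε g 1 f) (N : ℕ) :
    dl f N = El ε g N := by
  obtain ⟨F, hF0, hF⟩ := seqF a ε g f hε h
  have hε2 : ∀ k : ℕ, (ε ^ k) ^ 2 = 1 := by
    intro k
    rw [← pow_mul, mul_comm, pow_mul]
    rcases hε with rfl | rfl <;> norm_num
  have key := a.lv4 ε g (fun k N => dl (F k) N) hε (fun k N hN => a.lv3 ε _ _ _ hε (hF k).1 N hN)
    (by
      intro k N
      have h1 := a.lv2 ε (ε ^ k * g) (4 * (k : ℤ) + 1) (F k) (F (k + 1)) hε (by omega) (hF k).1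
        (by
          have e1 : ε * (ε ^ k * g) = ε ^ (k + 1) * g := by ring
          have e2 : (4 * (k : ℤ) + 1 + 4) = 4 * ((k + 1 : ℕ) : ℤ) + 1 := by push_cast; ring
          rw [e1, e2]
          exact (hF (k + 1)).1) (hF k).2 N
      have e3 : (4 * (k : ℤ) + 1 + 2) = 4 * (k : ℤ) + 3 := by ring
      rw [e3] at h1
      have e4 : ε * (ε ^ k * g) ^ 2 = ε * g ^ 2 := by
        rw [mul_pow, hε2, one_mul]
      have e5 : ε * (ε ^ k * g) = ε ^ (k + 1) * g := by ring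
      have e6 : 2 * (ε ^ k * g) = 2 * ε ^ k * g := by ring
      have e7 : 2 * ε * (ε ^ k * g) = 2 * ε ^ (k + 1) * g := by ring
      rw [e4, e5, e6, e7] at h1
      exact h1) N
  simp only [hF0] at key
  exact key

section

variable {K : Type} [Field K] [Fintype K]

theorem sgn_sq (κ : ℕ) (n : ℤ) : (((-1 : ℝ) ^ κ) ^ n) * (((-1 : ℝ) ^ κ) ^ n) = 1 := by
  have h : ((-1 : ℝ) ^ κ) = 1 ∨ ((-1 : ℝ) ^ κ) = -1 := neg_one_pow_eq_or ℝ _
  rcases h with h | h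
  · rw [h, one_zpow, one_mul]
  · rw [h, ← mul_zpow]
    norm_num

theorem pr2 (a : All5) [CharP K 2] (κ : ℕ) (hκ : Fintype.card K = 2 ^ κ) :
    Pr2 ((-1) ^ κ) (Fintype.card K : ℝ) (g0 (fun _ => 1) (hh K κ)) (g1 (fun _ => 1) (hh K κ)) := by
  obtain ⟨hA, hB, hT⟩ := a.gb2 a.all2.all.exp a.lat2 a.lat2' a.root2 a.symU a.tw1 a.tw0 K (hh K κ)
    (ss K κ) (hypE a.all2.all κ)
  have hpsi : ∑ c : K, (psi c : ℝ) = 0 := by
    have := (a.psi K).2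
    exact_mod_cast this
  obtain ⟨hT0, hT1⟩ := hT (fun c => (psi c : ℝ)) hpsi
  obtain ⟨hu, hv⟩ := a.ga2 a.all2.all.ref a.par2 K κ hκ (hh K κ) (hypR a.all2.all κ)
  obtain ⟨hnu, hnv⟩ := a.gn2 a.all2.all.ref a.all2.all.ev a.par2 K κ hκ (hh K κ)
    (hypR a.all2.all κ) (hypV a.all2.all κ)
  refine ⟨?_, ?_, ?_, ?_, ?_, ?_, hA, hB, hnu, hnv⟩
  · intro n e hn
    unfold g0; rw [if_neg (by omega)]
  · intro n e hn
    unfold g1; rw [if_neg (by omega)]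
  · intro n e hn
    unfold g0; rw [if_neg (by omega)]
  · intro n e hn
    unfold g1; rw [if_neg (by omega)]
  · intro n e
    rw [hu n e, hu e n, ← mul_assoc, ← mul_assoc, sgn_sq, sgn_sq, one_mul, one_mul]
    exact hT0 n e
  · intro n e
    have e1 : (2 * n + 1 - e) = 2 * n + 2 - (e + 1) := by ring
    have e2 : (2 * e + 1 - n) = 2 * e + 2 - (n + 1) := by ring
    rw [e1, e2, hv n (e + 1), hv e (n + 1), ← mul_assoc, ← mul_assoc, sgn_sq, sgn_sq, one_mul,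
      one_mul]
    exact hT1 n e

theorem card_real {κ : ℕ} (hκ : Fintype.card K = 2 ^ κ) : (Fintype.card K : ℝ) = (2 : ℝ) ^ κ := by
  rw [hκ]
  push_cast
  rfl

/-- The derivatives of the arrays. -/
theorem D01 (a : All5) [CharP K 2] (κ : ℕ) (hκ : Fintype.card K = 2 ^ κ) (n : ℕ) :
    (-∑ e ∈ Finset.Icc (-(n : ℤ)) (3 * n + 2), (e : ℝ) * g1 (fun _ => 1) (hh K κ) n e =
      ∑ d ∈ (2 * n + 1).divisors, (jacobiSym (-(2 : ℤ) ^ κ) d : ℝ) *
        ((2 : ℝ) ^ κ) ^ (((2 * n + 1) / d - 1) / 2)) ∧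
    (-∑ e ∈ Finset.Icc (-(n : ℤ)) (3 * n + 2), (e : ℝ) * g0 (fun _ => 1) (hh K κ) n e =
      ∑ d ∈ n.divisors with d % 2 = 1, (jacobiSym (-1) d : ℝ) * ((2 : ℝ) ^ κ) ^ (n / d)) := by
  have hpos : (0 : ℝ) < (2 : ℝ) ^ κ := by positivity
  have hs : 0 < Real.sqrt ((2 : ℝ) ^ κ) := Real.sqrt_pos.2 hpos
  have hε : ((-1 : ℝ) ^ κ) = 1 ∨ ((-1 : ℝ) ^ κ) = -1 := neg_one_pow_eq_or ℝ _
  have h1 := pr2 a κ hκ
  rw [card_real hκ, ← Real.sq_sqrt hpos.le] at h1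
  obtain ⟨h2, h3⟩ := a.cmb _ (Real.sqrt ((2 : ℝ) ^ κ)) _ _ hε hs h1
  obtain ⟨h4, h5⟩ := h3 (n : ℤ)
  have h6 := dl_eq a _ _ _ hε h2 (2 * n)
  have h7 := dl_eq a _ _ _ hε h2 (2 * n + 1)
  obtain ⟨h8, h9⟩ := a.eld κ n
  rw [h8] at h7
  rw [h9] at h6
  push_cast at h6 h7
  rw [h6] at h4
  rw [h7] at h5
  constructor
  · have h10 : (2 * Real.sqrt ((2 : ℝ) ^ κ)) ≠ 0 := by positivity
    exact mul_left_cancel₀ h10 h5
  · exact mul_left_cancel₀ (two_ne_zero) h4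

theorem tr2 (n : ℕ) (f : ℤ → ℝ) : ∑ e ∈ Finset.Icc (-(n : ℤ)) (3 * n + 2), f e =
    ∑ k ∈ Finset.range (4 * n + 3), f ((k : ℤ) - n) := by
  symm
  refine Finset.sum_nbij' (fun k : ℕ => (k : ℤ) - n) (fun e : ℤ => (e + n).toNat) ?_ ?_ ?_ ?_ ?_
  · intro k hk
    simp only [Finset.mem_range, Finset.mem_Icc] at hk ⊢
    omega
  · intro e he
    simp only [Finset.mem_range, Finset.mem_Icc] at he ⊢
    omega
  · intro k _
    simp
  · intro e he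
    simp only [Finset.mem_Icc] at he
    omega
  · intro k _
    rfl

theorem sum_G1 (h : K[X] → ℕ → ℝ[X]) (n : ℕ)
    (hs : ∑ e ∈ Finset.Icc (-(n : ℤ)) (3 * n + 2), g1 (fun _ => 1) h n e = 0) :
    ∑ k ∈ Finset.range (4 * n + 3), (k : ℝ) * G1 (fun _ => 1) h n k =
      (Fintype.card K : ℝ) ^ (n + 1) *
        ∑ e ∈ Finset.Icc (-(n : ℤ)) (3 * n + 2), (e : ℝ) * g1 (fun _ => 1) h n e := by
  have hq : (0 : ℝ) < (Fintype.card K : ℝ) := cardpos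
  have hq0 : (Fintype.card K : ℝ) ^ (n + 1) ≠ 0 := (pow_pos hq _).ne'
  have hg : ∀ k : ℕ, g1 (fun _ => 1) h (n : ℤ) ((k : ℤ) - n) =
      ((Fintype.card K : ℝ) ^ (n + 1))⁻¹ * G1 (fun _ => 1) h n k := by
    intro k
    unfold g1
    rw [if_pos (by omega)]
    have : ((n : ℤ) + ((k : ℤ) - n)).toNat = k := by omega
    rw [this]
    simp
  rw [tr2] at hs ⊢
  have h1 : ∑ k ∈ Finset.range (4 * n + 3), G1 (fun _ => 1) h n k = 0 := by
    have : ∑ k ∈ Finset.range (4 * n + 3), g1 (fun _ => 1) h (n : ℤ) ((k : ℤ) - n) =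
        ((Fintype.card K : ℝ) ^ (n + 1))⁻¹ *
          ∑ k ∈ Finset.range (4 * n + 3), G1 (fun _ => 1) h n k := by
      rw [Finset.mul_sum]
      exact Finset.sum_congr rfl (fun k _ => hg k)
    rw [this] at hs
    exact (mul_eq_zero.1 hs).resolve_left (inv_ne_zero hq0)
  have h2 : ∀ k ∈ Finset.range (4 * n + 3), (((k : ℤ) - n : ℤ) : ℝ) *
      g1 (fun _ => 1) h (n : ℤ) ((k : ℤ) - n) = ((Fintype.card K : ℝ) ^ (n + 1))⁻¹ *
        ((k : ℝ) * G1 (fun _ => 1) h n k) -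
        ((Fintype.card K : ℝ) ^ (n + 1))⁻¹ * n * G1 (fun _ => 1) h n k := by
    intro k _
    rw [hg]
    push_cast
    ring
  rw [Finset.sum_congr rfl h2, Finset.sum_sub_distrib, ← Finset.mul_sum, ← Finset.mul_sum, h1]
  field_simp
  ring

theorem sum_G0 (h : K[X] → ℕ → ℝ[X]) (n : ℕ)
    (hs : ∑ e ∈ Finset.Icc (-(n : ℤ)) (3 * n + 2), g0 (fun _ => 1) h n e = 0) :
    ∑ k ∈ Finset.range (4 * n + 3), (k : ℝ) * G0 (fun _ => 1) h n k =
      (Fintype.card K : ℝ) ^ n *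
        ∑ e ∈ Finset.Icc (-(n : ℤ)) (3 * n + 2), (e : ℝ) * g0 (fun _ => 1) h n e := by
  have hq : (0 : ℝ) < (Fintype.card K : ℝ) := cardpos
  have hq0 : (Fintype.card K : ℝ) ^ n ≠ 0 := (pow_pos hq _).ne'
  have hg : ∀ k : ℕ, g0 (fun _ => 1) h (n : ℤ) ((k : ℤ) - n) =
      ((Fintype.card K : ℝ) ^ n)⁻¹ * G0 (fun _ => 1) h n k := by
    intro k
    unfold g0
    rw [if_pos (by omega)]
    have : ((n : ℤ) + ((k : ℤ) - n)).toNat = k := by omega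
    rw [this]
    simp
  rw [tr2] at hs ⊢
  have h1 : ∑ k ∈ Finset.range (4 * n + 3), G0 (fun _ => 1) h n k = 0 := by
    have : ∑ k ∈ Finset.range (4 * n + 3), g0 (fun _ => 1) h (n : ℤ) ((k : ℤ) - n) =
        ((Fintype.card K : ℝ) ^ n)⁻¹ *
          ∑ k ∈ Finset.range (4 * n + 3), G0 (fun _ => 1) h n k := by
      rw [Finset.mul_sum]
      exact Finset.sum_congr rfl (fun k _ => hg k)
    rw [this] at hs
    exact (mul_eq_zero.1 hs).resolve_left (inv_ne_zero hq0)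
  have h2 : ∀ k ∈ Finset.range (4 * n + 3), (((k : ℤ) - n : ℤ) : ℝ) *
      g0 (fun _ => 1) h (n : ℤ) ((k : ℤ) - n) = ((Fintype.card K : ℝ) ^ n)⁻¹ *
        ((k : ℝ) * G0 (fun _ => 1) h n k) -
        ((Fintype.card K : ℝ) ^ n)⁻¹ * n * G0 (fun _ => 1) h n k := by
    intro k _
    rw [hg]
    push_cast
    ring
  rw [Finset.sum_congr rfl h2, Finset.sum_sub_distrib, ← Finset.mul_sum, ← Finset.mul_sum, h1]
  field_simp
  ring

/-- The contribution of the squares vanishes unless `κ` and `n` are odd. -/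
theorem sum_irr0 (a : All2) {κ n : ℕ} (hn : 1 ≤ n) (h : ¬ (Odd κ ∧ Odd n)) :
    ∑ r ∈ n.divisors, (irr K r : ℝ) * r * sig K κ r (n / r) = 0 := by
  refine Finset.sum_eq_zero (fun r hr => ?_)
  have hrn := Nat.dvd_of_mem_divisors hr
  have hb : 1 ≤ n / r := Nat.div_pos (Nat.le_of_dvd hn hrn) (Nat.pos_of_dvd_of_pos hrn hn)
  have hsig : sig K κ r (n / r) = 0 := by
    rcases neg_one_pow_eq_or ℝ (κ * r) with h1 | h1
    · have h2 : ((-1 : ℝ) ^ κ) ^ r = 1 := by rw [← pow_mul]; exact h1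
      unfold sig
      rw [h2]
      have hsol := ca_sol a.all.exi 1 ((Fintype.card K : ℝ) ^ r)⁻¹ (Or.inl rfl)
      have hu : ∀ e : ℤ, (ca 1 ((Fintype.card K : ℝ) ^ r)⁻¹).1 ((n / r : ℕ) : ℤ)
          (2 * ((n / r : ℕ) : ℤ) - e) = (ca 1 ((Fintype.card K : ℝ) ^ r)⁻¹).1 ((n / r : ℕ) : ℤ) e := by
        intro e
        rw [hsol.pre.ua, one_zpow, one_mul]
      rw [du_sym hu (fun e he => hsol.pre.us _ _ he), hsol.N, if_neg (by omega)]
      ring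
    · have h2 : ((-1 : ℝ) ^ κ) ^ r = -1 := by rw [← pow_mul]; exact h1
      have h3 : Odd (κ * r) := by
        by_contra h3
        rw [Nat.not_odd_iff_even] at h3
        rw [h3.neg_one_pow] at h1
        norm_num at h1
      rw [Nat.odd_mul] at h3
      rw [sig_eq a h3.1 h3.2]
      have h4 : ¬ Odd (n / r) := by
        intro h4
        apply h
        refine ⟨h3.1, ?_⟩
        rw [← Nat.mul_div_cancel' hrn]
        exact h3.2.mul h4
      unfold Dc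
      rw [if_neg (by rw [← Nat.odd_iff]; exact h4), mul_zero]
  rw [hsig, mul_zero]

/-- The number of `u`. -/
noncomputable def pu (K : Type) [Field K] (M : ℕ) : ℕ :=
  {u : K[X] | u.Monic ∧ u.natDegree = M ∧ Irreducible (u ^ 2 + X * (derivative u) ^ 2)}.ncard

theorem glob3 (a : All5) [CharP K 2] (κ : ℕ) (hκ : Fintype.card K = 2 ^ κ) : G3 κ (pu K) := by
  intro n
  have h0 := (pr2 a κ hκ).nv n
  have h1 := sum_G1 (hh K κ) n h0
  rw [a.gd21 a.all2.all.ref a.all2.all.ev a.par2 K κ hκ (hh K κ) (rho K κ) (hypR a.all2.all κ)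
    (hypV a.all2.all κ) (der a.all2.all κ) n] at h1
  rw [← (D01 a κ hκ n).1, mul_neg, ← card_real hκ, ← h1, ← Finset.sum_neg_distrib]
  refine Finset.sum_congr rfl (fun m _ => ?_)
  have h2 : pu K (2 * m + 1) = pi1 K m := (a.bru K m).1
  have h3 : ((-1 : ℝ) ^ κ) ^ (4 * m + 2) = 1 := by
    rw [← pow_mul, show κ * (4 * m + 2) = 2 * (κ * (2 * m + 1)) by ring, pow_mul]
    norm_num
  rw [h2]
  unfold rho
  rw [h3]
  split_ifs <;> ring

theorem glob4 (a : All5) [CharP K 2] (κ : ℕ) (hκ : Fintype.card K = 2 ^ κ) : G4 κ (pu K) := by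
  intro n hn
  have h0 := (pr2 a κ hκ).nu n
  rw [if_neg (by omega)] at h0
  have h1 := sum_G0 (hh K κ) n h0
  rw [a.gd20 a.all2.all.ref a.all2.all.ev a.all2.ev2 a.par2 K κ hκ (hh K κ) (rho K κ) (sig K κ)
    (hypR a.all2.all κ) (hypV a.all2.all κ) (der a.all2.all κ) (der2 a.all2 κ) n hn] at h1
  have h2 : ∑ r ∈ n.divisors, (irr K r : ℝ) * r * sig K κ r (n / r) =
      -(if Odd κ ∧ Odd n then 2 * ((2 : ℝ) ^ κ) ^ n *
        ∑ c ∈ n.divisors, (jacobiSym (-1) (n / c) : ℝ) else 0) := by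
    by_cases h : Odd κ ∧ Odd n
    · rw [if_pos h, sum_irr a.all2 h.1 h.2, card_real hκ]
      ring
    · rw [if_neg h, sum_irr0 a.all2 hn h, neg_zero]
  have h3 : ∑ m ∈ n.divisors, (if n / m % 4 = 1 then
        (pi0 K m : ℝ) * (4 * m) * rho K κ (4 * m) ((n / m - 1) / 4) else 0) =
      -∑ m ∈ n.divisors, (if n / m % 4 = 1 then
      (pu K (2 * m) : ℝ) * (4 * m) * ((((2 : ℝ) ^ κ) ^ (4 * m)) ^ ((n / m - 1) / 4) *
        Cc 1 (((2 : ℝ) ^ κ) ^ (4 * m))⁻¹ ((n / m - 1) / 4)) else 0) := by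
    rw [← Finset.sum_neg_distrib]
    refine Finset.sum_congr rfl (fun m _ => ?_)
    have h4 : pu K (2 * m) = pi0 K m := (a.bru K m).2
    have h5 : ((-1 : ℝ) ^ κ) ^ (4 * m) = 1 := by
      rw [← pow_mul, show κ * (4 * m) = 2 * (κ * (2 * m)) by ring, pow_mul]
      norm_num
    rw [h4]
    unfold rho
    rw [h5, card_real hκ]
    split_ifs <;> ring
  rw [h2, h3] at h1
  have h6 := (D01 a κ hκ n).2
  rw [card_real hκ] at h1
  rw [← h6]
  linarith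

theorem idu (a : All5) [CharP K 2] (κ : ℕ) (hκ : Fintype.card K = 2 ^ κ) (M : ℕ) (hM : 1 ≤ M) :
    IdU κ (pu K) M :=
  a.cvu a.all2.cdiv κ (pu K) (glob3 a κ hκ) (glob4 a κ hκ) M hM

end

end Pool.Agent.H525.EX
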