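import Mathlib
import Pool.Agent.H525.EX.Total2
import Pool.Agent.H525.EX.Global3
import Pool.Agent.H268.EX.PAR2
import Pool.Agent.H670.EX.PSI
import Pool.Agent.H279.EX.ROOT2
import Pool.Agent.H134.EX.SYMU
import Pool.Agent.H181.EX.TW1
import Pool.Agent.H200.EX.TW0
import Pool.Agent.H16.EX.LAT2
import Pool.Agent.H199.EX.LAT2P
import Pool.Agent.H740.EX.GB2
import Pool.Agent.H118.EX.GA2
import Pool.Agent.H23.EX.GN2
import Pool.Agent.H345.EX.GD21
import Pool.Agent.H231.EX.GD20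
import Pool.Agent.H734.EX.LV1
import Pool.Agent.H51.EX.LV2
import Pool.Agent.H996.EX.LV3
import Pool.Agent.H696.EX.LV4
import Pool.Agent.H914.EX.CMB
import Pool.Agent.H981.EX.ELD
import Pool.Agent.H50.EX.CVU
import Pool.Agent.H118.EX.BDU
import Pool.Agent.H356.EX.BRU

/-!
# Project EX (helper525): all statements of parts V and VI
-/

namespace Pool.Agent.H525.EX

theorem all5 : All5 :=
  ⟨all2, Pool.Agent.H670.EX.t_psi, Pool.Agent.H279.EX.t_root2, Pool.Agent.H134.EX.t_symU,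
    Pool.Agent.H181.EX.t_tw1, Pool.Agent.H200.EX.t_tw0, Pool.Agent.H16.EX.t_lat2,
    Pool.Agent.H199.EX.t_lat2', Pool.Agent.H740.EX.t_gb2, Pool.Agent.H268.EX.t_par2,
    Pool.Agent.H118.EX.t_ga2, Pool.Agent.H23.EX.t_gn2, Pool.Agent.H345.EX.t_gd21,
    Pool.Agent.H231.EX.t_gd20, Pool.Agent.H734.EX.t_lv1, Pool.Agent.H51.EX.t_lv2,
    Pool.Agent.H996.EX.t_lv3, Pool.Agent.H696.EX.t_lv4, Pool.Agent.H914.EX.t_cmb,
    Pool.Agent.H981.EX.t_eld, Pool.Agent.H50.EX.t_cvu, Pool.Agent.H118.EX.t_bdu,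
    Pool.Agent.H356.EX.t_bru⟩

end Pool.Agent.H525.EX
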