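import Mathlib
import Pool.Agent.H525.EX.Total3
import Pool.Agent.H928.EX.BRG

/-!
# Project EX (helper525): preparations for the final theorem on `u ^ 2 + c (u') ^ 2`
-/

namespace Pool.Agent.H525.EX

open Polynomial
open Pool.Agent.H525.QF
open scoped Classical

section

variable {K : Type} [Field K] [Fintype K]

theorem pi1_le (m : ℕ) : pi1 K m ≤ Fintype.card K ^ (2 * m + 1) := by
  unfold pi1
  refine (Finset.card_filter_le _ _).trans ?_
  rw [Finset.card_product, card_lt, card_mon, ← pow_add]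
  exact (pow_right_mono₀ Fintype.card_pos) (by omega)

theorem pi0_le (m : ℕ) : pi0 K m ≤ Fintype.card K ^ (2 * m) := by
  unfold pi0
  refine (Finset.card_filter_le _ _).trans ?_
  rw [Finset.card_product, card_lt, card_mon, ← pow_add]
  exact (pow_right_mono₀ Fintype.card_pos) (by omega)

theorem pu_le [CharP K 2] (M : ℕ) : pu K M ≤ Fintype.card K ^ M := by
  rcases Nat.even_or_odd' M with ⟨m, hm | hm⟩
  · rw [hm, show pu K (2 * m) = pi0 K m from (all5.bru K m).2]
    exact pi0_le m
  · rw [hm, show pu K (2 * m + 1) = pi1 K m from (all5.bru K m).1]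
    exact pi1_le m

/-- The shape of `c`. -/
theorem c_eq {c : K[X]} (hc : c.natDegree ≤ 2) (hc1 : derivative c = 1) :
    c = C (c.coeff 2) * X ^ 2 + X + C (c.coeff 0) := by
  have h1 : c.coeff 1 = 1 := by
    have h := congrArg (fun p : K[X] => p.coeff 0) hc1
    simp only [coeff_derivative, coeff_one_zero] at h
    simpa using h
  ext n
  rcases n with _ | _ | _ | n
  · simp
  · simp [h1, coeff_X, coeff_C]
  · simp [coeff_X, coeff_C]
  · rw [coeff_eq_zero_of_natDegree_lt (by omega)]
    simp [coeff_X, coeff_C, coeff_X_pow]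

/-- The number of prime values does not depend on `c`. -/
theorem ncard_c [CharP K 2] {c : K[X]} (hc : c.natDegree ≤ 2) (hc1 : derivative c = 1)
    (hc2 : c.coeff 2 ≠ 1) (M : ℕ) :
    {u : K[X] | u.Monic ∧ u.natDegree = M ∧
      Irreducible (u ^ 2 + c * (derivative u) ^ 2)}.ncard = pu K M := by
  rw [c_eq hc hc1]
  rcases Nat.even_or_odd' M with ⟨m, hm | hm⟩
  · rw [hm, show pu K (2 * m) = pi0 K m from (all5.bru K m).2]
    exact ((Pool.Agent.H928.EX.t_brg K _ _ m).1 hc2).2
  · rw [hm, show pu K (2 * m + 1) = pi1 K m from (all5.bru K m).1]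
    exact ((Pool.Agent.H928.EX.t_brg K _ _ m).1 hc2).1

omit [Fintype K] in
/-- Injectivity. -/
theorem inj_c [CharP K 2] {c : K[X]} (hc1 : derivative c = 1) (u w : K[X])
    (h : u ^ 2 + c * (derivative u) ^ 2 = w ^ 2 + c * (derivative w) ^ 2) : u = w := by
  have h2 : (2 : K[X]) = 0 := by
    have := CharP.cast_eq_zero K[X] 2
    exact_mod_cast this
  have hd : ∀ z : K[X], derivative (z ^ 2 + c * (derivative z) ^ 2) = (derivative z) ^ 2 := by
    intro z
    rw [derivative_add, derivative_mul, derivative_pow, derivative_pow, hc1]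
    have : ((2 : ℕ) : K) = 0 := by
      have := CharP.cast_eq_zero K 2
      exact this
    rw [this, C_0]
    ring
  have h3 : (derivative u) ^ 2 = (derivative w) ^ 2 := by
    rw [← hd u, ← hd w, h]
  have h4 : u ^ 2 = w ^ 2 := by
    rw [h3] at h
    exact add_right_cancel h
  have h5 : (u - w) ^ 2 = 0 := by
    have : (u - w) ^ 2 = u ^ 2 - w ^ 2 + 2 * (w ^ 2 - u * w) := by ring
    rw [this, h4, h2]
    ring
  exact sub_eq_zero.1 (pow_eq_zero_iff (two_ne_zero)|>.1 h5)

omit [Fintype K] in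
/-- The degree. -/
theorem deg_c [CharP K 2] {c : K[X]} (hc : c.natDegree ≤ 2) (hc2 : c.coeff 2 ≠ 1) (u : K[X]) :
    (u ^ 2 + c * (derivative u) ^ 2).natDegree = 2 * u.natDegree := by
  have h2 : (2 : K) = 0 := by
    have := CharP.cast_eq_zero K 2
    exact_mod_cast this
  by_cases hu : u = 0
  · rw [hu]; simp
  rcases Nat.eq_zero_or_pos u.natDegree with h0 | hpos
  · rw [eq_C_of_natDegree_eq_zero h0]
    simp
  obtain ⟨m, hm⟩ : ∃ m, u.natDegree = m + 1 := ⟨u.natDegree - 1, by omega⟩
  have hd : (derivative u).natDegree ≤ m := (natDegree_derivative_le u).trans (by omega)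
  have hsq : ((derivative u) ^ 2).natDegree ≤ 2 * m := natDegree_pow_le_of_le 2 hd
  have hle : (u ^ 2 + c * (derivative u) ^ 2).natDegree ≤ 2 * u.natDegree := by
    refine (natDegree_add_le _ _).trans (max_le (natDegree_pow_le_of_le 2 le_rfl) ?_)
    refine natDegree_mul_le.trans ?_
    omega
  have hco : (u ^ 2 + c * (derivative u) ^ 2).coeff (2 * u.natDegree) =
      u.leadingCoeff ^ 2 * (1 + c.coeff 2 * ((m + 1 : ℕ) : K) ^ 2) := by
    rw [coeff_add, show 2 * u.natDegree = 2 + 2 * m by omega,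
      coeff_mul_add_eq_of_natDegree_le hc hsq, coeff_pow_of_natDegree_le hd, coeff_derivative,
      show 2 + 2 * m = 2 * u.natDegree by omega, coeff_pow_of_natDegree_le le_rfl, ← hm]
    rw [show u.coeff u.natDegree = u.leadingCoeff from rfl, hm]
    push_cast
    ring
  refine le_antisymm hle (le_natDegree_of_ne_zero ?_)
  rw [hco]
  refine mul_ne_zero (pow_ne_zero _ (leadingCoeff_ne_zero.2 hu)) ?_
  rcases Nat.even_or_odd (m + 1) with h | h
  · obtain ⟨k, hk⟩ := h
    have : ((m + 1 : ℕ) : K) = 0 := by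
      rw [hk]
      push_cast
      linear_combination (k : K) * h2
    rw [this]
    simp
  · obtain ⟨k, hk⟩ := h
    have : ((m + 1 : ℕ) : K) = 1 := by
      rw [hk]
      push_cast
      linear_combination (k : K) * h2
    rw [this]
    intro h0
    apply hc2
    linear_combination h0 - h2

end

/-- Powers of two. -/
theorem idu_two {κ : ℕ} {p : ℕ → ℕ} {k : ℕ} (hk : 2 ≤ k) (h : IdU κ p (2 ^ k)) :
    2 * 2 ^ k * p (2 ^ k) = (2 ^ κ) ^ (2 ^ k) := by
  have h4 : 2 ^ k % 4 = 0 := by
    obtain ⟨j, rfl⟩ : ∃ j, k = j + 2 := ⟨k - 2, by omega⟩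
    rw [pow_add]
    omega
  have hne : (2 ^ k : ℕ) ≠ 0 := by positivity
  unfold IdU at h
  have e1 : (2 ^ k : ℕ).divisors.filter (fun f => 2 ^ k / f % 4 = 1) = {2 ^ k} := by
    ext f
    simp only [Finset.mem_filter, Nat.mem_divisors, Finset.mem_singleton]
    constructor
    · rintro ⟨⟨h1, _⟩, h2⟩
      obtain ⟨j, hj, rfl⟩ := (Nat.dvd_prime_pow Nat.prime_two).1 h1
      rw [Nat.pow_div hj (by norm_num)] at h2
      have : k - j = 0 := by
        by_contra h3
        obtain ⟨i, hi⟩ : ∃ i, k - j = i + 1 := ⟨k - j - 1, by omega⟩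
        rw [hi, pow_succ] at h2
        omega
      rw [show j = k by omega]
    · rintro rfl
      exact ⟨⟨dvd_rfl, hne⟩, by rw [Nat.div_self (by positivity)]⟩
  have e2 : (2 ^ k : ℕ).divisors.filter (fun d => d % 2 = 1) = {1} := by
    ext d
    simp only [Finset.mem_filter, Nat.mem_divisors, Finset.mem_singleton]
    constructor
    · rintro ⟨⟨h1, _⟩, h2⟩
      obtain ⟨j, hj, rfl⟩ := (Nat.dvd_prime_pow Nat.prime_two).1 h1
      rcases Nat.eq_zero_or_pos j with h3 | h3
      · rw [h3, pow_zero]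
      · exfalso
        obtain ⟨i, hi⟩ : ∃ i, j = i + 1 := ⟨j - 1, by omega⟩
        rw [hi, pow_succ] at h2
        omega
    · rintro rfl
      exact ⟨⟨one_dvd _, hne⟩, rfl⟩
  rw [e1, e2, Finset.sum_singleton, Finset.sum_singleton, Nat.div_self (by positivity),
    Nat.divisors_one, Finset.sum_singleton, if_neg (by omega)] at h
  simp only [jacobiSym.one_right, Nat.div_one, Nat.sub_self, mul_zero, Nat.zero_div, pow_zero,
    mul_one, one_mul, sub_zero] at h
  have e3 : (2 ^ k + 2 ^ k) / 2 = 2 ^ k := by omega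
  rw [e3] at h
  exact_mod_cast h

end Pool.Agent.H525.EX
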