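import Mathlib
import Pool.Agent.H525.EX.Final3
import Pool.Agent.H525.EX.Stm8

/-!
# Project EX (helper525): the exact formula with prescribed second coefficient
-/

namespace Pool.Agent.H525.EX

open Polynomial
open Pool.Agent.H525.QF
open Pool.Agent.H985.Chow (mob)
open scoped Classical

/-- The statements of part VIII. -/
structure All8 : Prop where
  all5 : All5
  ga3 : S_ga3
  gn3 : S_gn3
  gd31 : S_gd31
  gd30 : S_gd30
  arr : S_arr
  cla : S_cla
  brb : S_brb

section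

variable {K : Type} [Field K] [Fintype K]

theorem sum_G1w (ω : K → ℝ) (h : K[X] → ℕ → ℝ[X]) (n : ℕ)
    (hs : ∑ e ∈ Finset.Icc (-(n : ℤ)) (3 * n + 2), g1 ω h n e = 0) :
    ∑ k ∈ Finset.range (4 * n + 3), (k : ℝ) * G1 ω h n k =
      (Fintype.card K : ℝ) ^ (n + 1) *
        ∑ e ∈ Finset.Icc (-(n : ℤ)) (3 * n + 2), (e : ℝ) * g1 ω h n e := by
  have hq : (0 : ℝ) < (Fintype.card K : ℝ) := cardpos
  have hq0 : (Fintype.card K : ℝ) ^ (n + 1) ≠ 0 := (pow_pos hq _).ne'
  have hg : ∀ k : ℕ, g1 ω h (n : ℤ) ((k : ℤ) - n) =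
      ((Fintype.card K : ℝ) ^ (n + 1))⁻¹ * G1 ω h n k := by
    intro k
    unfold g1
    rw [if_pos (by omega)]
    have : ((n : ℤ) + ((k : ℤ) - n)).toNat = k := by omega
    rw [this]
    simp
  rw [tr2] at hs ⊢
  have h1 : ∑ k ∈ Finset.range (4 * n + 3), G1 ω h n k = 0 := by
    have : ∑ k ∈ Finset.range (4 * n + 3), g1 ω h (n : ℤ) ((k : ℤ) - n) =
        ((Fintype.card K : ℝ) ^ (n + 1))⁻¹ *
          ∑ k ∈ Finset.range (4 * n + 3), G1 ω h n k := by
      rw [Finset.mul_sum]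
      exact Finset.sum_congr rfl (fun k _ => hg k)
    rw [this] at hs
    exact (mul_eq_zero.1 hs).resolve_left (inv_ne_zero hq0)
  have h2 : ∀ k ∈ Finset.range (4 * n + 3), (((k : ℤ) - n : ℤ) : ℝ) *
      g1 ω h (n : ℤ) ((k : ℤ) - n) = ((Fintype.card K : ℝ) ^ (n + 1))⁻¹ *
        ((k : ℝ) * G1 ω h n k) -
        ((Fintype.card K : ℝ) ^ (n + 1))⁻¹ * n * G1 ω h n k := by
    intro k _
    rw [hg]
    push_cast
    ring
  rw [Finset.sum_congr rfl h2, Finset.sum_sub_distrib, ← Finset.mul_sum, ← Finset.mul_sum, h1]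
  field_simp
  ring

theorem sum_G0w (ω : K → ℝ) (h : K[X] → ℕ → ℝ[X]) (n : ℕ)
    (hs : ∑ e ∈ Finset.Icc (-(n : ℤ)) (3 * n + 2), g0 ω h n e = 0) :
    ∑ k ∈ Finset.range (4 * n + 3), (k : ℝ) * G0 ω h n k =
      (Fintype.card K : ℝ) ^ n *
        ∑ e ∈ Finset.Icc (-(n : ℤ)) (3 * n + 2), (e : ℝ) * g0 ω h n e := by
  have hq : (0 : ℝ) < (Fintype.card K : ℝ) := cardpos
  have hq0 : (Fintype.card K : ℝ) ^ n ≠ 0 := (pow_pos hq _).ne'
  have hg : ∀ k : ℕ, g0 ω h (n : ℤ) ((k : ℤ) - n) =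
      ((Fintype.card K : ℝ) ^ n)⁻¹ * G0 ω h n k := by
    intro k
    unfold g0
    rw [if_pos (by omega)]
    have : ((n : ℤ) + ((k : ℤ) - n)).toNat = k := by omega
    rw [this]
    simp
  rw [tr2] at hs ⊢
  have h1 : ∑ k ∈ Finset.range (4 * n + 3), G0 ω h n k = 0 := by
    have : ∑ k ∈ Finset.range (4 * n + 3), g0 ω h (n : ℤ) ((k : ℤ) - n) =
        ((Fintype.card K : ℝ) ^ n)⁻¹ *
          ∑ k ∈ Finset.range (4 * n + 3), G0 ω h n k := by
      rw [Finset.mul_sum]
      exact Finset.sum_congr rfl (fun k _ => hg k)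
    rw [this] at hs
    exact (mul_eq_zero.1 hs).resolve_left (inv_ne_zero hq0)
  have h2 : ∀ k ∈ Finset.range (4 * n + 3), (((k : ℤ) - n : ℤ) : ℝ) *
      g0 ω h (n : ℤ) ((k : ℤ) - n) = ((Fintype.card K : ℝ) ^ n)⁻¹ *
        ((k : ℝ) * G0 ω h n k) -
        ((Fintype.card K : ℝ) ^ n)⁻¹ * n * G0 ω h n k := by
    intro k _
    rw [hg]
    push_cast
    ring
  rw [Finset.sum_congr rfl h2, Finset.sum_sub_distrib, ← Finset.mul_sum, ← Finset.mul_sum, h1]
  field_simp
  ring

/-- The weighted sums are diagonal, so their derivatives vanish. -/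
theorem zero_w (a : All8) [CharP K 2] (κ : ℕ) (hκ : Fintype.card K = 2 ^ κ) (ω : K → ℝ)
    (hω : ∑ b : K, ω b = 0) (hω' : ∑ b : K, ω b * (psi b : ℝ) = 0) :
    (∀ n : ℕ, ∑ k ∈ Finset.range (4 * n + 3), (k : ℝ) * G1 ω (hh K κ) n k = 0) ∧
    (∀ n : ℕ, 1 ≤ n → ∑ k ∈ Finset.range (4 * n + 3), (k : ℝ) * G0 ω (hh K κ) n k = 0) := by
  have hε : ((-1 : ℝ) ^ κ) = 1 ∨ ((-1 : ℝ) ^ κ) = -1 := neg_one_pow_eq_or ℝ _
  obtain ⟨-, -, hT⟩ := a.all5.gb2 a.all5.all2.all.exp a.all5.lat2 a.all5.lat2' a.all5.root2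
    a.all5.symU a.all5.tw1 a.all5.tw0 K (hh K κ) (ss K κ) (hypE a.all5.all2.all κ)
  obtain ⟨h00, h01⟩ := hT ω hω
  obtain ⟨h10, h11⟩ := hT (fun c => ω c * (psi c : ℝ)) hω'
  obtain ⟨hu, hv⟩ := a.ga3 a.all5.all2.all.ref a.all5.par2 K κ hκ (hh K κ)
    (hypR a.all5.all2.all κ) ω
  obtain ⟨hnu, hnv⟩ := a.gn3 a.all5.all2.all.ref a.all5.all2.all.ev a.all5.par2 K κ hκ (hh K κ)
    (hypR a.all5.all2.all κ) (hypV a.all5.all2.all κ) ω
  constructor
  · intro n
    have key := a.arr ((-1) ^ κ) (fun n e => g1 ω (hh K κ) n (e + 1)) hε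
      (by intro n e hn; show g1 ω (hh K κ) n (e + 1) = 0; unfold g1; rw [if_neg (by omega)])
      (fun n e => h01 n e)
      (by
        intro n e
        show ((-1 : ℝ) ^ κ) ^ n * g1 ω (hh K κ) n (2 * n - e + 1) =
          ((-1 : ℝ) ^ κ) ^ e * g1 ω (hh K κ) e (2 * e - n + 1)
        have e1 : (2 * n - e + 1) = 2 * n + 2 - (e + 1) := by ring
        have e2 : (2 * e - n + 1) = 2 * e + 2 - (n + 1) := by ring
        rw [e1, e2, hv n (e + 1), hv e (n + 1), ← mul_assoc, ← mul_assoc, sgn_sq, sgn_sq, one_mul,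
          one_mul]
        exact h11 n e)
    have h1 : ∀ e : ℤ, e ≠ n + 1 → g1 ω (hh K κ) n e = 0 := by
      intro e he
      have := key n (e - 1) (by omega)
      simpa using this
    have h2 := hnv n
    have hmem : ((n : ℤ) + 1) ∈ Finset.Icc (-(n : ℤ)) (3 * n + 2) := by
      rw [Finset.mem_Icc]; omega
    rw [Finset.sum_eq_single_of_mem _ hmem (fun e _ he => h1 e he)] at h2
    rw [sum_G1w ω (hh K κ) n (hnv n)]
    rw [Finset.sum_eq_zero, mul_zero]
    intro e _
    by_cases he : e = n + 1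
    · rw [he, h2, mul_zero]
    · rw [h1 e he, mul_zero]
  · intro n hn
    have key := a.arr ((-1) ^ κ) (g0 ω (hh K κ)) hε
      (by intro n e hn; unfold g0; rw [if_neg (by omega)]) h00
      (by
        intro n e
        rw [hu n e, hu e n, ← mul_assoc, ← mul_assoc, sgn_sq, sgn_sq, one_mul, one_mul]
        exact h10 n e)
    have h2 := hnu n
    rw [if_neg (by omega)] at h2
    have h3 := h2
    have hmem : (n : ℤ) ∈ Finset.Icc (-(n : ℤ)) (3 * n + 2) := by
      rw [Finset.mem_Icc]; omega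
    rw [Finset.sum_eq_single_of_mem _ hmem (fun e _ he => key n e he)] at h2
    rw [sum_G0w ω (hh K κ) n h3]
    rw [Finset.sum_eq_zero, mul_zero]
    intro e _
    by_cases he : e = n
    · rw [he, h2, mul_zero]
    · rw [key n e he, mul_zero]

/-- Linearity. -/
theorem p1_lin (ω : K → ℝ) (m : ℕ) :
    p1 ω m = ∑ b : K, ω b * p1 (fun a => if a = b then 1 else 0) m := by
  unfold p1
  simp only [Finset.mul_sum]
  rw [Finset.sum_comm]
  refine Finset.sum_congr rfl (fun v _ => ?_)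
  rw [Finset.sum_eq_single (v.1.coeff m)]
  · simp
  · intro b _ hb
    rw [if_neg (Ne.symm hb), mul_zero]
  · intro h
    exact absurd (Finset.mem_univ _) h

theorem p0_lin (ω : K → ℝ) (m : ℕ) :
    p0 ω m = ∑ b : K, ω b * p0 (fun a => if a = b then 1 else 0) m := by
  unfold p0
  simp only [Finset.mul_sum]
  rw [Finset.sum_comm]
  refine Finset.sum_congr rfl (fun v _ => ?_)
  rw [Finset.sum_eq_single (v.2.coeff (m - 1))]
  · simp
  · intro b _ hb
    rw [if_neg (Ne.symm hb), mul_zero]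
  · intro h
    exact absurd (Finset.mem_univ _) h

theorem p1_zero (a : All8) [CharP K 2] (κ : ℕ) (hκ : Fintype.card K = 2 ^ κ) (ω : K → ℝ)
    (hω : ∑ b : K, ω b = 0) (hω' : ∑ b : K, ω b * (psi b : ℝ) = 0) (n : ℕ) : p1 ω n = 0 := by
  induction n using Nat.strong_induction_on with
  | _ n ih =>
    have h1 := (zero_w a κ hκ ω hω hω').1 n
    rw [a.gd31 a.all5.all2.all.ref a.all5.all2.all.ev a.all5.par2 K κ hκ (hh K κ) (rho K κ)
      (hypR a.all5.all2.all κ) (hypV a.all5.all2.all κ) (der a.all5.all2.all κ) ω n,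
      Finset.sum_range_succ, Finset.sum_eq_zero, zero_add] at h1
    · rw [if_pos ⟨dvd_rfl, by rw [Nat.div_self (by omega)]⟩, Nat.div_self (by omega)] at h1
      have h2 : rho K κ (4 * n + 2) ((1 - 1) / 4) = -1 := by
        unfold rho Cc
        simp
      rw [h2] at h1
      have h3 : (4 * (n : ℝ) + 2) ≠ 0 := by positivity
      have h4 : p1 ω n * (4 * (n : ℝ) + 2) = 0 := by linarith
      exact (mul_eq_zero.1 h4).resolve_right h3
    · intro m hm
      rw [Finset.mem_range] at hm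
      rw [ih m hm]
      split_ifs <;> ring

/-- Irreducible values have Möbius value `-1`. -/
theorem copr {v : K[X] × K[X]} (h : Irreducible (F2 v)) : IsCoprime v.1 v.2 := by
  by_contra hn
  rw [← EuclideanDomain.gcd_isUnit_iff] at hn
  set g := EuclideanDomain.gcd v.1 v.2 with hg
  obtain ⟨a, ha⟩ := EuclideanDomain.gcd_dvd_left v.1 v.2
  obtain ⟨b, hb⟩ := EuclideanDomain.gcd_dvd_right v.1 v.2
  have h1 : F2 v = g * (g ^ 3 * (a ^ 4 + (X ^ 2 + X) * b ^ 4)) := by
    unfold F2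
    rw [← hg] at ha hb
    rw [ha, hb]
    ring
  rw [h1] at h
  rcases h.isUnit_or_isUnit rfl with h2 | h2
  · exact hn h2
  · have h3 : IsUnit (g ^ 3) := isUnit_of_mul_isUnit_left h2
    exact hn ((isUnit_pow_iff (by norm_num)).1 h3)

theorem bad1 (a : All5) [CharP K 2] (κ : ℕ) (hκ : Fintype.card K = 2 ^ κ) (m : ℕ) (b : K)
    (hb : ((-1 : ℝ) ^ (κ * m)) * (psi b : ℝ) = 1) :
    p1 (fun x => if x = b then 1 else 0) m = 0 := by
  unfold p1
  refine Finset.sum_eq_zero (fun v hv => ?_)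
  rw [Finset.mem_filter, Finset.mem_product] at hv
  obtain ⟨⟨h1, h2⟩, h3⟩ := hv
  show (if v.1.coeff m = b then (1 : ℝ) else 0) = 0
  rw [if_neg]
  intro h4
  have h5 := ((a.par2 K κ hκ m v (copr h3)).1 h1 h2).2
  rw [h4, Pool.Agent.H870.QF.mob_irr h3] at h5
  have h6 : ((-1 : ℝ) ^ (κ * m)) * (psi b : ℝ) = -1 := by exact_mod_cast h5.symm
  linarith

theorem bad0 (a : All5) [CharP K 2] (κ : ℕ) (hκ : Fintype.card K = 2 ^ κ) (m : ℕ) (b : K)
    (hb : ((-1 : ℝ) ^ (κ * m)) * (psi b : ℝ) = 1) :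
    p0 (fun x => if x = b then 1 else 0) m = 0 := by
  unfold p0
  refine Finset.sum_eq_zero (fun v hv => ?_)
  rw [Finset.mem_filter, Finset.mem_product] at hv
  obtain ⟨⟨h1, h2⟩, h3⟩ := hv
  show (if v.2.coeff (m - 1) = b then (1 : ℝ) else 0) = 0
  rw [if_neg]
  intro h4
  have h5 := ((a.par2 K κ hκ m v (copr h3)).2 h1 h2).2
  rw [h4, Pool.Agent.H870.QF.mob_irr h3] at h5
  have h6 : ((-1 : ℝ) ^ (κ * m)) * (psi b : ℝ) = -1 := by exact_mod_cast h5.symm
  linarith

/-- The first kind. -/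
theorem ref1 (a : All8) [CharP K 2] (κ : ℕ) (hκ : Fintype.card K = 2 ^ κ) (m : ℕ) (b : K) :
    (Fintype.card K : ℝ) * p1 (fun x => if x = b then 1 else 0) m =
      (1 - (-1 : ℝ) ^ (κ * m) * (psi b : ℝ)) * pi1 K m := by
  have h := a.cla a.all5.psi K (fun b => p1 (fun x => if x = b then 1 else 0) m)
    ((-1) ^ (κ * m)) (neg_one_pow_eq_or ℝ _)
    (fun ω h1 h2 => by
      rw [← p1_lin]
      exact p1_zero a κ hκ ω h1 h2 m)
    (fun b hb => bad1 a.all5 κ hκ m b hb) b
  have h2 := p1_lin (fun _ : K => (1 : ℝ)) m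
  rw [(a.brb K).2.2.2.1 m] at h2
  simp only [one_mul] at h2
  rw [h2]
  exact h

/-- The second kind. -/
theorem ref0 (a : All8) [CharP K 2] (κ : ℕ) (hκ : Fintype.card K = 2 ^ κ) (n : ℕ) (hn : 1 ≤ n)
    (b : K) :
    (Fintype.card K : ℝ) * ((∑ m ∈ n.divisors, (if n / m % 4 = 1 then
        p0 (fun x => if x = b then 1 else 0) m * (4 * m) * (-rho K κ (4 * m) ((n / m - 1) / 4))
        else 0)) +
      (if b = 0 then (if Odd κ ∧ Odd n then 2 * ((2 : ℝ) ^ κ) ^ n *
        ∑ c ∈ n.divisors, (jacobiSym (-1) (n / c) : ℝ) else 0) else 0)) =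
      (1 - (-1 : ℝ) ^ (κ * n) * (psi b : ℝ)) * (((2 : ℝ) ^ κ) ^ n *
        ∑ d ∈ n.divisors with d % 2 = 1, (jacobiSym (-1) d : ℝ) * ((2 : ℝ) ^ κ) ^ (n / d)) := by
  set E : ℝ := (if Odd κ ∧ Odd n then 2 * ((2 : ℝ) ^ κ) ^ n *
        ∑ c ∈ n.divisors, (jacobiSym (-1) (n / c) : ℝ) else 0) with hE
  have hirr : ∑ r ∈ n.divisors, (irr K r : ℝ) * r * sig K κ r (n / r) = -E := by
    by_cases h : Odd κ ∧ Odd n
    · rw [hE, if_pos h, sum_irr a.all5.all2 h.1 h.2, card_real hκ]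
      ring
    · rw [hE, if_neg h, sum_irr0 a.all5.all2 hn h, neg_zero]
  have h := a.cla a.all5.psi K (fun b => (∑ m ∈ n.divisors, (if n / m % 4 = 1 then
        p0 (fun x => if x = b then 1 else 0) m * (4 * m) * (-rho K κ (4 * m) ((n / m - 1) / 4))
        else 0)) + (if b = 0 then E else 0))
    ((-1) ^ (κ * n)) (neg_one_pow_eq_or ℝ _)
    (fun ω h1 h2 => by
      have h3 := (zero_w a κ hκ ω h1 h2).2 n hn
      rw [a.gd30 a.all5.all2.all.ref a.all5.all2.all.ev a.all5.all2.ev2 a.all5.par2 K κ hκ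
        (hh K κ) (rho K κ) (sig K κ) (hypR a.all5.all2.all κ) (hypV a.all5.all2.all κ)
        (der a.all5.all2.all κ) (der2 a.all5.all2 κ) ω n hn, hirr] at h3
      have h4 : ∑ b : K, ω b * ((∑ m ∈ n.divisors, (if n / m % 4 = 1 then
        p0 (fun x => if x = b then 1 else 0) m * (4 * m) * (-rho K κ (4 * m) ((n / m - 1) / 4))
        else 0)) + (if b = 0 then E else 0)) =
        (∑ m ∈ n.divisors, (if n / m % 4 = 1 then
        p0 ω m * (4 * m) * (-rho K κ (4 * m) ((n / m - 1) / 4)) else 0)) + ω 0 * E := by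
        simp only [mul_add, Finset.sum_add_distrib, Finset.mul_sum]
        congr 1
        · rw [Finset.sum_comm]
          refine Finset.sum_congr rfl (fun m _ => ?_)
          split_ifs
          · rw [p0_lin ω m, Finset.sum_mul, Finset.sum_mul]
            exact Finset.sum_congr rfl (fun b _ => by ring)
          · simp
        · rw [Finset.sum_eq_single (0 : K)]
          · simp
          · intro b _ hb
            rw [if_neg hb, mul_zero]
          · intro h
            exact absurd (Finset.mem_univ _) h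
      rw [h4]
      have h5 : (∑ m ∈ n.divisors, (if n / m % 4 = 1 then
        p0 ω m * (4 * m) * (-rho K κ (4 * m) ((n / m - 1) / 4)) else 0)) =
        -(∑ m ∈ n.divisors, (if n / m % 4 = 1 then
        p0 ω m * (4 * m) * rho K κ (4 * m) ((n / m - 1) / 4) else 0)) := by
        rw [← Finset.sum_neg_distrib]
        refine Finset.sum_congr rfl (fun m _ => ?_)
        split_ifs <;> ring
      rw [h5]
      linarith)
    (fun b hb => by
      have h1 : ∑ m ∈ n.divisors, (if n / m % 4 = 1 then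
        p0 (fun x => if x = b then 1 else 0) m * (4 * m) * (-rho K κ (4 * m) ((n / m - 1) / 4))
        else 0) = 0 := by
        refine Finset.sum_eq_zero (fun m hm => ?_)
        split_ifs with h2
        · have h3 : ((-1 : ℝ)) ^ (κ * m) = (-1) ^ (κ * n) := by
            obtain ⟨c, hc⟩ := Nat.dvd_of_mem_divisors hm
            have hm0 : 0 < m := by
              rcases Nat.eq_zero_or_pos m with h0 | h0
              · rw [h0] at hc; omega
              · exact h0
            rw [hc, Nat.mul_div_cancel_left _ hm0] at h2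
            obtain ⟨j, hj⟩ : ∃ j, c = 2 * j + 1 := ⟨c / 2, by omega⟩
            rw [hc, hj, show κ * (m * (2 * j + 1)) = κ * m + 2 * (κ * m * j) by ring, pow_add,
              pow_mul (-1 : ℝ) 2]
            norm_num
          rw [bad0 a.all5 κ hκ m b (by rw [h3]; exact hb)]
          ring
        · rfl
      show _ + _ = (0 : ℝ)
      rw [h1, zero_add]
      split_ifs with h2
      · rw [hE, if_neg]
        rintro ⟨h3, h4⟩
        rw [h2, (a.all5.psi K).1, (h3.mul h4).neg_one_pow] at hb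
        norm_num at hb
      · rfl) b
  have h2 : ∑ b : K, ((∑ m ∈ n.divisors, (if n / m % 4 = 1 then
        p0 (fun x => if x = b then 1 else 0) m * (4 * m) * (-rho K κ (4 * m) ((n / m - 1) / 4))
        else 0)) + (if b = 0 then E else 0)) = ((2 : ℝ) ^ κ) ^ n *
        ∑ d ∈ n.divisors with d % 2 = 1, (jacobiSym (-1) d : ℝ) * ((2 : ℝ) ^ κ) ^ (n / d) := by
    have h3 := glob4 a.all5 κ hκ n hn
    rw [← h3, Finset.sum_add_distrib]
    congr 1
    · rw [Finset.sum_comm]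
      refine Finset.sum_congr rfl (fun m _ => ?_)
      split_ifs
      · have h4 := p0_lin (fun _ : K => (1 : ℝ)) m
        rw [(a.brb K).2.2.2.2 m] at h4
        simp only [one_mul] at h4
        have h5 : pu K (2 * m) = pi0 K m := (a.all5.bru K m).2
        have h6 : ((-1 : ℝ) ^ κ) ^ (4 * m) = 1 := by
          rw [← pow_mul, show κ * (4 * m) = 2 * (κ * (2 * m)) by ring, pow_mul]
          norm_num
        rw [h5, h4, Finset.sum_mul, Finset.sum_mul]
        refine Finset.sum_congr rfl (fun b _ => ?_)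
        unfold rho
        rw [h6, card_real hκ]
        ring
      · simp
    · rw [Finset.sum_eq_single (0 : K)]
      · rw [if_pos rfl]
      · intro b _ hb
        rw [if_neg hb]
      · intro h
        exact absurd (Finset.mem_univ _) h
  rw [h2] at h
  exact h

end

end Pool.Agent.H525.EX
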