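import Mathlib
import Pool.Agent.H525.EX.Global4

/-!
# Project EX (helper525): final form of the formula with prescribed second coefficient
-/

namespace Pool.Agent.H525.EX

open Polynomial
open Pool.Agent.H525.QF
open scoped Classical

theorem lhs_even (hcd : S_cdiv) (κ : ℕ) (p : ℕ → ℝ) (n : ℕ) (hn : 1 ≤ n) :
    ∑ m ∈ n.divisors, (if n / m % 4 = 1 then
        p (2 * m) * (4 * m) * ((((2 : ℝ) ^ κ) ^ (4 * m)) ^ ((n / m - 1) / 4) *
          Cc 1 (((2 : ℝ) ^ κ) ^ (4 * m))⁻¹ ((n / m - 1) / 4)) else 0) =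
      ∑ f ∈ (2 * n).divisors with 2 * n / f % 4 = 1, (2 * f : ℝ) * p f *
        ∑ d ∈ (2 * n / f).divisors, (jacobiSym (-1) d : ℝ) *
          ((2 : ℝ) ^ κ) ^ (f * ((d - 1) * (2 * n / f / d - 1) / 2)) := by
  rw [← Finset.sum_filter]
  refine Finset.sum_nbij' (fun m => 2 * m) (fun f => f / 2) ?_ ?_ ?_ ?_ ?_
  · intro m hm
    simp only [Finset.mem_filter, Nat.mem_divisors] at hm ⊢
    obtain ⟨⟨hmn, hn0⟩, hmod⟩ := hm
    refine ⟨⟨Nat.mul_dvd_mul_left 2 hmn, by omega⟩, ?_⟩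
    rw [Nat.mul_div_mul_left _ _ (by norm_num : 0 < 2)]
    exact hmod
  · intro f hf
    simp only [Finset.mem_filter, Nat.mem_divisors] at hf ⊢
    obtain ⟨⟨⟨c, hc⟩, hn0⟩, hmod⟩ := hf
    have hf0 : 0 < f := by
      rcases Nat.eq_zero_or_pos f with h0 | h0
      · rw [h0] at hc; omega
      · exact h0
    rw [hc, Nat.mul_div_cancel_left _ hf0] at hmod
    have hfe : f % 2 = 0 := by
      by_contra hne
      have h1 : Odd (f * c) := Odd.mul (Nat.odd_iff.2 (by omega)) (Nat.odd_iff.2 (by omega))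
      rw [← hc] at h1
      exact (Nat.not_odd_iff_even.2 (even_two_mul n)) h1
    obtain ⟨g, hg⟩ : ∃ g, f = 2 * g := ⟨f / 2, by omega⟩
    have hg2 : f / 2 = g := by omega
    have hnc : n = g * c := by
      rw [hg, mul_assoc] at hc
      omega
    have hg0 : 0 < g := by omega
    rw [hg2]
    refine ⟨⟨⟨c, hnc⟩, by omega⟩, ?_⟩
    rw [hnc, Nat.mul_div_cancel_left _ hg0]
    exact hmod
  · intro m _
    show 2 * m / 2 = m
    omega
  · intro f hf
    simp only [Finset.mem_filter, Nat.mem_divisors] at hf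
    obtain ⟨⟨⟨c, hc⟩, hn0⟩, hmod⟩ := hf
    have hf0 : 0 < f := by
      rcases Nat.eq_zero_or_pos f with h0 | h0
      · rw [h0] at hc; omega
      · exact h0
    rw [hc, Nat.mul_div_cancel_left _ hf0] at hmod
    have hfe : f % 2 = 0 := by
      by_contra hne
      have h1 : Odd (f * c) := Odd.mul (Nat.odd_iff.2 (by omega)) (Nat.odd_iff.2 (by omega))
      rw [← hc] at h1
      exact (Nat.not_odd_iff_even.2 (even_two_mul n)) h1
    show 2 * (f / 2) = f
    omega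
  · intro m hm
    simp only [Finset.mem_filter, Nat.mem_divisors] at hm
    obtain ⟨⟨hmn, hn0⟩, hmod⟩ := hm
    have e1 : 2 * n / (2 * m) = n / m := Nat.mul_div_mul_left _ _ (by norm_num)
    have h6 := Pool.Agent.H50.EX.local_sum hcd κ (2 * m) (n / m) hmod
    have e2 : 2 * (2 * m) = 4 * m := by ring
    rw [e2] at h6
    rw [e1, h6]
    push_cast
    ring

section

variable {K : Type} [Field K] [Fintype K]

theorem exists_sqrt [CharP K 2] (b : K) : ∃ c : K, c ^ 2 = b := by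
  obtain ⟨c, hc⟩ := isSquare_of_charTwo' b
  exact ⟨c, by rw [hc]; ring⟩

theorem neg_pow_half (κ M f : ℕ) (hf : f ∣ M) (hM : 1 ≤ M) (h : M / f % 4 = 1) :
    (-1 : ℝ) ^ (κ * (f / 2)) = (-1) ^ (κ * (M / 2)) := by
  obtain ⟨c, hc⟩ := hf
  have hf0 : 0 < f := by
    rcases Nat.eq_zero_or_pos f with h0 | h0
    · rw [h0] at hc; omega
    · exact h0
  rw [hc, Nat.mul_div_cancel_left _ hf0] at h
  obtain ⟨j, hj⟩ : ∃ j, c = 4 * j + 1 := ⟨c / 4, by omega⟩
  have h1 : M / 2 = f / 2 + 2 * (f * j) := by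
    rw [hc, hj, show f * (4 * j + 1) = f + 2 * (2 * (f * j)) by ring]
    omega
  rw [h1, show κ * (f / 2 + 2 * (f * j)) = κ * (f / 2) + 2 * (κ * (f * j)) by ring, pow_add,
    pow_mul (-1 : ℝ) 2]
  norm_num

/-- The exact formula with prescribed second coefficient. -/
theorem refU (a : All8) [CharP K 2] (κ : ℕ) (hκ : Fintype.card K = 2 ^ κ) (M : ℕ) (hM : 1 ≤ M)
    (b : K) :
    ((2 : ℤ) ^ κ) * ∑ f ∈ M.divisors with M / f % 4 = 1, (2 * f : ℤ) * (pb K f b : ℤ) *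
        ∑ d ∈ (M / f).divisors, jacobiSym (-1) d *
          ((2 : ℤ) ^ κ) ^ (f * ((d - 1) * (M / f / d - 1) / 2)) =
      (1 - (-1) ^ (κ * (M / 2)) * psi b) *
        (∑ d ∈ M.divisors with d % 2 = 1, jacobiSym (-((2 : ℤ) ^ κ) ^ M) d *
          ((2 : ℤ) ^ κ) ^ ((M + M / d) / 2)) -
      (if b = 0 then ((2 : ℤ) ^ κ) * (if Odd κ ∧ M % 4 = 2 then
        2 * ((2 : ℤ) ^ κ) ^ (M / 2) * ∑ d ∈ (M / 2).divisors, jacobiSym (-1) d else 0) else 0) := by
  obtain ⟨hb1, hb0, hpsi, -, -⟩ := a.brb K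
  obtain ⟨c, hc⟩ := exists_sqrt b
  have hid := idu a.all5 κ hκ M hM
  unfold IdU at hid
  have hidR := congrArg (fun z : ℤ => (z : ℝ)) hid
  push_cast at hidR
  have hpb : psi b = psi c := by rw [← hc, hpsi]
  rcases Nat.even_or_odd' M with ⟨n, hn | hn⟩
  · -- even
    have hn1 : 1 ≤ n := by omega
    have h := ref0 a κ hκ n hn1 c
    have hL := lhs_even a.all5.all2.cdiv κ (fun f => (pb K f b : ℝ)) n hn1
    have h1 : ∑ m ∈ n.divisors, (if n / m % 4 = 1 then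
        p0 (fun x => if x = c then 1 else 0) m * (4 * m) * (-rho K κ (4 * m) ((n / m - 1) / 4))
        else 0) = ∑ m ∈ n.divisors, (if n / m % 4 = 1 then
        (pb K (2 * m) b : ℝ) * (4 * m) * ((((2 : ℝ) ^ κ) ^ (4 * m)) ^ ((n / m - 1) / 4) *
          Cc 1 (((2 : ℝ) ^ κ) ^ (4 * m))⁻¹ ((n / m - 1) / 4)) else 0) := by
      refine Finset.sum_congr rfl (fun m hm => ?_)
      have hm1 : 1 ≤ m := Nat.pos_of_mem_divisors hm
      have h6 : ((-1 : ℝ) ^ κ) ^ (4 * m) = 1 := by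
        rw [← pow_mul, show κ * (4 * m) = 2 * (κ * (2 * m)) by ring, pow_mul]
        norm_num
      rw [← hb0 m c hm1, hc]
      unfold rho
      rw [h6, card_real hκ]
      split_ifs <;> ring
    rw [h1, hL, card_real hκ] at h
    have h2 : (if Odd κ ∧ Odd n then 2 * ((2 : ℝ) ^ κ) ^ n *
        ∑ c ∈ n.divisors, (jacobiSym (-1) (n / c) : ℝ) else 0) =
        (if Odd κ ∧ M % 4 = 2 then 2 * ((2 : ℝ) ^ κ) ^ (M / 2) *
          ∑ c ∈ (M / 2).divisors, (jacobiSym (-1) c : ℝ) else 0) := by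
      have e1 : M / 2 = n := by omega
      have e2 : Odd n ↔ M % 4 = 2 := by rw [Nat.odd_iff]; omega
      rw [e1]
      have e3 := Nat.sum_div_divisors n (fun c => (jacobiSym (-1) c : ℝ))
      simp only [e2]
      rw [e3]
    have h3 : ((2 : ℝ) ^ κ) ^ n * ∑ d ∈ n.divisors with d % 2 = 1, (jacobiSym (-1) d : ℝ) *
        ((2 : ℝ) ^ κ) ^ (n / d) = ∑ d ∈ M.divisors with d % 2 = 1,
        (jacobiSym (-((2 : ℤ) ^ κ) ^ M) d : ℝ) * ((2 : ℝ) ^ κ) ^ ((M + M / d) / 2) := by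
      have g4 := glob4 a.all5 κ hκ n hn1
      have g5 := lhs_even a.all5.all2.cdiv κ (fun f => (pu K f : ℝ)) n hn1
      rw [g5, h2] at g4
      rw [← hn] at g4
      linarith
    have hc0 : c = 0 ↔ b = 0 := by
      rw [← hc]
      exact ⟨fun h => by rw [h]; ring, fun h => by simpa using h⟩
    rw [h2, h3, ← hn] at h
    have e1 : M / 2 = n := by omega
    have key : (((((2 : ℤ) ^ κ) * ∑ f ∈ M.divisors with M / f % 4 = 1, (2 * f : ℤ) *
        (pb K f b : ℤ) * ∑ d ∈ (M / f).divisors, jacobiSym (-1) d *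
          ((2 : ℤ) ^ κ) ^ (f * ((d - 1) * (M / f / d - 1) / 2)) : ℤ)) : ℝ) =
      (((1 - (-1) ^ (κ * (M / 2)) * psi b) *
        (∑ d ∈ M.divisors with d % 2 = 1, jacobiSym (-((2 : ℤ) ^ κ) ^ M) d *
          ((2 : ℤ) ^ κ) ^ ((M + M / d) / 2)) -
      (if b = 0 then ((2 : ℤ) ^ κ) * (if Odd κ ∧ M % 4 = 2 then
        2 * ((2 : ℤ) ^ κ) ^ (M / 2) * ∑ d ∈ (M / 2).divisors, jacobiSym (-1) d else 0) else 0) :
        ℤ) : ℝ) := by
      push_cast
      rw [hpb, e1]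
      rw [e1] at h
      by_cases hb : b = 0
      · rw [if_pos hb]
        rw [if_pos (hc0.2 hb)] at h
        linarith
      · rw [if_neg hb]
        rw [if_neg (fun hh => hb (hc0.1 hh))] at h
        linarith
    exact_mod_cast key
  · -- odd
    have hE : ¬ (Odd κ ∧ M % 4 = 2) := by omega
    rw [if_neg hE] at hidR
    have key : (((((2 : ℤ) ^ κ) * ∑ f ∈ M.divisors with M / f % 4 = 1, (2 * f : ℤ) *
        (pb K f b : ℤ) * ∑ d ∈ (M / f).divisors, jacobiSym (-1) d *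
          ((2 : ℤ) ^ κ) ^ (f * ((d - 1) * (M / f / d - 1) / 2)) : ℤ)) : ℝ) =
      (((1 - (-1) ^ (κ * (M / 2)) * psi b) *
        (∑ d ∈ M.divisors with d % 2 = 1, jacobiSym (-((2 : ℤ) ^ κ) ^ M) d *
          ((2 : ℤ) ^ κ) ^ ((M + M / d) / 2)) -
      (if b = 0 then ((2 : ℤ) ^ κ) * (if Odd κ ∧ M % 4 = 2 then
        2 * ((2 : ℤ) ^ κ) ^ (M / 2) * ∑ d ∈ (M / 2).divisors, jacobiSym (-1) d else 0) else 0) :
        ℤ) : ℝ) := by
      rw [if_neg hE, mul_zero, ite_self]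
      push_cast
      rw [sub_zero] at hidR ⊢
      rw [← hidR, Finset.mul_sum, Finset.mul_sum]
      refine Finset.sum_congr rfl (fun f hf => ?_)
      rw [Finset.mem_filter, Nat.mem_divisors] at hf
      obtain ⟨⟨hfM, hM0⟩, hf4⟩ := hf
      have hfo : Odd f := Odd.of_dvd_nat ⟨n, hn⟩ hfM
      obtain ⟨m, hm⟩ := hfo
      have h1 := ref1 a κ hκ m c
      have h2 : (pb K f b : ℝ) = p1 (fun x => if x = c then 1 else 0) m := by
        rw [← hb1 m c, hc, hm]
      have h3 : pu K f = pi1 K m := by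
        rw [hm]; exact (a.all5.bru K m).1
      have h4 := neg_pow_half κ M f hfM hM hf4
      have h5 : f / 2 = m := by omega
      rw [h5] at h4
      rw [h4, ← h2, ← h3, card_real hκ, ← hpb] at h1
      linear_combination (2 * (f : ℝ) * ∑ d ∈ (M / f).divisors, (jacobiSym (-1) d : ℝ) *
          ((2 : ℝ) ^ κ) ^ (f * ((d - 1) * (M / f / d - 1) / 2))) * h1
    exact_mod_cast key

end

end Pool.Agent.H525.EX
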