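import Mathlib
import Pool.Agent.H525.EX.Stm8

/-!
# Project EX (helper525), part IX: general coefficient and prescribed second coefficient
-/

namespace Pool.Agent.H525.EX

open Polynomial
open Pool.Agent.H525.QF
open scoped Classical

/-- The number of monic `u` of degree `M` with coefficient `b` of `X ^ (M - 1)` and
`u ^ 2 + c (u') ^ 2` irreducible. -/
noncomputable def pc (K : Type) [Field K] (c : K[X]) (M : ℕ) (b : K) : ℕ :=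
  {u : K[X] | u.Monic ∧ u.natDegree = M ∧ u.coeff (M - 1) = b ∧
    Irreducible (u ^ 2 + c * (derivative u) ^ 2)}.ncard

/-- **BRGB** (`S_brg` with prescribed second coefficient; see `Pool/Agent/H928/EX/BRG.lean` and
`Pool/Agent/H706/EX/BRB.lean`).  In the notation of `S_brg`: `β = 1 + α ≠ 0`, `u = x ^ 2 + X y ^ 2`,
`μ ^ 4 = γ`, `λ ^ 4 = β⁻¹`, `σ : X ↦ β⁻¹ X`.  First kind (`u` monic of degree `2 m + 1`, `y` monic of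
degree `m`): the coefficient of `X ^ (2 m)` in `u` is `b = x_m ^ 2`, the new pair is
`x₁ = k⁻¹ σ (x + μ y)`, `y₁ = k⁻¹ λ σ y`, `k = λ β ^ (-m)`, and `(x₁)_m = λ⁻¹ (x_m + μ)`, so
`(x₁)_m ^ 4 = β (b ^ 2 + γ)`.  Second kind (`u` monic of degree `2 m`, `x` monic of degree `m`): the
coefficient of `X ^ (2 m - 1)` is `b = y_(m-1) ^ 2`, `x₁ = β ^ m σ (x + μ y)`, `y₁ = β ^ m λ σ y`,
`(y₁)_(m-1) = β λ y_(m-1)`, so `(y₁)_(m-1) ^ 4 = β ^ 3 b ^ 2`.  (`a ^ 4 = a' ^ 4` iff `a = a'`.) -/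
def S_brgb : Prop :=
  ∀ (K : Type) [Field K] [Fintype K] [CharP K 2] (α γ : K), α ≠ 1 →
    (∀ (m : ℕ) (b a : K), a ^ 4 = (1 + α) * (b ^ 2 + γ) →
      (pc K (C α * X ^ 2 + X + C γ) (2 * m + 1) b : ℝ) =
        p1 (fun z => if z = a then 1 else 0) m) ∧
    (∀ (m : ℕ) (b a : K), 1 ≤ m → a ^ 4 = (1 + α) ^ 3 * b ^ 2 →
      (pc K (C α * X ^ 2 + X + C γ) (2 * m) b : ℝ) = p0 (fun z => if z = a then 1 else 0) m)

/-- The main term. -/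
def Rm (κ M : ℕ) : ℤ := ∑ d ∈ M.divisors with d % 2 = 1, jacobiSym (-((2 : ℤ) ^ κ) ^ M) d *
  ((2 : ℤ) ^ κ) ^ ((M + M / d) / 2)

/-- The correction. -/
def Em (κ M : ℕ) : ℤ := if κ % 2 = 1 ∧ M % 4 = 2 then
  2 * ((2 : ℤ) ^ κ) ^ (M / 2) * ∑ d ∈ (M / 2).divisors, jacobiSym (-1) d else 0

/-- The left side. -/
def Lm (κ : ℕ) (p : ℕ → ℕ) (M : ℕ) : ℤ :=
  ∑ f ∈ M.divisors with M / f % 4 = 1, (2 * f : ℤ) * (p f : ℤ) *
      ∑ d ∈ (M / f).divisors, jacobiSym (-1) d *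
        ((2 : ℤ) ^ κ) ^ (f * ((d - 1) * (M / f / d - 1) / 2))

/-- **BDB** (asymptotics with prescribed second coefficient; compare `S_bdu`,
`Pool/Agent/H118/EX/BDU.lean`): `Rm κ M = q ^ M + O (M q ^ (2 M / 3))`, `|Em κ M| ≤ 2 M q ^ (M / 2)`, the
terms `f < M` (`f ≤ M / 5`) of `Lm` are together at most `(2 M ^ 3 / 25) q ^ (M / 2)`. -/
def S_bdb : Prop :=
  ∀ (κ : ℕ) (p : ℕ → ℕ) (s δ : ℤ) (M : ℕ), 1 ≤ κ → 1 ≤ M → (∀ f, p f ≤ (2 ^ κ) ^ f) →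
    (s = 1 ∨ s = -1) → (δ = 0 ∨ δ = 1) →
    (2 : ℤ) ^ κ * Lm κ p M = (1 - s) * Rm κ M - δ * ((2 : ℤ) ^ κ * Em κ M) →
    |(2 : ℝ) ^ κ * (2 * M * p M) - (1 - s) * ((2 : ℝ) ^ κ) ^ M| ≤
      4 * (M : ℝ) ^ 3 * ((2 : ℝ) ^ κ) ^ (2 * M / 3 + 1)

end Pool.Agent.H525.EX
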