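import Mathlib
import Pool.Agent.H525.EX.Global5
import Pool.Agent.H525.EX.Stm9

/-!
# Project EX (helper525): general coefficient and prescribed second coefficient
-/

namespace Pool.Agent.H525.EX

open Polynomial
open Pool.Agent.H525.QF
open scoped Classical

section

variable {K : Type} [Field K] [Fintype K]

theorem psi_four (a : All8) [CharP K 2] (z : K) : psi (z ^ 4) = psi (z ^ 2) := by
  have h := (a.brb K).2.2.1
  rw [show z ^ 4 = (z ^ 2) ^ 2 by ring, h]

theorem exists_four [CharP K 2] (b : K) : ∃ z : K, z ^ 4 = b := by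
  obtain ⟨x, hx⟩ := exists_sqrt b
  obtain ⟨z, hz⟩ := exists_sqrt x
  exact ⟨z, by rw [show z ^ 4 = (z ^ 2) ^ 2 by ring, hz, hx]⟩

theorem pc_le (c : K[X]) (M : ℕ) (b : K) : pc K c M b ≤ Fintype.card K ^ M := by
  unfold pc
  have h1 : {u : K[X] | u.Monic ∧ u.natDegree = M ∧ u.coeff (M - 1) = b ∧
      Irreducible (u ^ 2 + c * (derivative u) ^ 2)} ⊆ ((mon K M : Finset K[X]) : Set K[X]) := by
    rintro u ⟨h1, h2, -, -⟩
    rw [Finset.mem_coe, mem_mon]
    exact ⟨h1, h2⟩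
  refine (Set.ncard_le_ncard h1 (Finset.finite_toSet _)).trans ?_
  rw [Set.ncard_coe_finset, card_mon]

/-- The argument of the character. -/
noncomputable def wc (c : K[X]) (b : K) (M : ℕ) : K :=
  if M % 2 = 1 then (1 + c.coeff 2) * (b ^ 2 + c.coeff 0) else (1 + c.coeff 2) ^ 3 * b ^ 2

theorem beta_ne [CharP K 2] {c : K[X]} (hc2 : c.coeff 2 ≠ 1) : 1 + c.coeff 2 ≠ 0 := by
  have h2 : (2 : K) = 0 := by
    have := CharP.cast_eq_zero K 2
    exact_mod_cast this
  intro h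
  apply hc2
  linear_combination h - h2

/-- Reduction to `c = t`. -/
theorem red_c (a : All8) (hg : S_brgb) [CharP K 2] {c : K[X]} (hc : c.natDegree ≤ 2)
    (hc1 : derivative c = 1) (hc2 : c.coeff 2 ≠ 1) (M : ℕ) (b z : K)
    (hz : z ^ 4 = wc c b M) (f : ℕ) (hf : 1 ≤ f) (hfM : f % 2 = M % 2) :
    pc K c f b = pb K f (z ^ 2) := by
  have hceq := c_eq hc hc1
  obtain ⟨hg1, hg0⟩ := hg K (c.coeff 2) (c.coeff 0) hc2
  obtain ⟨hb1, hb0, -, -, -⟩ := a.brb K
  unfold wc at hz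
  have key : (pc K c f b : ℝ) = pb K f (z ^ 2) := by
    rcases Nat.even_or_odd' f with ⟨m, hm | hm⟩
    · rw [if_neg (by omega)] at hz
      have h1 := hg0 m b z (by omega) hz
      rw [← hceq] at h1
      rw [hm, h1, hb0 m z (by omega)]
    · rw [if_pos (by omega)] at hz
      have h1 := hg1 m b z hz
      rw [← hceq] at h1
      rw [hm, h1, hb1 m z]
  exact_mod_cast key

/-- The formula for general `c`. -/
theorem refC (a : All8) (hg : S_brgb) [CharP K 2] (κ : ℕ) (hκ : Fintype.card K = 2 ^ κ) {c : K[X]}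
    (hc : c.natDegree ≤ 2) (hc1 : derivative c = 1) (hc2 : c.coeff 2 ≠ 1) (M : ℕ) (hM : 1 ≤ M)
    (b : K) :
    (2 : ℤ) ^ κ * Lm κ (fun f => pc K c f b) M =
      (1 - (-1) ^ (κ * (M / 2)) * psi (wc c b M)) * Rm κ M -
        (if b = 0 then 1 else 0) * ((2 : ℤ) ^ κ * Em κ M) := by
  obtain ⟨z, hz⟩ := exists_four (wc c b M)
  have h := refU a κ hκ M hM (z ^ 2)
  have h1 : Lm κ (fun f => pc K c f b) M = ∑ f ∈ M.divisors with M / f % 4 = 1,
      (2 * f : ℤ) * (pb K f (z ^ 2) : ℤ) *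
        ∑ d ∈ (M / f).divisors, jacobiSym (-1) d *
          ((2 : ℤ) ^ κ) ^ (f * ((d - 1) * (M / f / d - 1) / 2)) := by
    unfold Lm
    refine Finset.sum_congr rfl (fun f hf => ?_)
    rw [Finset.mem_filter, Nat.mem_divisors] at hf
    obtain ⟨⟨⟨k, hk⟩, hM0⟩, hf4⟩ := hf
    have hf0 : 1 ≤ f := by
      rcases Nat.eq_zero_or_pos f with h0 | h0
      · rw [h0] at hk; omega
      · exact h0
    rw [hk, Nat.mul_div_cancel_left _ hf0] at hf4
    have hpar : f % 2 = M % 2 := by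
      obtain ⟨j, hj⟩ : ∃ j, k = 2 * j + 1 := ⟨k / 2, by omega⟩
      rw [hk, hj, show f * (2 * j + 1) = f + 2 * (f * j) by ring]
      omega
    have := red_c a hg hc hc1 hc2 M b z hz f hf0 hpar
    show (2 * f : ℤ) * ((pc K c f b : ℕ) : ℤ) * _ = _
    rw [this]
  have h2 : psi (wc c b M) = psi (z ^ 2) := by rw [← hz]; exact psi_four a z
  rw [h1, h, h2]
  unfold Rm Em
  have h3 : (Odd κ ∧ M % 4 = 2) ↔ (κ % 2 = 1 ∧ M % 4 = 2) := by rw [Nat.odd_iff]
  have h4 : M % 2 = 0 → (z ^ 2 = 0 ↔ b = 0) := by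
    intro hM2
    unfold wc at hz
    rw [if_neg (by omega)] at hz
    have hb := beta_ne hc2
    constructor
    · intro h5
      have h6 : (1 + c.coeff 2) ^ 3 * b ^ 2 = 0 := by
        rw [← hz, show z ^ 4 = (z ^ 2) ^ 2 by ring, h5]
        ring
      rcases mul_eq_zero.1 h6 with h7 | h7
      · exact absurd (pow_eq_zero_iff (by norm_num) |>.1 h7) hb
      · exact pow_eq_zero_iff (by norm_num) |>.1 h7
    · intro h5
      rw [h5] at hz
      have h6 : z ^ 4 = 0 := by rw [hz]; ring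
      rw [pow_eq_zero_iff (by norm_num) |>.1 h6]
      ring
  by_cases hE : κ % 2 = 1 ∧ M % 4 = 2
  · rw [if_pos (h3.2 hE), if_pos hE]
    by_cases hb : b = 0
    · rw [if_pos hb, if_pos ((h4 (by omega)).2 hb), one_mul]
    · rw [if_neg hb, if_neg (fun hh => hb ((h4 (by omega)).1 hh)), zero_mul]
  · rw [if_neg (fun hh => hE (h3.1 hh)), if_neg hE]
    simp

/-- No primes for the wrong sign. -/
theorem vanC (a : All8) (hg : S_brgb) [CharP K 2] (κ : ℕ) (hκ : Fintype.card K = 2 ^ κ) {c : K[X]}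
    (hc : c.natDegree ≤ 2) (hc1 : derivative c = 1) (hc2 : c.coeff 2 ≠ 1) (M : ℕ) (hM : 1 ≤ M)
    (b : K) (hs : (-1) ^ (κ * (M / 2)) * psi (wc c b M) = 1) : pc K c M b = 0 := by
  obtain ⟨z, hz⟩ := exists_four (wc c b M)
  obtain ⟨hb1, hb0, hpsi, -, -⟩ := a.brb K
  rw [red_c a hg hc hc1 hc2 M b z hz M hM rfl]
  have h2 : psi (wc c b M) = psi z := by rw [← hz, psi_four a z, hpsi]
  rw [h2] at hs
  have h3 : ((-1 : ℝ) ^ (κ * (M / 2))) * (psi z : ℝ) = 1 := by exact_mod_cast hs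
  have key : (pb K M (z ^ 2) : ℝ) = 0 := by
    rcases Nat.even_or_odd' M with ⟨m, hm | hm⟩
    · rw [show M / 2 = m by omega] at h3
      rw [hm, hb0 m z (by omega)]
      exact bad0 a.all5 κ hκ m z h3
    · rw [show M / 2 = m by omega] at h3
      rw [hm, hb1 m z]
      exact bad1 a.all5 κ hκ m z h3
  exact_mod_cast key

end

end Pool.Agent.H525.EX
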