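import Mathlib
import Pool.Agent.H525.EX.Final4
import Pool.Agent.H379.EX.GA3
import Pool.Agent.H36.EX.GN3
import Pool.Agent.H443.EX.GD31
import Pool.Agent.H972.EX.GD30
import Pool.Agent.H895.EX.ARR
import Pool.Agent.H881.EX.CLA
import Pool.Agent.H706.EX.BRB
import Pool.Agent.H720.EX.BRGB
import Pool.Agent.H772.EX.BDB

/-!
# Project EX (helper525): all statements of part VIII
-/

namespace Pool.Agent.H525.EX

theorem all8 : All8 :=
  ⟨all5, Pool.Agent.H379.EX.t_ga3, Pool.Agent.H36.EX.t_gn3, Pool.Agent.H443.EX.t_gd31,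
    Pool.Agent.H972.EX.t_gd30, Pool.Agent.H895.EX.t_arr, Pool.Agent.H881.EX.t_cla,
    Pool.Agent.H706.EX.t_brb⟩

end Pool.Agent.H525.EX
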